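import Pool.Agent.Lib.MP_80c395_co_BC.Defs

/-!
# MP_80c395_co, project BC: a permutation with long cycles inside the classes
-/

set_option autoImplicit false

open Finset

namespace Pool.Agent.BC

open Pool.Agent.Lib.MP_80c395_co

/-- a permutation of a finite type which is one cycle -/
private theorem cyc_one (W : Type) [Fintype W] :
    ∃ σ : Equiv.Perm W, ∀ (w : W) (k : ℤ), (σ ^ k) w = w → (Fintype.card W : ℤ) ∣ k := by
  rcases isEmpty_or_nonempty W with h | h
  · exact ⟨1, fun w => isEmptyElim w⟩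
  have hn : NeZero (Fintype.card W) := ⟨Fintype.card_ne_zero⟩
  obtain ⟨n, hn'⟩ : ∃ n, n = Fintype.card W := ⟨_, rfl⟩
  rw [← hn'] at hn ⊢
  have e : W ≃ ZMod n := Fintype.equivOfCardEq (by rw [ZMod.card, hn'])
  obtain ⟨σ, hσ⟩ : ∃ σ : Equiv.Perm W, ∀ w, e (σ w) = e w + 1 :=
    ⟨(e.trans (Equiv.addRight 1)).trans e.symm, fun w => by simp⟩
  have hσ' : ∀ w, e (σ⁻¹ w) = e w - 1 := by
    intro w
    have h1 := hσ (σ⁻¹ w)
    rw [Equiv.Perm.coe_inv, Equiv.apply_symm_apply] at h1
    rw [Equiv.Perm.coe_inv, h1]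
    ring
  have key : ∀ (k : ℤ) (w : W), e ((σ ^ k) w) = e w + (k : ZMod n) := by
    intro k
    induction k using Int.induction_on with
    | zero => intro w; simp
    | succ i ih =>
      intro w
      rw [zpow_add_one, Equiv.Perm.mul_apply, ih, hσ]
      push_cast
      ring
    | pred i ih =>
      intro w
      rw [zpow_sub_one, Equiv.Perm.mul_apply, ih, hσ']
      push_cast
      ring
  refine ⟨σ, fun w k hk => ?_⟩
  have h1 := key k w
  rw [hk] at h1
  have h2 : (k : ZMod n) = 0 := by
    have h3 : e w + 0 = e w + (k : ZMod n) := by rw [add_zero]; exact h1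
    exact (add_left_cancel h3).symm
  exact (ZMod.intCast_zmod_eq_zero_iff_dvd k n).mp h2

theorem exists_cyc {V α : Type} [Fintype V] [DecidableEq V] [Fintype α] [DecidableEq α]
    (a : V → α) (g : ℕ) :
    ∃ (U : Finset V) (π : Equiv.Perm V), Cyc π U g ∧ (∀ u ∈ U, a (π u) = a u) ∧
      Uᶜ.card ≤ Fintype.card α * g := by
  choose f hf using fun x : α => cyc_one {v : V // a v = x}
  obtain ⟨π, hπ⟩ : ∃ π : Equiv.Perm V, ∀ v, π v = (f (a v) ⟨v, rfl⟩).1 :=
    ⟨(Equiv.sigmaFiberEquiv a).permCongr (Equiv.Perm.sigmaCongrRight f), fun v => rfl⟩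
  have hπ1 : ∀ (x : α) (w : {v : V // a v = x}), π w.1 = (f x w).1 := by
    rintro x ⟨w, rfl⟩
    exact hπ w
  have hπ2 : ∀ (x : α) (w : {v : V // a v = x}), π⁻¹ w.1 = ((f x)⁻¹ w).1 := by
    intro x w
    rw [Equiv.Perm.inv_eq_iff_eq, hπ1, Equiv.Perm.coe_inv, Equiv.apply_symm_apply]
  have key : ∀ (k : ℤ) (x : α) (w : {v : V // a v = x}), (π ^ k) w.1 = ((f x ^ k) w).1 := by
    intro k
    induction k using Int.induction_on with
    | zero => intro x w; simp
    | succ i ih =>
      intro x w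
      rw [zpow_add_one, Equiv.Perm.mul_apply, hπ1, ih, zpow_add_one, Equiv.Perm.mul_apply]
    | pred i ih =>
      intro x w
      rw [zpow_sub_one, Equiv.Perm.mul_apply, hπ2, ih, zpow_sub_one, Equiv.Perm.mul_apply]
  have ha : ∀ u, a (π u) = a u := fun u => by rw [hπ]; exact (f (a u) ⟨u, rfl⟩).2
  refine ⟨univ.filter fun v => g ≤ Fintype.card {w : V // a w = a v}, π, ⟨?_, ?_⟩,
    fun u _ => ha u, ?_⟩
  · intro u
    rw [mem_filter, mem_filter, ha]
    simp only [mem_univ, true_and]
  · intro u hu k hk hku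
    rw [mem_filter] at hu
    have h1 := key k (a u) ⟨u, rfl⟩
    rw [hku] at h1
    have h2 := hf (a u) ⟨u, rfl⟩ k (Subtype.ext h1.symm)
    apply Int.eq_zero_of_abs_lt_dvd h2
    have h3 : (g : ℤ) ≤ Fintype.card {w : V // a w = a u} := by exact_mod_cast hu.2
    linarith
  · have h1 := Finset.card_le_mul_card_image (f := a)
      (univ.filter fun v => g ≤ Fintype.card {w : V // a w = a v})ᶜ g (by
        intro x _
        by_cases hx : g ≤ Fintype.card {w : V // a w = x}
        · rw [Finset.card_eq_zero.mpr]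
          · exact Nat.zero_le _
          · rw [Finset.filter_eq_empty_iff]
            intro v hv hvx
            rw [mem_compl, mem_filter, hvx] at hv
            exact hv ⟨mem_univ _, hx⟩
        · refine le_trans ?_ (not_le.mp hx).le
          rw [Fintype.card_subtype]
          exact Finset.card_le_card (Finset.filter_subset_filter _ (subset_univ _)))
    refine h1.trans ?_
    rw [mul_comm]
    exact Nat.mul_le_mul_right _ (Finset.card_le_univ _)

end Pool.Agent.BC
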