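import Mathlib

/-!
# MP_80c395_co, project BC: Galvin: list colouring of the elements of a partial array
-/

set_option autoImplicit false

open Finset

namespace Pool.Agent.BC

open scoped Classical in
private theorem galvin_kernel {E W C : Type} (row : E → W) (col : E → C) (pos : E → ℕ)
    (h2 : ∀ e e', row e = row e' → pos e = pos e' → e = e')
    (h3 : ∀ e e', col e = col e' → pos e = pos e' → e = e') (n : ℕ) :
    ∀ S : Finset E, S.card = n → ∃ K ⊆ S,
      (∀ e ∈ K, ∀ e' ∈ K, e ≠ e' → row e ≠ row e' ∧ col e ≠ col e') ∧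
      (∀ e ∈ S, e ∉ K → ∃ e' ∈ K, (row e' = row e ∧ pos e < pos e') ∨
        (col e' = col e ∧ pos e' < pos e)) := by
  induction n using Nat.strong_induction_on with
  | _ n ih =>
  intro S hS
  by_cases hcase : ∃ e1 ∈ S, ∃ e2 ∈ S, (∀ e ∈ S, row e = row e1 → pos e ≤ pos e1) ∧
      (∀ e ∈ S, row e = row e2 → pos e ≤ pos e2) ∧ e1 ≠ e2 ∧ col e1 = col e2
  · -- two tops in one column
    have hwlog : ∃ e1 ∈ S, ∃ e2 ∈ S, (∀ e ∈ S, row e = row e1 → pos e ≤ pos e1) ∧
        col e1 = col e2 ∧ pos e1 < pos e2 := by
      obtain ⟨e1, he1, e2, he2, ht1, ht2, hne, hc⟩ := hcase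
      rcases lt_trichotomy (pos e1) (pos e2) with h | h | h
      · exact ⟨e1, he1, e2, he2, ht1, hc, h⟩
      · exact absurd (h3 e1 e2 hc h) hne
      · exact ⟨e2, he2, e1, he1, ht2, hc.symm, h⟩
    obtain ⟨e1, he1, e2, he2, ht1, hc, hlt⟩ := hwlog
    have hcard : (S.erase e2).card < n := by
      rw [← hS]
      exact Finset.card_erase_lt_of_mem he2
    obtain ⟨K, hKS, hind, hdom⟩ := ih _ hcard (S.erase e2) rfl
    refine ⟨K, hKS.trans (Finset.erase_subset _ _), hind, fun e he heK => ?_⟩
    by_cases hee : e = e2
    · subst hee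
      by_cases hK1 : e1 ∈ K
      · exact ⟨e1, hK1, Or.inr ⟨hc, hlt⟩⟩
      · have hne : e1 ≠ e := by
          intro h
          rw [h] at hlt
          exact lt_irrefl _ hlt
        obtain ⟨e', he', h'⟩ := hdom e1 (Finset.mem_erase.mpr ⟨hne, he1⟩) hK1
        rcases h' with ⟨hr, hp⟩ | ⟨hcc, hp⟩
        · have := ht1 e' (Finset.mem_of_mem_erase (hKS he')) hr
          omega
        · exact ⟨e', he', Or.inr ⟨hcc.trans hc, hp.trans hlt⟩⟩
    · exact hdom e (Finset.mem_erase.mpr ⟨hee, he⟩) heK
  · push Not at hcase
    refine ⟨S.filter (fun e => ∀ e' ∈ S, row e' = row e → pos e' ≤ pos e),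
      Finset.filter_subset _ _, ?_, ?_⟩
    · intro e he e' he' hne
      rw [Finset.mem_filter] at he he'
      refine ⟨fun hr => hne ?_, fun hc => ?_⟩
      · exact h2 e e' hr (le_antisymm (he'.2 e he.1 hr) (he.2 e' he'.1 hr.symm))
      · exact hcase e he.1 e' he'.1 he.2 he'.2 hne hc
    · intro e he heK
      obtain ⟨t, ht, hmax⟩ := Finset.exists_max_image (S.filter (fun e' => row e' = row e)) pos
        ⟨e, Finset.mem_filter.mpr ⟨he, rfl⟩⟩
      rw [Finset.mem_filter] at ht
      have htK : t ∈ S.filter (fun e => ∀ e' ∈ S, row e' = row e → pos e' ≤ pos e) := by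
        rw [Finset.mem_filter]
        exact ⟨ht.1, fun e' he' hr => hmax e' (Finset.mem_filter.mpr ⟨he', hr.trans ht.2⟩)⟩
      refine ⟨t, htK, Or.inl ⟨ht.2, ?_⟩⟩
      refine lt_of_le_of_ne (hmax e (Finset.mem_filter.mpr ⟨he, rfl⟩)) fun h => heK ?_
      rw [h2 e t ht.2.symm h]
      exact htK

open scoped Classical in
private theorem galvin_main {E W C D : Type} [DecidableEq D] [Inhabited D] (row : E → W)
    (col : E → C) (pos : E → ℕ) (L : W → Finset D)
    (h2 : ∀ e e', row e = row e' → pos e = pos e' → e = e')
    (h3 : ∀ e e', col e = col e' → pos e = pos e' → e = e') (Cs : Finset D) :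
    ∀ S : Finset E, (∀ e ∈ S, (S.filter (fun e' => row e' = row e ∧ pos e < pos e')).card +
      (S.filter (fun e' => col e' = col e ∧ pos e' < pos e)).card < (L (row e) ∩ Cs).card) →
    ∃ f : E → D, (∀ e ∈ S, f e ∈ L (row e) ∧ f e ∈ Cs) ∧
      ∀ e ∈ S, ∀ e' ∈ S, e ≠ e' → (row e = row e' ∨ col e = col e') → f e ≠ f e' := by
  induction Cs using Finset.induction_on with
  | empty =>
    intro S hS
    have hE : ∀ e, e ∉ S := by
      intro e he
      have := hS e he
      simp at this
    exact ⟨fun _ => default, fun e he => absurd he (hE e), fun e he => absurd he (hE e)⟩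
  | insert d Cs hd ih =>
    intro S hS
    obtain ⟨K, hKS, hind, hdom⟩ := galvin_kernel row col pos h2 h3 _
      (S.filter (fun e => d ∈ L (row e))) rfl
    have hKS' : ∀ e ∈ K, e ∈ S ∧ d ∈ L (row e) := fun e he => Finset.mem_filter.mp (hKS he)
    obtain ⟨f, hf1, hf2⟩ := ih (S \ K) (by
      intro e he
      rw [Finset.mem_sdiff] at he
      have hA : (S \ K).filter (fun e' => row e' = row e ∧ pos e < pos e') ⊆
          S.filter (fun e' => row e' = row e ∧ pos e < pos e') :=
        Finset.filter_subset_filter _ Finset.sdiff_subset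
      have hB : (S \ K).filter (fun e' => col e' = col e ∧ pos e' < pos e) ⊆
          S.filter (fun e' => col e' = col e ∧ pos e' < pos e) :=
        Finset.filter_subset_filter _ Finset.sdiff_subset
      have hA' := Finset.card_le_card hA
      have hB' := Finset.card_le_card hB
      have hSe := hS e he.1
      by_cases hdL : d ∈ L (row e)
      · have hcard : (L (row e) ∩ insert d Cs).card = (L (row e) ∩ Cs).card + 1 := by
          rw [Finset.inter_insert_of_mem hdL, Finset.card_insert_of_notMem]
          exact fun h => hd (Finset.mem_inter.mp h).2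
        rw [hcard] at hSe
        obtain ⟨e', he', h'⟩ := hdom e (Finset.mem_filter.mpr ⟨he.1, hdL⟩) he.2
        rcases h' with ⟨hr, hp⟩ | ⟨hc, hp⟩
        · have hlt : ((S \ K).filter (fun e' => row e' = row e ∧ pos e < pos e')).card <
              (S.filter (fun e' => row e' = row e ∧ pos e < pos e')).card := by
            refine Finset.card_lt_card (Finset.ssubset_iff_subset_ne.mpr ⟨hA, fun h => ?_⟩)
            have hm : e' ∈ S.filter (fun e' => row e' = row e ∧ pos e < pos e') :=
              Finset.mem_filter.mpr ⟨(hKS' e' he').1, hr, hp⟩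
            rw [← h, Finset.mem_filter, Finset.mem_sdiff] at hm
            exact hm.1.2 he'
          omega
        · have hlt : ((S \ K).filter (fun e' => col e' = col e ∧ pos e' < pos e)).card <
              (S.filter (fun e' => col e' = col e ∧ pos e' < pos e)).card := by
            refine Finset.card_lt_card (Finset.ssubset_iff_subset_ne.mpr ⟨hB, fun h => ?_⟩)
            have hm : e' ∈ S.filter (fun e' => col e' = col e ∧ pos e' < pos e) :=
              Finset.mem_filter.mpr ⟨(hKS' e' he').1, hc, hp⟩
            rw [← h, Finset.mem_filter, Finset.mem_sdiff] at hm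
            exact hm.1.2 he'
          omega
      · rw [Finset.inter_insert_of_notMem hdL] at hSe
        omega)
    have hmem : ∀ e ∈ S, e ∉ K → f e ∈ L (row e) ∧ f e ∈ Cs := fun e he hK =>
      hf1 e (Finset.mem_sdiff.mpr ⟨he, hK⟩)
    refine ⟨fun e => if e ∈ K then d else f e, fun e he => ?_, fun e he e' he' hne hrc => ?_⟩
    · by_cases hK : e ∈ K
      · simp only [hK, if_true]
        exact ⟨(hKS' e hK).2, Finset.mem_insert_self _ _⟩
      · simp only [hK, if_false]
        exact ⟨(hmem e he hK).1, Finset.mem_insert_of_mem (hmem e he hK).2⟩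
    · by_cases hK : e ∈ K
      · by_cases hK' : e' ∈ K
        · have := hind e hK e' hK' hne
          rcases hrc with h | h
          · exact absurd h this.1
          · exact absurd h this.2
        · simp only [hK, if_true, hK', if_false]
          intro h
          exact hd (h ▸ (hmem e' he' hK').2)
      · by_cases hK' : e' ∈ K
        · simp only [hK, if_false, hK', if_true]
          intro h
          exact hd (h ▸ (hmem e he hK).2)
        · simp only [hK, if_false, hK']
          exact hf2 e (Finset.mem_sdiff.mpr ⟨he, hK⟩) e' (Finset.mem_sdiff.mpr ⟨he', hK'⟩) hne hrc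

theorem galvin {E W C D : Type} [Fintype E] [DecidableEq D] (row : E → W) (col : E → C)
    (pos : E → ℕ) (L : W → Finset D) (h1 : ∀ e, pos e < (L (row e)).card)
    (h2 : ∀ e e', row e = row e' → pos e = pos e' → e = e')
    (h3 : ∀ e e', col e = col e' → pos e = pos e' → e = e') :
    ∃ f : E → D, (∀ e, f e ∈ L (row e)) ∧
      (∀ e e', e ≠ e' → row e = row e' → f e ≠ f e') ∧
      (∀ e e', e ≠ e' → col e = col e' → f e ≠ f e') := by
  classical
  rcases isEmpty_or_nonempty E with hE | ⟨⟨e0⟩⟩
  · exact ⟨fun e => hE.elim e, fun e => hE.elim e, fun e => hE.elim e, fun e => hE.elim e⟩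
  · have hD : (L (row e0)).Nonempty := Finset.card_pos.mp ((Nat.zero_le _).trans_lt (h1 e0))
    obtain ⟨d0, _⟩ := hD
    have : Inhabited D := ⟨d0⟩
    obtain ⟨f, hf1, hf2⟩ := galvin_main row col pos L h2 h3
      (Finset.univ.biUnion (fun e => L (row e))) Finset.univ (by
        intro e _
        have hsub : L (row e) ∩ Finset.univ.biUnion (fun e => L (row e)) = L (row e) := by
          refine Finset.inter_eq_left.mpr fun x hx => ?_
          exact Finset.mem_biUnion.mpr ⟨e, Finset.mem_univ _, hx⟩
        rw [hsub]
        have hA : ((Finset.univ : Finset E).filter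
            (fun e' => row e' = row e ∧ pos e < pos e')).card ≤
            (Finset.Ioo (pos e) (L (row e)).card).card := by
          refine Finset.card_le_card_of_injOn pos ?_ ?_
          · intro x hx
            have hx' := (Finset.mem_filter.mp (Finset.mem_coe.mp hx)).2
            have hx1 := h1 x
            rw [hx'.1] at hx1
            exact Finset.mem_coe.mpr (Finset.mem_Ioo.mpr ⟨hx'.2, hx1⟩)
          · intro x hx y hy hxy
            have hx' := (Finset.mem_filter.mp (Finset.mem_coe.mp hx)).2
            have hy' := (Finset.mem_filter.mp (Finset.mem_coe.mp hy)).2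
            exact h2 x y (hx'.1.trans hy'.1.symm) hxy
        have hB : ((Finset.univ : Finset E).filter
            (fun e' => col e' = col e ∧ pos e' < pos e)).card ≤ (Finset.range (pos e)).card := by
          refine Finset.card_le_card_of_injOn pos ?_ ?_
          · intro x hx
            have hx' := (Finset.mem_filter.mp (Finset.mem_coe.mp hx)).2
            exact Finset.mem_coe.mpr (Finset.mem_range.mpr hx'.2)
          · intro x hx y hy hxy
            have hx' := (Finset.mem_filter.mp (Finset.mem_coe.mp hx)).2
            have hy' := (Finset.mem_filter.mp (Finset.mem_coe.mp hy)).2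
            exact h3 x y (hx'.1.trans hy'.1.symm) hxy
        rw [Nat.card_Ioo] at hA
        rw [Finset.card_range] at hB
        have := h1 e
        omega)
    refine ⟨f, fun e => (hf1 e (Finset.mem_univ _)).1, fun e e' hne h => ?_, fun e e' hne h => ?_⟩
    · exact hf2 e (Finset.mem_univ _) e' (Finset.mem_univ _) hne (Or.inl h)
    · exact hf2 e (Finset.mem_univ _) e' (Finset.mem_univ _) hne (Or.inr h)

end Pool.Agent.BC
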