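import Mathlib

/-!
# MP_80c395_co, project BC: distribution of the unused edges
-/

set_option autoImplicit false

open Finset

namespace Pool.Agent.BC

theorem orient {V : Type} [Fintype V] [DecidableEq V] (A : V → Finset V) (L : V → ℕ)
    (hself : ∀ v, v ∉ A v)
    (hall : ∀ B : Finset V, ∑ v ∈ B, L v ≤
      (B.biUnion fun v => (A v).image fun w => s(v, w)).card) :
    ∃ O : V → Finset V, (∀ v, O v ⊆ A v) ∧ (∀ v, (O v).card = L v) ∧
      ∀ v w, w ∈ O v → v ∉ O w := by
  classical
  let t : (Σ v : V, Fin (L v)) → Finset (Sym2 V) :=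
    fun p => (A p.1).image fun w => s(p.1, w)
  have hcond : ∀ S : Finset (Σ v : V, Fin (L v)), S.card ≤ (S.biUnion t).card := by
    intro S
    set B := S.image Sigma.fst with hB
    have h1 : S.card ≤ ∑ v ∈ B, L v := by
      calc S.card ≤ (B.sigma fun v => (Finset.univ : Finset (Fin (L v)))).card := by
            apply Finset.card_le_card
            intro p hp
            rw [Finset.mem_sigma]
            exact ⟨Finset.mem_image_of_mem _ hp, Finset.mem_univ _⟩
        _ = ∑ v ∈ B, L v := by
            rw [Finset.card_sigma]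
            simp
    have h2 : (B.biUnion fun v => (A v).image fun w => s(v, w)) ⊆ S.biUnion t := by
      intro e he
      rw [Finset.mem_biUnion] at he
      obtain ⟨v, hv, hev⟩ := he
      rw [hB, Finset.mem_image] at hv
      obtain ⟨p, hp, rfl⟩ := hv
      rw [Finset.mem_biUnion]
      exact ⟨p, hp, hev⟩
    exact h1.trans ((hall B).trans (Finset.card_le_card h2))
  obtain ⟨f, hfinj, hf⟩ :=
    (Finset.all_card_le_biUnion_card_iff_exists_injective t).1 hcond
  refine ⟨fun v => (A v).filter fun w => ∃ k : Fin (L v), f ⟨v, k⟩ = s(v, w), ?_, ?_, ?_⟩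
  · intro v
    exact Finset.filter_subset _ _
  · intro v
    have hg : ∀ k : Fin (L v), ∃ w ∈ A v, s(v, w) = f ⟨v, k⟩ := by
      intro k
      have := hf ⟨v, k⟩
      simpa [t] using this
    choose g hgA hgf using hg
    have hginj : Function.Injective g := by
      intro k k' hkk
      have h1 : f ⟨v, k⟩ = f ⟨v, k'⟩ := by rw [← hgf k, ← hgf k', hkk]
      have h2 := hfinj h1
      simpa using h2
    have himg : (A v).filter (fun w => ∃ k : Fin (L v), f ⟨v, k⟩ = s(v, w))
        = Finset.univ.image g := by
      ext w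
      rw [Finset.mem_filter, Finset.mem_image]
      constructor
      · rintro ⟨_, k, hk⟩
        refine ⟨k, Finset.mem_univ _, ?_⟩
        rw [← hgf k] at hk
        exact Sym2.congr_right.1 hk
      · rintro ⟨k, _, rfl⟩
        exact ⟨hgA k, k, (hgf k).symm⟩
    show ((A v).filter (fun w => ∃ k : Fin (L v), f ⟨v, k⟩ = s(v, w))).card = L v
    rw [himg, Finset.card_image_of_injective _ hginj]
    simp
  · intro v w hw hv
    rw [Finset.mem_filter] at hw hv
    obtain ⟨hwA, k, hk⟩ := hw
    obtain ⟨hvA, k', hk'⟩ := hv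
    have h1 : f ⟨v, k⟩ = f ⟨w, k'⟩ := by rw [hk, hk', Sym2.eq_swap]
    have h2 := hfinj h1
    have h3 : v = w := congrArg Sigma.fst h2
    subst h3
    exact hself v hvA

end Pool.Agent.BC
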