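import Mathlib

/-!
# MP_80c395_co, project BC: choice of numbers
-/

set_option autoImplicit false

open Finset

namespace Pool.Agent.BC

theorem dch {R : ℕ} (b : Fin R → ℕ) (m : ℕ) (h : m ≤ ∑ i, b i) :
    ∃ d : Fin R → ℕ, (∀ i, d i ≤ b i) ∧ ∑ i, d i = m := by
  induction m with
  | zero => exact ⟨fun _ => 0, fun i => Nat.zero_le _, by simp⟩
  | succ m ih =>
    obtain ⟨d, hd, hs⟩ := ih (by omega)
    have hlt : ∑ i, d i < ∑ i, b i := by omega
    obtain ⟨i, hi, hdi⟩ := Finset.exists_lt_of_sum_lt hlt
    refine ⟨Function.update d i (d i + 1), fun j => ?_, ?_⟩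
    · by_cases hj : j = i
      · subst hj
        simp
        omega
      · simp [Function.update_of_ne hj, hd j]
    · rw [Finset.sum_update_of_mem (Finset.mem_univ i)]
      have h2 := Finset.sum_erase_add (Finset.univ : Finset (Fin R)) d (Finset.mem_univ i)
      rw [Finset.sdiff_singleton_eq_erase]
      omega

end Pool.Agent.BC
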