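import Pool.Agent.Lib.MP_80c395_co_BC.TreeFacts

/-!
# MP_80c395_co, project BC: heavy vertices of a tree
-/

set_option autoImplicit false

open Finset

namespace Pool.Agent.BC

open Pool.Agent.Lib.MP_80c395_co

section tree
variable {X : Type} [Fintype X] [DecidableEq X] {R : ℕ} (T : SimpleGraph X) (c : Fin R → X)

/-- number of vertices which are no centres and no leaves at centres -/
theorem heavy_card (hT : T.IsTree) (hc : Function.Injective c) (hX : 2 ≤ Fintype.card X) (e : ℕ)
    (he : {ed ∈ T.edgeSet | ∀ i, c i ∉ ed}.ncard ≤ e) (hR : 1 ≤ R) (H : Finset X)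
    (hH : ∀ x ∈ H, (∀ i, c i ≠ x) ∧ ∀ i, x ∉ lf T c i) : H.card ≤ 2 * (e + R) := by
  classical
  have h1 := sum_lf T c hT hc hX e he hR
  have hU : (univ.biUnion fun i => lf T c i).card = ∑ i, (lf T c i).card := by
    apply card_biUnion
    intro i _ j _ hij
    change Disjoint (lf T c i) (lf T c j)
    rw [Finset.disjoint_left]
    intro y hi hj
    exact hij (lf_disj T c hc hi hj)
  have hd : Disjoint H (univ.biUnion fun i => lf T c i) := by
    rw [Finset.disjoint_left]
    intro y hy hy'
    rw [mem_biUnion] at hy'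
    obtain ⟨i, _, hi⟩ := hy'
    exact (hH y hy).2 i hi
  have h2 : (H ∪ univ.biUnion fun i => lf T c i).card ≤ Fintype.card X := card_le_univ _
  rw [card_union_of_disjoint hd] at h2
  omega

/-- number of their children -/
theorem heavy_sum (S : RT X) (hadj : ∀ x, x ≠ S.c → T.Adj x (S.p x)) (e : ℕ)
    (he : {ed ∈ T.edgeSet | ∀ i, c i ∉ ed}.ncard ≤ e) (H : Finset X)
    (hH : ∀ x ∈ H, ∀ i, c i ≠ x) : ∑ x ∈ H, nch S univ x ≤ e + R := by
  classical
  set A : Finset X := univ.filter fun y => y ≠ S.c ∧ S.p y ∈ H with hA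
  have h1 : A.card = ∑ x ∈ H, nch S univ x := by
    rw [card_eq_sum_card_fiberwise (f := S.p) (t := H)
      (fun y hy => by
        rw [mem_coe, hA, mem_filter] at hy
        exact hy.2.2)]
    apply sum_congr rfl
    intro x hx
    unfold nch
    congr 1
    ext y
    simp only [hA, mem_filter, mem_univ, true_and]
    constructor
    · rintro ⟨⟨h, _⟩, h'⟩
      exact ⟨h, h'⟩
    · rintro ⟨h, h'⟩
      exact ⟨⟨h, h' ▸ hx⟩, h'⟩
  have hE : ∃ E : Finset (Sym2 X), E.card ≤ e ∧
      ∀ ed, ed ∈ E ↔ ed ∈ T.edgeSet ∧ ∀ i, c i ∉ ed := by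
    refine ⟨univ.filter fun ed => ed ∈ T.edgeSet ∧ ∀ i, c i ∉ ed, ?_, fun ed => by simp⟩
    rw [← Set.ncard_coe_finset]
    convert he using 2
    ext ed
    simp
  obtain ⟨E, hEc, hEm⟩ := hE
  have hC : (univ.image c).card ≤ R := by
    calc (univ.image c).card ≤ (univ : Finset (Fin R)).card := card_image_le
      _ = R := by simp
  have h2 : (A.filter fun y => ∀ i, c i ≠ y).card ≤ E.card := by
    apply card_le_card_of_injOn (fun y => s(y, S.p y))
    · intro y hy
      rw [mem_coe, mem_filter, hA, mem_filter] at hy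
      rw [mem_coe, hEm]
      refine ⟨hadj y hy.1.2.1, fun i hi => ?_⟩
      rw [Sym2.mem_iff] at hi
      rcases hi with hi | hi
      · exact hy.2 i hi
      · exact hH _ hy.1.2.2 i hi
    · intro y hy z hz hyz
      rw [mem_coe, mem_filter, hA, mem_filter] at hy hz
      have h3 : s(y, S.p y) = s(z, S.p z) := hyz
      rw [Sym2.eq_iff] at h3
      rcases h3 with h3 | h3
      · exact h3.1
      · exfalso
        have l1 := S.lt y hy.1.2.1
        have l2 := S.lt z hz.1.2.1
        rw [h3.2] at l1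
        rw [← h3.1] at l2
        omega
  have h3 : A ⊆ (A.filter fun y => ∀ i, c i ≠ y) ∪ univ.image c := by
    intro y hy
    by_cases hyc : ∃ i, c i = y
    · obtain ⟨i, hi⟩ := hyc
      exact mem_union_right _ (mem_image.mpr ⟨i, mem_univ _, hi⟩)
    · push Not at hyc
      exact mem_union_left _ (mem_filter.mpr ⟨hy, hyc⟩)
  have h4 := card_le_card h3
  have h5 := card_union_le (A.filter fun y => ∀ i, c i ≠ y) (univ.image c)
  omega

end tree

end Pool.Agent.BC
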