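import Pool.Agent.Lib.MP_80c395_co_BC.Defs

/-!
# MP_80c395_co, project BC: leaves at centres and degrees
-/

set_option autoImplicit false

open Finset

namespace Pool.Agent.BC

open Pool.Agent.Lib.MP_80c395_co

section tree
variable {X : Type} [Fintype X] [DecidableEq X] {R : ℕ} (T : SimpleGraph X) (c : Fin R → X)

private theorem mem_lf' {i : Fin R} {y : X} :
    y ∈ lf T c i ↔ (∀ j, c j ≠ y) ∧ ∀ w, T.Adj y w ↔ w = c i := by
  classical
  unfold lf
  rw [mem_filter]
  exact ⟨fun h => h.2, fun h => ⟨mem_univ _, h⟩⟩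

theorem lf_disj (hc : Function.Injective c) {i j : Fin R} {y : X} (hi : y ∈ lf T c i)
    (hj : y ∈ lf T c j) : i = j := by
  rw [mem_lf'] at hi hj
  exact hc ((hj.2 _).mp ((hi.2 _).mpr rfl))

/-- the edges without a centre -/
private theorem ncard_E (e : ℕ) (he : {ed ∈ T.edgeSet | ∀ i, c i ∉ ed}.ncard ≤ e) :
    ∃ E : Finset (Sym2 X), E.card ≤ e ∧ ∀ ed, ed ∈ E ↔ ed ∈ T.edgeSet ∧ ∀ i, c i ∉ ed := by
  classical
  refine ⟨univ.filter fun ed => ed ∈ T.edgeSet ∧ ∀ i, c i ∉ ed, ?_, fun ed => by simp⟩
  rw [← Set.ncard_coe_finset]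
  convert he using 2
  ext ed
  simp

open Classical in
/-- few vertices are in no `lf` -/
private theorem card_O (hT : T.IsTree) (hX : 2 ≤ Fintype.card X) (e : ℕ)
    (he : {ed ∈ T.edgeSet | ∀ i, c i ∉ ed}.ncard ≤ e) (hR : 1 ≤ R) :
    (univ.filter fun y => ∀ i, y ∉ lf T c i).card ≤ 2 * R + 2 * e := by
  obtain ⟨S, hS, -, h2, -⟩ := exists_RT T hT (c ⟨0, hR⟩)
  obtain ⟨E, hEc, hE⟩ := ncard_E T c e he
  have hC : (univ.image c).card ≤ R := by
    calc (univ.image c).card ≤ (univ : Finset (Fin R)).card := card_image_le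
      _ = R := by simp
  have hP : ((univ.image c).image S.p).card ≤ R := card_image_le.trans hC
  have hO1 : (E.biUnion fun ed => ed.toFinset).card ≤ 2 * e := by
    calc (E.biUnion fun ed => ed.toFinset).card ≤ E.card * 2 := by
          apply card_biUnion_le_card_mul
          intro ed _
          rw [Sym2.card_toFinset]
          split_ifs <;> omega
      _ ≤ 2 * e := by omega
  have hsub : (univ.filter fun y => ∀ i, y ∉ lf T c i) ⊆
      univ.image c ∪ (E.biUnion fun ed => ed.toFinset) ∪ (univ.image c).image S.p := by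
    intro y hy
    rw [mem_filter] at hy
    by_cases hyc : ∃ i, c i = y
    · obtain ⟨i, hi⟩ := hyc
      exact mem_union_left _ (mem_union_left _ (mem_image.mpr ⟨i, mem_univ _, hi⟩))
    push Not at hyc
    by_cases hnc : ∀ w, T.Adj y w → ∃ i, c i = w
    · -- all neighbours are centres
      apply mem_union_right
      have : Nontrivial X := Fintype.one_lt_card_iff_nontrivial.mp (by omega)
      obtain ⟨w, hw⟩ := hT.connected.preconnected.exists_adj_of_nontrivial y
      obtain ⟨j, hj⟩ := hnc w hw
      have hnot := hy.2 j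
      rw [mem_lf'] at hnot
      have hex : ∃ w', T.Adj y w' ∧ w' ≠ c j := by
        by_contra hno
        push Not at hno
        apply hnot
        refine ⟨hyc, fun w' => ⟨fun h => hno w' h, ?_⟩⟩
        rintro rfl
        rw [hj]
        exact hw
      obtain ⟨w', hw', hne⟩ := hex
      obtain ⟨k, hk⟩ := hnc w' hw'
      rw [hj] at hne
      rcases h2 y w hw with h | h
      · rcases h2 y w' hw' with h' | h'
        · exact absurd (h'.2.symm.trans h.2) hne
        · rw [mem_image]
          exact ⟨w', mem_image.mpr ⟨k, mem_univ _, hk⟩, h'.2⟩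
      · rw [mem_image]
        exact ⟨w, mem_image.mpr ⟨j, mem_univ _, hj⟩, h.2⟩
    · push Not at hnc
      obtain ⟨w, hw, hwc⟩ := hnc
      apply mem_union_left
      apply mem_union_right
      rw [mem_biUnion]
      refine ⟨s(y, w), ?_, ?_⟩
      · rw [hE]
        refine ⟨hw, fun i hi => ?_⟩
        rw [Sym2.mem_iff] at hi
        rcases hi with hi | hi
        · exact hyc i hi
        · exact hwc i hi
      · rw [Sym2.mem_toFinset]
        exact Sym2.mem_mk_left _ _
  have h3 := card_le_card hsub
  have h4 := card_union_le (univ.image c ∪ (E.biUnion fun ed => ed.toFinset))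
    ((univ.image c).image S.p)
  have h5 := card_union_le (univ.image c) (E.biUnion fun ed => ed.toFinset)
  omega

/-- almost all vertices are leaves at centres -/
theorem sum_lf (hT : T.IsTree) (hc : Function.Injective c) (hX : 2 ≤ Fintype.card X) (e : ℕ)
    (he : {ed ∈ T.edgeSet | ∀ i, c i ∉ ed}.ncard ≤ e) (hR : 1 ≤ R) :
    Fintype.card X ≤ ∑ i, (lf T c i).card + 2 * R + 2 * e := by
  classical
  have hO := card_O T c hT hX e he hR
  have hU : (univ.biUnion fun i => lf T c i).card = ∑ i, (lf T c i).card := by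
    apply card_biUnion
    intro i _ j _ hij
    change Disjoint (lf T c i) (lf T c j)
    rw [Finset.disjoint_left]
    intro y hi hj
    exact hij (lf_disj T c hc hi hj)
  have hsub : (univ : Finset X) ⊆ (univ.biUnion fun i => lf T c i) ∪
      univ.filter fun y => ∀ i, y ∉ lf T c i := by
    intro y _
    by_cases hy : ∃ i, y ∈ lf T c i
    · obtain ⟨i, hi⟩ := hy
      exact mem_union_left _ (mem_biUnion.mpr ⟨i, mem_univ _, hi⟩)
    · push Not at hy
      exact mem_union_right _ (mem_filter.mpr ⟨mem_univ _, hy⟩)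
  have h1 := card_le_card hsub
  have h2 := card_union_le (univ.biUnion fun i => lf T c i)
    (univ.filter fun y => ∀ i, y ∉ lf T c i)
  rw [card_univ] at h1
  omega

/-- degrees of non-centres -/
theorem deg_nc (e : ℕ) (he : {ed ∈ T.edgeSet | ∀ i, c i ∉ ed}.ncard ≤ e)
    {x : X} (hx : ∀ i, c i ≠ x) : (T.neighborSet x).ncard ≤ e + R := by
  classical
  obtain ⟨E, hEc, hE⟩ := ncard_E T c e he
  have hC : (univ.image c).card ≤ R := by
    calc (univ.image c).card ≤ (univ : Finset (Fin R)).card := card_image_le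
      _ = R := by simp
  set A : Finset X := univ.filter fun y => T.Adj x y ∧ ∀ i, c i ≠ y with hA
  have hAc : A.card ≤ E.card := by
    apply card_le_card_of_injOn (fun y => s(x, y))
    · intro y hy
      rw [mem_coe, hA, mem_filter] at hy
      rw [mem_coe, hE]
      refine ⟨hy.2.1, fun i hi => ?_⟩
      rw [Sym2.mem_iff] at hi
      rcases hi with hi | hi
      · exact hx i hi
      · exact hy.2.2 i hi
    · intro y _ z _ hyz
      exact Sym2.congr_right.mp hyz
  have hN : T.neighborSet x ⊆ ((A ∪ univ.image c : Finset X) : Set X) := by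
    intro y hy
    rw [SimpleGraph.mem_neighborSet] at hy
    rw [mem_coe]
    by_cases hyc : ∃ i, c i = y
    · obtain ⟨i, hi⟩ := hyc
      exact mem_union_right _ (mem_image.mpr ⟨i, mem_univ _, hi⟩)
    · push Not at hyc
      exact mem_union_left _ (mem_filter.mpr ⟨mem_univ _, hy, hyc⟩)
  have h1 := Set.ncard_le_ncard hN (Finset.finite_toSet _)
  rw [Set.ncard_coe_finset] at h1
  have h2 := card_union_le A (univ.image c)
  omega

/-- degrees of centres -/
theorem deg_c (hT : T.IsTree) (hc : Function.Injective c) (hX : 2 ≤ Fintype.card X) (e : ℕ)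
    (he : {ed ∈ T.edgeSet | ∀ i, c i ∉ ed}.ncard ≤ e) (hR : 1 ≤ R) (i : Fin R) :
    (T.neighborSet (c i)).ncard ≤ (lf T c i).card + 2 * R + 2 * e := by
  classical
  have hO := card_O T c hT hX e he hR
  have hN : T.neighborSet (c i) ⊆
      ((lf T c i ∪ univ.filter fun y => ∀ i, y ∉ lf T c i : Finset X) : Set X) := by
    intro y hy
    rw [SimpleGraph.mem_neighborSet] at hy
    rw [mem_coe]
    by_cases h : ∃ j, y ∈ lf T c j
    · obtain ⟨j, hj⟩ := h
      have h1 := (((mem_lf' T c).mp hj).2 (c i)).mp hy.symm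
      have h2 : i = j := hc h1
      subst h2
      exact mem_union_left _ hj
    · push Not at h
      exact mem_union_right _ (mem_filter.mpr ⟨mem_univ _, h⟩)
  have h1 := Set.ncard_le_ncard hN (Finset.finite_toSet _)
  rw [Set.ncard_coe_finset] at h1
  have h2 := card_union_le (lf T c i) (univ.filter fun y => ∀ i, y ∉ lf T c i)
  omega

end tree

end Pool.Agent.BC
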