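import Pool.Agent.Lib.MP_80c395_co_BC.Defs2
import Pool.Agent.Lib.MP_80c395_co_BC.Classes
import Pool.Agent.Lib.MP_80c395_co_BC.TreeFacts
import Pool.Agent.Lib.MP_80c395_co_BC.Heavy
import Pool.Agent.Lib.MP_80c395_co_BC.Dch

/-!
# MP_80c395_co, project BC: existence of the data, quantitative version
-/

set_option autoImplicit false

open Finset

namespace Pool.Agent.BC

open Pool.Agent.Lib.MP_80c395_co

/-- children are neighbours -/
private theorem xe_nch {X : Type} [Fintype X] [DecidableEq X] (S : RT X) (T : SimpleGraph X)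
    (h : ∀ x, x ≠ S.c → T.Adj x (S.p x)) (x : X) :
    nch S univ x ≤ (T.neighborSet x).ncard := by
  unfold nch
  rw [← Set.ncard_coe_finset]
  apply Set.ncard_le_ncard _ (Set.toFinite _)
  intro y hy
  rw [Finset.mem_coe, mem_filter] at hy
  rw [SimpleGraph.mem_neighborSet]
  have := h y hy.2.1
  rw [hy.2.2] at this
  exact this.symm

private theorem xe_mem {X : Type} [Fintype X] [DecidableEq X] {R : ℕ} {T : SimpleGraph X}
    {c : Fin R → X} {i : Fin R} {y : X} (h : y ∈ lf T c i) :
    (∀ j, c j ≠ y) ∧ ∀ w, T.Adj y w ↔ w = c i := by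
  classical
  unfold lf at h
  exact (mem_filter.1 h).2

/-- the numbers -/
private theorem xe_num {n K q : ℕ} (hK : 0 < K) (hq : q = n / K)
    (hqpos : 1 ≤ q) {l : ℕ} (hl : l ≤ n + 1) : l / q < 2 * K + 1 := by
  have h1 : n < K * (n / K + 1) := Nat.lt_mul_div_succ n hK
  rw [← hq] at h1
  have h2 : l ≤ q * (2 * K) := by
    have h3 : K * 1 ≤ K * q := Nat.mul_le_mul_left K hqpos
    have h4 : K * (q + 1) = K * q + K := by ring
    have h5 : q * (2 * K) = K * q + K * q := by ring
    omega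
  have := Nat.div_le_of_le_mul h2
  omega

private theorem xe_b {q l : ℕ} (hq : 1 ≤ q) : l + 1 ≤ (l / q - 1) * q + 2 * q := by
  have h1 : l < q * (l / q + 1) := Nat.lt_mul_div_succ l (by omega)
  rcases Nat.eq_zero_or_pos (l / q) with h0 | h0
  · rw [h0] at h1 ⊢
    simp at h1 ⊢
    omega
  · obtain ⟨t, ht⟩ := Nat.exists_eq_succ_of_ne_zero (Nat.pos_iff_ne_zero.1 h0)
    rw [ht] at h1 ⊢
    simp only [Nat.succ_eq_add_one, Nat.add_sub_cancel] at h1 ⊢
    have : q * (t + 1 + 1) = t * q + 2 * q := by ring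
    omega

/-- the choice of the active centre and of the removed leaves for one tree -/
private theorem xe_choice {X : Type} [Fintype X] [DecidableEq X] {R : ℕ} (hR : 1 ≤ R)
    (L : Fin R → Finset X) (D : Fin R → ℕ) (P : Prop)
    (hD : P → (∀ i, D i ≤ (L i).card) ∧ 0 < ∑ i, D i) (hL : 0 < ∑ i, (L i).card) :
    ∃ (i0 : Fin R) (rem : Fin R → Finset X), (∀ i, rem i ⊆ L i) ∧ (rem i0).Nonempty ∧
      (P → ∀ i, (rem i).card = D i) ∧
      (¬ P → rem i0 = L i0 ∧ (∀ i, i ≠ i0 → rem i = ∅) ∧ ∀ i, (L i).card ≤ (L i0).card) := by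
  by_cases hP : P
  · obtain ⟨h1, h2⟩ := hD hP
    have h3 : ∀ i, ∃ t ⊆ L i, t.card = D i := fun i => Finset.exists_subset_card_eq (h1 i)
    choose rem hs hc using h3
    obtain ⟨i0, -, hi0⟩ : ∃ i ∈ (univ : Finset (Fin R)), D i ≠ 0 :=
      Finset.exists_ne_zero_of_sum_ne_zero (by omega)
    refine ⟨i0, rem, hs, ?_, fun _ => hc, fun h => absurd hP h⟩
    rw [← Finset.card_pos, hc]
    omega
  · have hne : (univ : Finset (Fin R)).Nonempty := ⟨⟨0, by omega⟩, mem_univ _⟩
    obtain ⟨i0, -, hi0⟩ := Finset.exists_max_image univ (fun i => (L i).card) hne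
    refine ⟨i0, fun i => if i = i0 then L i0 else ∅, ?_, ?_, fun h => absurd h hP, fun _ => ?_⟩
    · intro i
      dsimp only
      split_ifs with h
      · rw [h]
      · exact Finset.empty_subset _
    · simp only [if_true]
      rw [← Finset.card_pos]
      by_contra h0
      have : ∑ i, (L i).card = 0 := by
        apply Finset.sum_eq_zero
        intro i _
        have := hi0 i (mem_univ i)
        omega
      omega
    · refine ⟨by simp, fun i hi => by simp [hi], fun i => hi0 i (mem_univ i)⟩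

theorem exists_dat2 {V X : Type} [Fintype V] [DecidableEq V] [Fintype X] [DecidableEq X] {R : ℕ}
    (n K q p0 e : ℕ) (hR : 1 ≤ R) (hV : Fintype.card V = 2 * n + 1)
    (hX : Fintype.card X = n + 1) (hK : 0 < K) (hq : q = n / K) (hqR : R ≤ q)
    (hn : 100 * (2 * R * q + 2 * R + 2 * e + 2) ≤ n)
    (hp0 : R * ((2 * K + 1) ^ R * 9 ^ (R + 1)) ≤ p0)
    (T : V → SimpleGraph X) (hT : ∀ v, (T v).IsTree) (c : V → Fin R → X)
    (hc : ∀ v, Function.Injective (c v))
    (he : ∀ v, {ed ∈ (T v).edgeSet | ∀ i, c v i ∉ ed}.ncard ≤ e) :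
    ∃ (S : V → RT X) (lv rem : V → Fin R → Finset X) (i0 : V → Fin R) (U : Finset V)
      (π : Equiv.Perm V), Dat2 n (2 * R * q + 2 * R + 2 * e) p0 e S c lv rem i0 U π ∧
      ∀ v a b, (T v).Adj a b → adjc (S v) a b := by
  classical
  have hqpos : 1 ≤ q := by omega
  obtain ⟨κ, hκ⟩ : ∃ κ, κ = 2 * R * q + 2 * R + 2 * e := ⟨_, rfl⟩
  obtain ⟨Q, hQ⟩ : ∃ Q, Q = R * q := ⟨_, rfl⟩
  have hκQ : κ = 2 * Q + 2 * R + 2 * e := by
    rw [hκ, hQ]
    ring
  have hn' : 100 * (κ + 2) ≤ n := by
    rw [hκ]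
    exact hn
  rw [← hκ]
  have hX2 : 2 ≤ Fintype.card X := by omega
  have hell : ∀ v i, (lf (T v) (c v) i).card ≤ n + 1 := fun v i => by
    rw [← hX]; exact Finset.card_le_univ _
  have hsum : ∀ v, n + 1 ≤ ∑ i, (lf (T v) (c v) i).card + 2 * R + 2 * e := fun v => by
    have := sum_lf (T v) (c v) (hT v) (hc v) hX2 e (he v) hR
    omega
  -- the classes
  let a : V → Fin R → Fin (2 * K + 1) := fun v i =>
    ⟨(lf (T v) (c v) i).card / q, xe_num hK hq hqpos (hell v i)⟩
  have ha : ∀ v i, ((a v i : Fin (2 * K + 1)) : ℕ) = (lf (T v) (c v) i).card / q :=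
    fun v i => rfl
  obtain ⟨U, π, hcyc, hcl, hUc⟩ := exists_cyc a (9 ^ (R + 1))
  have hcard : Fintype.card (Fin R → Fin (2 * K + 1)) = (2 * K + 1) ^ R := by simp
  rw [hcard] at hUc
  -- the numbers of removed leaves
  have hDex : ∀ a' : Fin R → Fin (2 * K + 1), ∃ d : Fin R → ℕ,
      n - κ ≤ ∑ i, ((a' i : ℕ) - 1) * q →
        (∀ i, d i ≤ ((a' i : ℕ) - 1) * q) ∧ ∑ i, d i = n - κ := by
    intro a'
    by_cases h : n - κ ≤ ∑ i, ((a' i : ℕ) - 1) * q
    · obtain ⟨d, hd⟩ := dch (fun i => ((a' i : ℕ) - 1) * q) _ h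
      exact ⟨d, fun _ => hd⟩
    · exact ⟨fun _ => 0, fun h' => absurd h' h⟩
  choose D hD using hDex
  have hDv : ∀ v, (∀ i, D (a v) i ≤ ((a v i : ℕ) - 1) * q) ∧
      ∑ i, D (a v) i = n - κ := by
    intro v
    apply hD
    have h1 : ∑ i : Fin R, ((lf (T v) (c v) i).card + 1) ≤
        ∑ i : Fin R, (((a v i : ℕ) - 1) * q + 2 * q) := by
      apply Finset.sum_le_sum
      intro i _
      rw [ha]
      exact xe_b hqpos
    rw [Finset.sum_add_distrib, Finset.sum_add_distrib] at h1
    simp only [Finset.sum_const, Finset.card_univ, Fintype.card_fin, smul_eq_mul, mul_one] at h1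
    have h2 := hsum v
    have h3 : R * (2 * q) = 2 * Q := by
      rw [hQ]
      ring
    omega
  have hDl : ∀ v i, D (a v) i ≤ (lf (T v) (c v) i).card := by
    intro v i
    refine ((hDv v).1 i).trans ?_
    rw [ha]
    calc ((lf (T v) (c v) i).card / q - 1) * q ≤ (lf (T v) (c v) i).card / q * q :=
          Nat.mul_le_mul_right q (Nat.sub_le _ _)
      _ ≤ (lf (T v) (c v) i).card := Nat.div_mul_le_self _ _
  have hch : ∀ v, ∃ (i0 : Fin R) (rem : Fin R → Finset X),
      (∀ i, rem i ⊆ lf (T v) (c v) i) ∧ (rem i0).Nonempty ∧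
      (v ∈ U → ∀ i, (rem i).card = D (a v) i) ∧
      (v ∉ U → rem i0 = lf (T v) (c v) i0 ∧ (∀ i, i ≠ i0 → rem i = ∅) ∧
        ∀ i, (lf (T v) (c v) i).card ≤ (lf (T v) (c v) i0).card) := by
    intro v
    apply xe_choice hR (fun i => lf (T v) (c v) i) (D (a v)) (v ∈ U)
    · intro _
      refine ⟨hDl v, ?_⟩
      rw [(hDv v).2]
      omega
    · have := hsum v
      omega
  choose i0 rem hsub hne hremU hremE using hch
  have hS : ∀ v, ∃ S : RT X, S.c = c v (i0 v) ∧ (∀ x, x ≠ c v (i0 v) → (T v).Adj x (S.p x)) ∧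
      ∀ x y, (T v).Adj x y → (x ≠ c v (i0 v) ∧ S.p x = y) ∨ (y ≠ c v (i0 v) ∧ S.p y = x) := by
    intro v
    obtain ⟨S, h1, h2, h3, -⟩ := exists_RT (T v) (hT v) (c v (i0 v))
    exact ⟨S, h1, h2, h3⟩
  choose S hSc hSp hSe using hS
  have hSp' : ∀ v x, x ≠ (S v).c → (T v).Adj x ((S v).p x) := fun v x hx =>
    hSp v x (by rw [← hSc v]; exact hx)
  have hlvp : ∀ v i x, x ∈ lf (T v) (c v) i → (S v).p x = c v i := by
    intro v i x hx
    obtain ⟨h1, h2⟩ := xe_mem hx
    have hx0 : x ≠ (S v).c := by rw [hSc v]; exact fun h => h1 (i0 v) h.symm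
    exact (h2 _).1 (hSp' v x hx0)
  refine ⟨S, fun v i => lf (T v) (c v) i, rem, i0, U, π, ?_, ?_⟩
  · refine
      { cV := hV
        cX := hX
        cyc := hcyc
        cU := (Nat.mul_le_mul_left R hUc).trans hp0
        cinj := hc
        root := hSc
        lv_nc := fun v i x hx => (xe_mem hx).1
        lv_p := hlvp
        lv_ch := ?_
        sub := hsub
        act := hne
        rpi := ?_
        tot := ?_
        spare := ?_
        exc0 := fun v hv => (hremE v hv).1
        exc1 := fun v hv => (hremE v hv).2.1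
        big := ?_
        nchn := ?_
        nchc := ?_
        hvy := ?_ }
    · intro v i x hx y hy hyx
      obtain ⟨h1, h2⟩ := xe_mem hx
      have hx0 : x ≠ (S v).c := by rw [hSc v]; exact fun h => h1 (i0 v) h.symm
      have h3 := hSp' v y hy
      rw [hyx] at h3
      have h4 : y = c v i := (h2 y).1 h3.symm
      have h5 := (S v).lt y hy
      have h6 := (S v).lt x hx0
      rw [hyx] at h5
      rw [hlvp v i x hx, ← h4] at h6
      omega
    · intro v hv i
      rw [hremU (π v) ((hcyc.inv v).2 hv) i, hremU v hv i, hcl v hv]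
    · intro v hv
      rw [Finset.sum_congr rfl (fun i _ => hremU v hv i), (hDv v).2]
      omega
    · intro v hv i hi
      have h1 : 0 < D (a v) i := by
        rw [← hremU v hv i]; exact Finset.card_pos.2 hi
      have h2 := (hDv v).1 i
      have h3 : (lf (T v) (c v) i).card / q * q ≤ (lf (T v) (c v) i).card :=
        Nat.div_mul_le_self _ _
      rw [ha] at h2
      rw [Finset.card_sdiff_of_subset (hsub v i), hremU v hv i]
      have h4 : (lf (T v) (c v) i).card / q - 1 ≠ 0 := by
        intro h0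
        rw [h0, zero_mul] at h2
        omega
      have h5 : ((lf (T v) (c v) i).card / q - 1) * q + q = (lf (T v) (c v) i).card / q * q := by
        obtain ⟨t, ht⟩ : ∃ t, (lf (T v) (c v) i).card / q = t + 1 :=
          ⟨(lf (T v) (c v) i).card / q - 1, by omega⟩
        rw [ht, Nat.add_sub_cancel]
        ring
      omega
    · intro v hv
      have h1 : ∑ i, (lf (T v) (c v) i).card ≤ ∑ _i : Fin R, (lf (T v) (c v) (i0 v)).card :=
        Finset.sum_le_sum fun i _ => (hremE v hv).2.2 i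
      rw [Finset.sum_const, Finset.card_univ, Fintype.card_fin, smul_eq_mul] at h1
      have h2 := hsum v
      have h3 : 2 * R * (lf (T v) (c v) (i0 v)).card = 2 * (R * (lf (T v) (c v) (i0 v)).card) := by
        ring
      rw [h3]
      omega
    · intro v x hx
      exact (xe_nch (S v) (T v) (hSp' v) x).trans (deg_nc (T v) (c v) e (he v) hx)
    · intro v hv i hi
      have h1 := (xe_nch (S v) (T v) (hSp' v) (c v i)).trans
        (deg_c (T v) (c v) (hT v) (hc v) hX2 e (he v) hR i)
      have h2 := (hremE v hv).2.2 i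
      have hdisj : Disjoint (lf (T v) (c v) i) (lf (T v) (c v) (i0 v)) := by
        rw [Finset.disjoint_left]
        intro y hy hy'
        exact hi (lf_disj (T v) (c v) (hc v) hy hy')
      have h3 : (lf (T v) (c v) i).card + (lf (T v) (c v) (i0 v)).card ≤ n + 1 := by
        rw [← Finset.card_union_of_disjoint hdisj, ← hX]
        exact Finset.card_le_univ _
      omega
    · intro v
      rw [Finset.sum_add_distrib, Finset.sum_const, smul_eq_mul, mul_one]
      have hmem : ∀ x ∈ hvs c (fun v i => lf (T v) (c v) i) v,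
          (∀ i, c v i ≠ x) ∧ ∀ i, x ∉ lf (T v) (c v) i := by
        intro x hx
        unfold hvs at hx
        exact (mem_filter.1 hx).2
      have h1 := heavy_card (T v) (c v) (hT v) (hc v) hX2 e (he v) hR
        (hvs c (fun v i => lf (T v) (c v) i) v) hmem
      have h2 := heavy_sum (T v) (c v) (S v) (hSp' v) e (he v)
        (hvs c (fun v i => lf (T v) (c v) i) v) fun x hx => (hmem x hx).1
      omega
  · intro v x y hxy
    have := hSe v x y hxy
    rw [← hSc v] at this
    exact this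

end Pool.Agent.BC
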