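import Pool.Agent.Lib.MP_80c395_co_BC.Defs

/-!
# MP_80c395_co, project BC: simple facts on the data
-/

set_option autoImplicit false

open Finset

namespace Pool.Agent.BC

open Pool.Agent.Lib.MP_80c395_co

section dat
variable {V X : Type} [Fintype V] [DecidableEq V] [Fintype X] [DecidableEq X] {R : ℕ}
  {n κ p0 e : ℕ} {S : V → RT X} {c : V → Fin R → X} {lv rem : V → Fin R → Finset X}
  {i0 : V → Fin R} {U : Finset V} {π : Equiv.Perm V} {P : V → Finset X} {ρ : V → X → V}
  {l : V → Fin R → Fin R → X}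

theorem inv_zpow (D : Dat n κ p0 e S c lv rem i0 U π) {v : V} (hv : v ∈ U) (k : ℤ) :
    (π ^ k) v ∈ U := by
  induction k using Int.induction_on with
  | zero => simpa using hv
  | succ i ih =>
    have h : (π ^ ((i : ℤ) + 1)) v = π ((π ^ (i : ℤ)) v) := by
      rw [add_comm, zpow_add, zpow_one, Equiv.Perm.mul_apply]
    rw [h]
    exact (D.cyc.inv _).2 ih
  | pred i ih =>
    have h : (π ^ (-(i : ℤ))) v = π ((π ^ (-(i : ℤ) - 1)) v) := by
      have e1 : (-(i : ℤ)) = 1 + (-(i : ℤ) - 1) := by ring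
      conv_lhs => rw [e1]
      rw [zpow_add, zpow_one, Equiv.Perm.mul_apply]
    rw [h] at ih
    exact (D.cyc.inv _).1 ih

theorem rem_zpow (D : Dat n κ p0 e S c lv rem i0 U π) {v : V} (hv : v ∈ U) (k : ℤ)
    (i : Fin R) : (rem ((π ^ k) v) i).card = (rem v i).card := by
  induction k using Int.induction_on with
  | zero => simp
  | succ j ih =>
    have h : (π ^ ((j : ℤ) + 1)) v = π ((π ^ (j : ℤ)) v) := by
      rw [add_comm, zpow_add, zpow_one, Equiv.Perm.mul_apply]
    rw [h, D.rpi _ (inv_zpow D hv _), ih]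
  | pred j ih =>
    have h : (π ^ (-(j : ℤ))) v = π ((π ^ (-(j : ℤ) - 1)) v) := by
      have e1 : (-(j : ℤ)) = 1 + (-(j : ℤ) - 1) := by ring
      conv_lhs => rw [e1]
      rw [zpow_add, zpow_one, Equiv.Perm.mul_apply]
    rw [h, D.rpi _ (inv_zpow D hv _)] at ih
    exact ih

theorem c_mem_xe (D : Dat n κ p0 e S c lv rem i0 U π) (v : V) (i : Fin R) :
    c v i ∈ xe rem v := by
  unfold xe
  rw [Finset.mem_filter]
  refine ⟨Finset.mem_univ _, fun j hj => ?_⟩
  exact D.lv_nc v j _ (D.sub v j hj) i rfl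

theorem lv_disj (D : Dat n κ p0 e S c lv rem i0 U π) {v : V} {i j : Fin R} {x : X}
    (hi : x ∈ lv v i) (hj : x ∈ lv v j) : i = j :=
  D.cinj v ((D.lv_p v i x hi).symm.trans (D.lv_p v j x hj))

theorem clo_xe (D : Dat n κ p0 e S c lv rem i0 U π) (v : V) : Clo (S v) (xe rem v) := by
  refine ⟨?_, fun x hx hxc => ?_⟩
  · rw [D.root v]
    exact c_mem_xe D v (i0 v)
  · unfold xe
    rw [Finset.mem_filter]
    refine ⟨Finset.mem_univ _, fun j hj => ?_⟩
    exact D.lv_ch v j _ (D.sub v j hj) x hxc rfl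

theorem card_xe (D : Dat n κ p0 e S c lv rem i0 U π) (v : V) :
    (xe rem v).card + ∑ i, (rem v i).card = n + 1 := by
  have hd : ∀ i ∈ (Finset.univ : Finset (Fin R)), ∀ j ∈ (Finset.univ : Finset (Fin R)), i ≠ j →
      Disjoint (rem v i) (rem v j) := by
    intro i _ j _ hij
    rw [Finset.disjoint_left]
    intro x hx hy
    exact hij (lv_disj D (D.sub v i hx) (D.sub v j hy))
  have h1 : ((Finset.univ : Finset (Fin R)).biUnion (rem v)).card = ∑ i, (rem v i).card :=
    Finset.card_biUnion hd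
  have h2 : xe rem v = ((Finset.univ : Finset (Fin R)).biUnion (rem v))ᶜ := by
    ext x
    unfold xe
    simp
  rw [← h1, h2, ← D.cX, add_comm, Finset.card_add_card_compl]

theorem sum_rem_exc (D : Dat n κ p0 e S c lv rem i0 U π) {v : V} (hv : v ∉ U) :
    ∑ i, (rem v i).card = (lv v (i0 v)).card := by
  rw [← D.exc0 v hv]
  refine Finset.sum_eq_single (i0 v) (fun i _ hi => ?_) (fun h => absurd (Finset.mem_univ _) h)
  rw [D.exc1 v hv i hi, Finset.card_empty]

end dat

end Pool.Agent.BC
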