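import Pool.Agent.Lib.MP_80c395_co_BC.Defs

/-!
# MP_80c395_co, project BC: degrees of embedded trees
-/

set_option autoImplicit false

open Finset

namespace Pool.Agent.BC

open Pool.Agent.Lib.MP_80c395_co

section deg
variable {V X : Type} [Fintype V] [DecidableEq V] [Fintype X] [DecidableEq X]

private theorem mem_edg {S : RT X} {Xe : Finset X} {φ : X → V} {e : Sym2 V} :
    e ∈ edg S Xe φ ↔ ∃ x, x ≠ S.c ∧ x ∈ Xe ∧ s(φ (S.p x), φ x) = e := by
  unfold edg
  rw [mem_image]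
  constructor
  · rintro ⟨x, hx, h⟩
    rw [mem_erase] at hx
    exact ⟨x, hx.1, hx.2, h⟩
  · rintro ⟨x, h1, h2, h⟩
    exact ⟨x, mem_erase.mpr ⟨h1, h2⟩, h⟩

theorem edg_inj {S : RT X} {Xe : Finset X} {φ : X → V} (hclo : Clo S Xe)
    (hinj : Set.InjOn φ Xe) {x y : X} (hx : x ∈ Xe) (hxc : x ≠ S.c) (hy : y ∈ Xe)
    (hyc : y ≠ S.c) (h : s(φ (S.p x), φ x) = s(φ (S.p y), φ y)) : x = y := by
  rw [Sym2.eq_iff] at h
  rcases h with ⟨_, h2⟩ | ⟨h1, h2⟩
  · exact hinj hx hy h2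
  · exfalso
    have e1 : S.p x = y := hinj (hclo.2 x hx hxc) hy h1
    have e2 : x = S.p y := hinj hx (hclo.2 y hy hyc) h2
    have l1 := S.lt x hxc
    have l2 := S.lt y hyc
    rw [e1] at l1
    rw [← e2] at l2
    omega

theorem card_edg {S : RT X} {Xe : Finset X} {φ : X → V} (hclo : Clo S Xe)
    (hinj : Set.InjOn φ Xe) : (edg S Xe φ).card + 1 = Xe.card := by
  unfold edg
  rw [card_image_of_injOn, card_erase_add_one hclo.1]
  intro x hx y hy h
  rw [mem_coe, mem_erase] at hx hy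
  exact edg_inj hclo hinj hx.2 hx.1 hy.2 hy.1 h

theorem edg_not_diag {S : RT X} {Xe : Finset X} {φ : X → V} (hclo : Clo S Xe)
    (hinj : Set.InjOn φ Xe) : ∀ ed ∈ edg S Xe φ, ¬ ed.IsDiag := by
  intro ed hed
  obtain ⟨x, hxc, hx, rfl⟩ := mem_edg.mp hed
  rw [Sym2.mk_isDiag_iff]
  intro h
  exact RT.p_ne hxc (hinj (hclo.2 x hx hxc) hx h)

theorem dgr_le_card {E : Finset (Sym2 V)} (y : V) : dgr E y ≤ E.card := by
  unfold dgr
  apply card_le_card_of_injOn (fun w => s(y, w))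
  · intro w hw
    exact (mem_filter.mp hw).2
  · intro w _ w' _ h
    have h' : s(y, w) = s(y, w') := h
    exact Sym2.congr_right.mp h'

theorem dgr_union (E F : Finset (Sym2 V)) (y : V) : dgr (E ∪ F) y ≤ dgr E y + dgr F y := by
  unfold dgr
  refine le_trans (card_le_card ?_) (card_union_le _ _)
  intro w hw
  rw [mem_filter, mem_union] at hw
  rw [mem_union, mem_filter, mem_filter]
  rcases hw.2 with h | h
  · exact Or.inl ⟨mem_univ _, h⟩
  · exact Or.inr ⟨mem_univ _, h⟩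

theorem dgr_biUnion (E : V → Finset (Sym2 V)) (Q : Finset V) (y : V) :
    dgr (Q.biUnion E) y ≤ ∑ v ∈ Q, dgr (E v) y := by
  unfold dgr
  refine le_trans (card_le_card ?_)
    (card_biUnion_le (s := Q) (t := fun v => univ.filter fun w => s(y, w) ∈ E v))
  intro w hw
  rw [mem_filter, mem_biUnion] at hw
  obtain ⟨v, hv, h⟩ := hw.2
  rw [mem_biUnion]
  exact ⟨v, hv, mem_filter.mpr ⟨mem_univ _, h⟩⟩

theorem dgr_mono {E F : Finset (Sym2 V)} (h : E ⊆ F) (y : V) : dgr E y ≤ dgr F y := by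
  unfold dgr
  apply card_le_card
  intro w hw
  rw [mem_filter] at hw ⊢
  exact ⟨hw.1, h hw.2⟩

theorem dgr_edg_zero {S : RT X} {Xe : Finset X} {φ : X → V} (hclo : Clo S Xe) {y : V}
    (hy : ∀ x ∈ Xe, φ x ≠ y) : dgr (edg S Xe φ) y = 0 := by
  unfold dgr
  rw [card_eq_zero, filter_eq_empty_iff]
  intro w _ hw
  obtain ⟨x, hxc, hx, h⟩ := mem_edg.mp hw
  rw [Sym2.eq_iff] at h
  rcases h with ⟨h1, _⟩ | ⟨_, h2⟩
  · exact hy _ (hclo.2 x hx hxc) h1
  · exact hy _ hx h2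

private theorem nbr_edg {S : RT X} {Xe : Finset X} {φ : X → V} (hclo : Clo S Xe)
    (hinj : Set.InjOn φ Xe) {x : X} (hx : x ∈ Xe) {w : V} (hw : s(φ x, w) ∈ edg S Xe φ) :
    (x ≠ S.c ∧ w = φ (S.p x)) ∨
      w ∈ (Xe.filter fun y => y ≠ S.c ∧ S.p y = x).image φ := by
  obtain ⟨z, hzc, hz, h⟩ := mem_edg.mp hw
  rw [Sym2.eq_iff] at h
  rcases h with ⟨h1, h2⟩ | ⟨h1, h2⟩
  · right
    have e := hinj (hclo.2 z hz hzc) hx h1
    rw [mem_image]
    exact ⟨z, mem_filter.mpr ⟨hz, hzc, e⟩, h2⟩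
  · left
    have e := hinj hz hx h2
    subst e
    exact ⟨hzc, h1.symm⟩

theorem dgr_edg_le {S : RT X} {Xe : Finset X} {φ : X → V} (hclo : Clo S Xe)
    (hinj : Set.InjOn φ Xe) {x : X} (hx : x ∈ Xe) :
    dgr (edg S Xe φ) (φ x) ≤ nch S Xe x + 1 := by
  unfold dgr nch
  have h1 : (univ.filter fun w => s(φ x, w) ∈ edg S Xe φ) ⊆
      insert (φ (S.p x)) ((Xe.filter fun y => y ≠ S.c ∧ S.p y = x).image φ) := by
    intro w hw
    rw [mem_insert]
    rcases nbr_edg hclo hinj hx (mem_filter.mp hw).2 with h | h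
    · exact Or.inl h.2
    · exact Or.inr h
  calc (univ.filter fun w => s(φ x, w) ∈ edg S Xe φ).card
      ≤ (insert (φ (S.p x)) ((Xe.filter fun y => y ≠ S.c ∧ S.p y = x).image φ)).card :=
        card_le_card h1
    _ ≤ ((Xe.filter fun y => y ≠ S.c ∧ S.p y = x).image φ).card + 1 := card_insert_le _ _
    _ ≤ (Xe.filter fun y => y ≠ S.c ∧ S.p y = x).card + 1 :=
        Nat.add_le_add_right card_image_le 1

theorem dgr_edg_root {S : RT X} {Xe : Finset X} {φ : X → V} (hclo : Clo S Xe)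
    (hinj : Set.InjOn φ Xe) : dgr (edg S Xe φ) (φ S.c) ≤ nch S Xe S.c := by
  unfold dgr nch
  refine le_trans (card_le_card ?_)
    (card_image_le (s := Xe.filter fun y => y ≠ S.c ∧ S.p y = S.c) (f := φ))
  intro w hw
  rcases nbr_edg hclo hinj hclo.1 (mem_filter.mp hw).2 with h | h
  · exact absurd rfl h.1
  · exact h

theorem dgr_edg_pos {S : RT X} {Xe : Finset X} {φ : X → V} (hclo : Clo S Xe) {x : X}
    (hx : x ∈ Xe) (hxc : x ≠ S.c) : 0 < dgr (edg S Xe φ) (φ x) := by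
  unfold dgr
  rw [card_pos]
  exact ⟨φ (S.p x), mem_filter.mpr ⟨mem_univ _, mem_edg.mpr ⟨x, hxc, hx, Sym2.eq_swap⟩⟩⟩

theorem sum_dgr (E : Finset (Sym2 V)) : ∑ y, dgr E y ≤ 2 * E.card := by
  have h1 : ∑ y, dgr E y =
      ((univ : Finset (V × V)).filter fun a => s(a.1, a.2) ∈ E).card := by
    unfold dgr
    rw [card_filter, Fintype.sum_prod_type]
    apply sum_congr rfl
    intro y _
    rw [card_filter]
  rw [h1]
  have h2 : ((univ : Finset (V × V)).filter fun a => s(a.1, a.2) ∈ E).card ≤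
      2 * (((univ : Finset (V × V)).filter fun a => s(a.1, a.2) ∈ E).image
        fun a => s(a.1, a.2)).card := by
    apply card_le_mul_card_image
    intro e he
    obtain ⟨⟨a, b⟩, _, hab⟩ := mem_image.mp he
    have hsub : ((((univ : Finset (V × V)).filter fun a => s(a.1, a.2) ∈ E)).filter
        fun a => s(a.1, a.2) = e) ⊆ {(a, b), (b, a)} := by
      rintro ⟨c, d⟩ hcd
      have h := (mem_filter.mp hcd).2
      have h' : s(c, d) = s(a, b) := by rw [hab]; exact h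
      rw [mem_insert, mem_singleton]
      rw [Sym2.eq_iff] at h'
      rcases h' with ⟨rfl, rfl⟩ | ⟨rfl, rfl⟩
      · exact Or.inl rfl
      · exact Or.inr rfl
    exact le_trans (card_le_card hsub) card_le_two
  refine le_trans h2 (Nat.mul_le_mul_left 2 (card_le_card ?_))
  intro e he
  obtain ⟨a, ha, rfl⟩ := mem_image.mp he
  exact (mem_filter.mp ha).2

theorem card_Edg {S : V → RT X} {Xe : V → Finset X} {φ : V → X → V} {Q : Finset V}
    (hclo : ∀ v ∈ Q, Clo (S v) (Xe v)) (hinj : ∀ v ∈ Q, Set.InjOn (φ v) (Xe v))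
    (hdst : Dst S Xe φ Q) : (Edg S Xe φ Q).card + Q.card = ∑ v ∈ Q, (Xe v).card := by
  unfold Edg
  rw [card_biUnion]
  · rw [card_eq_sum_ones, ← sum_add_distrib]
    apply sum_congr rfl
    intro v hv
    exact card_edg (hclo v hv) (hinj v hv)
  · intro v hv w hw hvw
    refine disjoint_left.mpr ?_
    intro e he he'
    obtain ⟨x, hxc, hx, rfl⟩ := mem_edg.mp he
    obtain ⟨y, hyc, hy, h⟩ := mem_edg.mp he'
    exact hvw (hdst v hv w hw x hx hxc y hy hyc h.symm).1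

theorem nch_mono {S : RT X} {A B : Finset X} (h : A ⊆ B) (x : X) : nch S A x ≤ nch S B x := by
  unfold nch
  exact card_le_card (filter_subset_filter _ h)

end deg

end Pool.Agent.BC
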