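import Pool.Agent.Lib.MP_80c395_co_BC.Defs

/-!
# MP_80c395_co, project BC: the special edges
-/

set_option autoImplicit false

open Finset

namespace Pool.Agent.BC

open Pool.Agent.Lib.MP_80c395_co

section dat
variable {V X : Type} [Fintype V] [DecidableEq V] [Fintype X] [DecidableEq X] {R : ℕ}
  {n κ p0 e : ℕ} {S : V → RT X} {c : V → Fin R → X} {lv rem : V → Fin R → Finset X}
  {i0 : V → Fin R} {U : Finset V} {π : Equiv.Perm V} {P : V → Finset X} {ρ : V → X → V}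
  {l : V → Fin R → Fin R → X}

theorem dgr_FE (π : Equiv.Perm V) (U : Finset V) (y : V) : dgr (FE R π U) y ≤ 2 * R ^ 2 := by
  classical
  unfold dgr
  let f : (Fin R × Fin R) × Bool → V := fun a =>
    if a.2 = true then (π ^ ((9 : ℤ) ^ (a.1.2 : ℕ) - (9 : ℤ) ^ (a.1.1 : ℕ))) y
    else (π ^ (-((9 : ℤ) ^ (a.1.2 : ℕ) - (9 : ℤ) ^ (a.1.1 : ℕ)))) y
  have h : (univ.filter fun w => s(y, w) ∈ FE R π U) ⊆ univ.image f := by
    intro w hw
    rw [mem_filter] at hw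
    obtain ⟨a, ha, he⟩ := mem_image.1 hw.2
    rw [Sym2.eq_iff] at he
    rcases he with ⟨h1, h2⟩ | ⟨h1, h2⟩
    · refine mem_image.2 ⟨(a.2, true), mem_univ _, ?_⟩
      show (if (true : Bool) = true then _ else _) = w
      rw [if_pos rfl, ← h1]
      exact h2
    · refine mem_image.2 ⟨(a.2, false), mem_univ _, ?_⟩
      show (if (false : Bool) = true then _ else _) = w
      rw [if_neg (by simp), ← h2, ← h1, ← Equiv.Perm.mul_apply, ← zpow_add, neg_add_cancel,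
        zpow_zero, Equiv.Perm.one_apply]
  calc (univ.filter fun w => s(y, w) ∈ FE R π U).card ≤ (univ.image f).card := card_le_card h
    _ ≤ (univ : Finset ((Fin R × Fin R) × Bool)).card := card_image_le
    _ = 2 * R ^ 2 := by
        rw [Finset.card_univ, Fintype.card_prod, Fintype.card_prod, Fintype.card_fin,
          Fintype.card_bool]
        ring

theorem mem_FE {π : Equiv.Perm V} {U : Finset V} {x : V} (hx : x ∈ U) {i j : Fin R}
    (hij : i < j) : s(x, (π ^ ((9 : ℤ) ^ (j : ℕ) - (9 : ℤ) ^ (i : ℕ))) x) ∈ FE R π U :=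
  mem_image.2 ⟨(x, (i, j)), mem_product.2 ⟨hx, mem_filter.2 ⟨mem_univ _, hij⟩⟩, rfl⟩

/-- invariance under all powers -/
theorem FE_zpow {π : Equiv.Perm V} {U : Finset V} (hinv : ∀ u, π u ∈ U ↔ u ∈ U) (k : ℤ) (u : V) :
    (π ^ k) u ∈ U ↔ u ∈ U := by
  induction k using Int.induction_on with
  | zero => rw [zpow_zero, Equiv.Perm.one_apply]
  | succ k ih => rw [add_comm, zpow_add, zpow_one, Equiv.Perm.mul_apply, hinv, ih]
  | pred k ih =>
    have h : (π ^ (-(k : ℤ))) u = π ((π ^ (-(k : ℤ) - 1)) u) := by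
      rw [← Equiv.Perm.mul_apply, ← zpow_one_add]
      congr 2
      ring
    rw [h, hinv] at ih
    exact ih

theorem FE_cases {π : Equiv.Perm V} {U : Finset V} (hinv : ∀ u, π u ∈ U ↔ u ∈ U) {a b : V}
    (h : s(a, b) ∈ FE R π U) : a ∈ U ∧ b ∈ U ∧ ∃ k : ℤ, |k| ≤ 9 ^ R ∧ (π ^ k) a = b := by
  obtain ⟨⟨x, i, j⟩, hx, he⟩ := mem_image.1 h
  rw [mem_product, mem_filter] at hx
  obtain ⟨hx, -, hij⟩ := hx
  simp only at hx hij he
  have hij' : (i : ℕ) ≤ j := le_of_lt hij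
  have hb0 : (0 : ℤ) ≤ (9 : ℤ) ^ (j : ℕ) - (9 : ℤ) ^ (i : ℕ) :=
    sub_nonneg.2 (pow_le_pow_right₀ (by norm_num) hij')
  have hb : |(9 : ℤ) ^ (j : ℕ) - (9 : ℤ) ^ (i : ℕ)| ≤ 9 ^ R := by
    rw [abs_of_nonneg hb0]
    have h1 : (9 : ℤ) ^ (j : ℕ) ≤ 9 ^ R := pow_le_pow_right₀ (by norm_num) j.2.le
    have h2 : (0 : ℤ) ≤ (9 : ℤ) ^ (i : ℕ) := by positivity
    linarith
  rw [Sym2.eq_iff] at he
  rcases he with ⟨h1, h2⟩ | ⟨h1, h2⟩
  · refine ⟨h1 ▸ hx, ?_, _, hb, ?_⟩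
    · rw [← h2, FE_zpow hinv]
      exact hx
    · rw [← h1]
      exact h2
  · refine ⟨?_, h1 ▸ hx, -((9 : ℤ) ^ (j : ℕ) - (9 : ℤ) ^ (i : ℕ)), ?_, ?_⟩
    · rw [← h2, FE_zpow hinv]
      exact hx
    · rw [abs_neg]
      exact hb
    · rw [← h2, ← h1, ← Equiv.Perm.mul_apply, ← zpow_add, neg_add_cancel, zpow_zero,
        Equiv.Perm.one_apply]

end dat

end Pool.Agent.BC
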