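import Mathlib

/-!
# MP_80c395_co, project BC: points which are far from each other
-/

set_option autoImplicit false

open Finset

namespace Pool.Agent.BC

private lemma far_aux {V ι : Type} [Fintype V] [DecidableEq V] (π : Equiv.Perm V)
    (U : Finset V) (g : ℕ) (v₀ : V) (s : Finset ι) (hk : s.card * (2 * g + 1) ≤ U.card) :
    ∃ p : ι → V, (∀ i ∈ s, p i ∈ U) ∧
      ∀ i ∈ s, ∀ j ∈ s, i ≠ j → ∀ t : ℤ, |t| ≤ g → (π ^ t) (p i) ≠ p j := by
  classical
  induction s using Finset.induction_on with
  | empty => exact ⟨fun _ => v₀, by simp, by simp⟩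
  | insert i s his ih =>
    rw [Finset.card_insert_of_notMem his] at hk
    have hk' : s.card * (2 * g + 1) ≤ U.card := le_trans (by nlinarith) hk
    obtain ⟨p, hpU, hp⟩ := ih hk'
    set B : Finset V := s.biUnion
      (fun j => (Finset.Icc (-(g : ℤ)) g).image (fun t => (π ^ t) (p j))) with hB
    have hBc : B.card ≤ s.card * (2 * g + 1) := by
      refine Finset.card_biUnion_le_card_mul _ _ _ (fun j _ => ?_)
      refine le_trans Finset.card_image_le ?_
      rw [Int.card_Icc]
      omega
    have hlt : B.card < U.card := by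
      have : s.card * (2 * g + 1) < (s.card + 1) * (2 * g + 1) := by
        nlinarith
      omega
    obtain ⟨x, hxU, hxB⟩ := Finset.exists_mem_notMem_of_card_lt_card hlt
    have hxB' : ∀ j ∈ s, ∀ t : ℤ, |t| ≤ g → (π ^ t) (p j) ≠ x := by
      intro j hj t ht h
      apply hxB
      rw [hB, Finset.mem_biUnion]
      refine ⟨j, hj, Finset.mem_image.2 ⟨t, ?_, h⟩⟩
      rw [Finset.mem_Icc]
      exact abs_le.1 ht
    have hne : ∀ j ∈ s, j ≠ i := fun j hj h => his (h ▸ hj)
    refine ⟨Function.update p i x, ?_, ?_⟩
    · intro j hj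
      rcases Finset.mem_insert.1 hj with rfl | hj
      · simpa using hxU
      · rw [Function.update_of_ne (hne j hj)]
        exact hpU j hj
    · intro a ha b hb hab t ht
      rcases Finset.mem_insert.1 ha with rfl | ha'
      · rcases Finset.mem_insert.1 hb with rfl | hb'
        · exact absurd rfl hab
        · rw [Function.update_self, Function.update_of_ne (hne b hb')]
          intro h
          apply hxB' b hb' (-t) (by rwa [abs_neg])
          rw [← h, ← Equiv.Perm.mul_apply, ← zpow_add]
          simp
      · rcases Finset.mem_insert.1 hb with rfl | hb'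
        · rw [Function.update_self, Function.update_of_ne (hne a ha')]
          exact hxB' a ha' t ht
        · rw [Function.update_of_ne (hne a ha'), Function.update_of_ne (hne b hb')]
          exact hp a ha' b hb' hab t ht

theorem exists_far {V ι : Type} [Fintype V] [DecidableEq V] [Fintype ι] (π : Equiv.Perm V)
    (U : Finset V) (g : ℕ) (hk : Fintype.card ι * (2 * g + 1) ≤ U.card) :
    ∃ p : ι → V, (∀ i, p i ∈ U) ∧
      ∀ i j, i ≠ j → ∀ t : ℤ, |t| ≤ g → (π ^ t) (p i) ≠ p j := by
  rcases isEmpty_or_nonempty ι with hι | hι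
  · exact ⟨fun i => isEmptyElim i, fun i => isEmptyElim i, fun i => isEmptyElim i⟩
  · have h1 : 0 < Fintype.card ι := Fintype.card_pos
    have h2 : 0 < U.card := lt_of_lt_of_le (Nat.mul_pos h1 (by omega)) hk
    obtain ⟨v₀, _⟩ := Finset.card_pos.1 h2
    obtain ⟨p, hp1, hp2⟩ := far_aux (ι := ι) π U g v₀ Finset.univ (by simpa using hk)
    exact ⟨p, fun i => hp1 i (Finset.mem_univ i),
      fun i j hij => hp2 i (Finset.mem_univ i) j (Finset.mem_univ j) hij⟩

end Pool.Agent.BC
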