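import Pool.Agent.Lib.MP_80c395_co_BC.FinPack
import Pool.Agent.Lib.MP_80c395_co_BC.ExDat2
import Pool.Agent.Lib.MP_80c395_co_BC.ExExc2

/-!
# MP_80c395_co, project BC: packing of 2n+1 trees of order n+1 with R centres each
-/

set_option autoImplicit false

open Finset

namespace Pool.Agent.BC

open Pool.Agent.Lib.MP_80c395_co

theorem adjc_edge {X V : Type} {S : RT X} {f : X → V} {a b : X} (h : adjc S a b) :
    ∃ x, x ≠ S.c ∧ s(f a, f b) = s(f (S.p x), f x) := by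
  rcases h with ⟨h1, h2⟩ | ⟨h1, h2⟩
  · exact ⟨a, h1, by rw [h2, Sym2.eq_swap]⟩
  · exact ⟨b, h1, by rw [h2]⟩

/-- the numerical estimate -/
theorem core_num (R : ℕ) (hR : 1 ≤ R) :
    2000 * (R + 1) ^ 2 *
      (2 * (R * ((2 * (32000 * R * (R + 1) ^ 2) + 1) ^ R * 9 ^ (R + 1)))) * 9 ^ (R + 1) ≤
      (10 ^ 6 * R) ^ (3 * R) := by
  have h1 : (R + 1) ^ 2 ≤ 4 * R ^ 2 := by nlinarith
  have h2 : 2 * (32000 * R * (R + 1) ^ 2) + 1 ≤ 256001 * R ^ 3 := by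
    have e1 : 32000 * R * (R + 1) ^ 2 ≤ 32000 * R * (4 * R ^ 2) := Nat.mul_le_mul_left _ h1
    have e2 : 1 ≤ R ^ 3 := Nat.one_le_pow _ _ (by omega)
    calc 2 * (32000 * R * (R + 1) ^ 2) + 1 ≤ 2 * (32000 * R * (4 * R ^ 2)) + R ^ 3 := by omega
      _ = 256001 * R ^ 3 := by ring
  have h3 : (2 * (32000 * R * (R + 1) ^ 2) + 1) ^ R ≤ (256001 * R ^ 3) ^ R :=
    Nat.pow_le_pow_left h2 R
  have h4 : R ^ 3 ≤ 8 ^ R := by
    have : R ≤ 2 ^ R := Nat.lt_two_pow_self.le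
    calc R ^ 3 ≤ (2 ^ R) ^ 3 := Nat.pow_le_pow_left this 3
      _ = 8 ^ R := by rw [← pow_mul, mul_comm, pow_mul]; norm_num
  have h5 : 1296000 ≤ 1296000 ^ R := Nat.le_self_pow (by omega) _
  calc 2000 * (R + 1) ^ 2 *
      (2 * (R * ((2 * (32000 * R * (R + 1) ^ 2) + 1) ^ R * 9 ^ (R + 1)))) * 9 ^ (R + 1)
      ≤ 2000 * (4 * R ^ 2) * (2 * (R * ((256001 * R ^ 3) ^ R * 9 ^ (R + 1)))) * 9 ^ (R + 1) := by
        gcongr
    _ = 1296000 * R ^ 3 * ((256001 * R ^ 3) ^ R * 81 ^ R) := by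
        have : (9 : ℕ) ^ (R + 1) * 9 ^ (R + 1) = 81 * 81 ^ R := by
          rw [← mul_pow]; norm_num [pow_succ, mul_comm]
        calc 2000 * (4 * R ^ 2) * (2 * (R * ((256001 * R ^ 3) ^ R * 9 ^ (R + 1)))) * 9 ^ (R + 1)
            = 16000 * R ^ 3 * (256001 * R ^ 3) ^ R * (9 ^ (R + 1) * 9 ^ (R + 1)) := by ring
          _ = 16000 * R ^ 3 * (256001 * R ^ 3) ^ R * (81 * 81 ^ R) := by rw [this]
          _ = _ := by ring
    _ ≤ 1296000 ^ R * 8 ^ R * ((256001 * R ^ 3) ^ R * 81 ^ R) := by gcongr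
    _ = (1296000 * 8 * 256001 * 81 * R ^ 3) ^ R := by
        simp only [mul_pow]; ring
    _ ≤ (10 ^ 18 * R ^ 3) ^ R := by
        apply Nat.pow_le_pow_left
        apply Nat.mul_le_mul_right
        norm_num
    _ = (10 ^ 6 * R) ^ (3 * R) := by
        have : (10 ^ 6 * R) ^ 3 = 10 ^ 18 * R ^ 3 := by ring
        rw [pow_mul, this]

theorem pack_core2 (R n e : ℕ) (hR : 1 ≤ R) (hn : (10 ^ 6 * R) ^ (3 * R) ≤ n)
    (he : 10 ^ 6 * R ^ 2 * e ≤ n) (V X : Type) [Fintype V] [DecidableEq V] [Fintype X]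
    [DecidableEq X] (hV : Fintype.card V = 2 * n + 1) (hX : Fintype.card X = n + 1)
    (T : V → SimpleGraph X) (c : V → Fin R → X) (hT : ∀ v, (T v).IsTree)
    (hc : ∀ v, Function.Injective (c v))
    (hfew : ∀ v, {ed ∈ (T v).edgeSet | ∀ i, c v i ∉ ed}.ncard ≤ e) :
    ∃ f : V → X → V, (∀ v, Function.Injective (f v)) ∧
      ∀ v w a b a' b', v ≠ w → (T v).Adj a b → (T w).Adj a' b' →
        s(f v a, f v b) ≠ s(f w a', f w b') := by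
  obtain ⟨K, hK⟩ : ∃ K, K = 32000 * R * (R + 1) ^ 2 := ⟨_, rfl⟩
  obtain ⟨p0, hp0⟩ : ∃ p0, p0 = R * ((2 * K + 1) ^ R * 9 ^ (R + 1)) := ⟨_, rfl⟩
  have hnum0 := (core_num R hR).trans hn
  rw [← hK, ← hp0] at hnum0
  have hM : 1 ≤ (R + 1) ^ 2 := Nat.one_le_pow _ _ (by omega)
  have hM4 : (R + 1) ^ 2 ≤ 4 * R ^ 2 := by nlinarith
  have hK0 : 0 < K := by rw [hK]; positivity
  -- p0 is large
  have hp1 : 81 * (R * (2 * K + 1)) ≤ p0 := by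
    have e1 : 2 * K + 1 ≤ (2 * K + 1) ^ R := Nat.le_self_pow (by omega) _
    have e2 : 9 ^ 2 ≤ 9 ^ (R + 1) := Nat.pow_le_pow_right (by norm_num) (by omega)
    rw [hp0]
    calc 81 * (R * (2 * K + 1)) = R * ((2 * K + 1) * 9 ^ 2) := by ring
      _ ≤ R * ((2 * K + 1) ^ R * 9 ^ (R + 1)) := by gcongr
  have hKR : R ≤ K := by
    rw [hK]
    calc R = 1 * R * 1 := by ring
      _ ≤ 32000 * R * (R + 1) ^ 2 := by gcongr; omega
  have hRK : R * K ≤ p0 := by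
    have : R * K ≤ 81 * (R * (2 * K + 1)) := by
      calc R * K ≤ R * (2 * K + 1) := Nat.mul_le_mul_left _ (by omega)
        _ ≤ 81 * (R * (2 * K + 1)) := by omega
    omega
  have h9 : 81 ≤ 9 ^ (R + 1) := by
    calc 81 = 9 ^ 2 := by norm_num
      _ ≤ 9 ^ (R + 1) := Nat.pow_le_pow_right (by norm_num) (by omega)
  -- n compared with p0
  have hA : 4000 * (R + 1) ^ 2 * p0 * 81 ≤ n := by
    calc 4000 * (R + 1) ^ 2 * p0 * 81 = 2000 * (R + 1) ^ 2 * (2 * p0) * 81 := by ring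
      _ ≤ 2000 * (R + 1) ^ 2 * (2 * p0) * 9 ^ (R + 1) := Nat.mul_le_mul_left _ h9
      _ ≤ n := hnum0
  have hA1 : 324000 * ((R + 1) ^ 2 * p0) ≤ n := by
    calc 324000 * ((R + 1) ^ 2 * p0) = 4000 * (R + 1) ^ 2 * p0 * 81 := by ring
      _ ≤ n := hA
  have hp2 : p0 ≤ (R + 1) ^ 2 * p0 := Nat.le_mul_of_pos_left _ (by omega)
  have hp3 : R * p0 ≤ (R + 1) ^ 2 * p0 := Nat.mul_le_mul_right _ (by nlinarith)
  have hR1p : (R + 1) * p0 ≤ (R + 1) ^ 2 * p0 := Nat.mul_le_mul_right _ (by nlinarith)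
  have hR2 : R ^ 2 ≤ p0 := by
    calc R ^ 2 = R * R := by ring
      _ ≤ R * K := Nat.mul_le_mul_left _ hKR
      _ ≤ p0 := hRK
  have hR3 : R ≤ p0 := by nlinarith
  have hp4 : 1 ≤ p0 := by omega
  -- the number q
  obtain ⟨q, hq⟩ : ∃ q, q = n / K := ⟨_, rfl⟩
  have hKq : K * q ≤ n := by rw [hq]; exact Nat.mul_div_le n K
  have hqR : R ≤ q := by
    rw [hq, Nat.le_div_iff_mul_le hK0]
    omega
  have hKq2 : 32000 * ((R + 1) ^ 2 * (R * q)) ≤ n := by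
    calc 32000 * ((R + 1) ^ 2 * (R * q)) = K * q := by rw [hK]; ring
      _ ≤ n := hKq
  have he2 : 10 ^ 6 * (R ^ 2 * e) ≤ n := by
    calc 10 ^ 6 * (R ^ 2 * e) = 10 ^ 6 * R ^ 2 * e := by ring
      _ ≤ n := he
  have he3 : (R + 1) ^ 2 * e ≤ 4 * (R ^ 2 * e) := by
    calc (R + 1) ^ 2 * e ≤ (4 * R ^ 2) * e := Nat.mul_le_mul_right _ hM4
      _ = 4 * (R ^ 2 * e) := by ring
  have he4 : e ≤ (R + 1) ^ 2 * e := Nat.le_mul_of_pos_left _ (by omega)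
  have hRq3 : R * q ≤ (R + 1) ^ 2 * (R * q) := Nat.le_mul_of_pos_left _ (by omega)
  have hdat : 100 * (2 * R * q + 2 * R + 2 * e + 2) ≤ n := by
    have : 2 * R * q = 2 * (R * q) := by ring
    rw [this]
    omega
  obtain ⟨S, lv, rem, i0, U, π, D, hadj⟩ := exists_dat2 n K q p0 e hR hV hX hK0 hq hqR hdat
    (le_of_eq hp0.symm) T hT c hc hfew
  have hnum : 200 * ((R + 1) ^ 2 * (20 * (2 * R * q + 2 * R + 2 * e) + 20 * R ^ 2 + 20 +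
      (2 * p0 + (e + R + 1))) + p0) ≤ n := by
    have e1 : (R + 1) ^ 2 * (20 * (2 * R * q + 2 * R + 2 * e) + 20 * R ^ 2 + 20 +
      (2 * p0 + (e + R + 1))) = 40 * ((R + 1) ^ 2 * (R * q)) + 41 * ((R + 1) ^ 2 * e) +
        (R + 1) ^ 2 * (41 * R + 20 * R ^ 2 + 21 + 2 * p0) := by ring
    have e2 : (R + 1) ^ 2 * (41 * R + 20 * R ^ 2 + 21 + 2 * p0) ≤
        (R + 1) ^ 2 * (84 * p0) := Nat.mul_le_mul_left _ (by omega)
    have e3 : (R + 1) ^ 2 * (84 * p0) = 84 * ((R + 1) ^ 2 * p0) := by ring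
    rw [e1]
    omega
  have hnum1 : (R + 1) * (2 * R ^ 2 + 2 * p0) + 2 * p0 + 3 * (e + R) ≤ n := by
    have e1 : (R + 1) * (2 * R ^ 2 + 2 * p0) ≤ (R + 1) * (4 * p0) :=
      Nat.mul_le_mul_left _ (by omega)
    have e2 : (R + 1) * (4 * p0) = 4 * ((R + 1) * p0) := by ring
    omega
  have hnum2 : (p0 + 1) * (2 * 9 ^ (R + 1) + 2) ≤ n := by
    refine le_trans ?_ hnum0
    have e1 : (p0 + 1) ≤ 2 * p0 := by omega
    have e2 : 2 * 9 ^ (R + 1) + 2 ≤ 2000 * (R + 1) ^ 2 * 9 ^ (R + 1) := by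
      calc 2 * 9 ^ (R + 1) + 2 ≤ 2000 * 1 * 9 ^ (R + 1) := by omega
        _ ≤ 2000 * (R + 1) ^ 2 * 9 ^ (R + 1) := by gcongr
    calc (p0 + 1) * (2 * 9 ^ (R + 1) + 2) ≤ (2 * p0) * (2000 * (R + 1) ^ 2 * 9 ^ (R + 1)) :=
          Nat.mul_le_mul e1 e2
      _ = _ := by ring
  have hnum3 : 1000 * R * (p0 + 1) ≤ n := by
    calc 1000 * R * (p0 + 1) ≤ 1000 * R * (2 * p0) := Nat.mul_le_mul_left _ (by omega)
      _ = 2000 * (R * p0) := by ring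
      _ ≤ n := by omega
  obtain ⟨Pol, φZ, a1, a2, a3, a4, a5, a6, a7, a8, a9, a10⟩ := exists_exc2 D hnum1 hnum2
  have hκ : 0 < 2 * R * q + 2 * R + 2 * e := by omega
  obtain ⟨φ, Em⟩ := emb_of_exc D.toDat hκ (2 * p0 + (e + R + 1)) hnum
    Pol φZ a1 a2 a3 a4 a5 a6 a7 a8 a9 a10
  obtain ⟨f, hf, hf'⟩ := fin_pack D.toDat Em hnum hnum3
  refine ⟨f, hf, ?_⟩
  intro v w a b a' b' hvw hab hab' hcon
  obtain ⟨x, hx, hx'⟩ := adjc_edge (f := f v) (hadj v a b hab)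
  obtain ⟨y, hy, hy'⟩ := adjc_edge (f := f w) (hadj w a' b' hab')
  rw [hx', hy'] at hcon
  exact hvw (hf' v w x y hx hy hcon).1

end Pool.Agent.BC
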