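import Pool.Agent.Lib.MP_80c395_co.Rooted

/-!
# MP_80c395_co, project BC (BoundedCentres): definitions
-/

set_option autoImplicit false

open Finset

namespace Pool.Agent.BC

open Pool.Agent.Lib.MP_80c395_co

section
variable {V X : Type} [Fintype V] [DecidableEq V] [Fintype X] [DecidableEq X]

/-- edges of an embedded rooted tree, restricted to `Xe` -/
def edg (S : RT X) (Xe : Finset X) (φ : X → V) : Finset (Sym2 V) :=
  (Xe.erase S.c).image fun x => s(φ (S.p x), φ x)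

/-- degree of `y` in a set of edges -/
def dgr (E : Finset (Sym2 V)) (y : V) : ℕ := (univ.filter fun w => s(y, w) ∈ E).card

/-- `Xe` contains the root and is closed under parents -/
def Clo (S : RT X) (Xe : Finset X) : Prop := S.c ∈ Xe ∧ ∀ x ∈ Xe, x ≠ S.c → S.p x ∈ Xe

/-- number of children of `x` in `Xe` -/
def nch (S : RT X) (Xe : Finset X) (x : X) : ℕ := (Xe.filter fun y => y ≠ S.c ∧ S.p y = x).card

/-- the edges of the trees in `Q` are different -/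
def Dst (S : V → RT X) (Xe : V → Finset X) (φ : V → X → V) (Q : Finset V) : Prop :=
  ∀ v ∈ Q, ∀ w ∈ Q, ∀ x ∈ Xe v, x ≠ (S v).c → ∀ y ∈ Xe w, y ≠ (S w).c →
    s(φ v ((S v).p x), φ v x) = s(φ w ((S w).p y), φ w y) → v = w ∧ x = y

/-- all edges of the trees in `Q` -/
def Edg (S : V → RT X) (Xe : V → Finset X) (φ : V → X → V) (Q : Finset V) : Finset (Sym2 V) :=
  Q.biUnion fun v => edg (S v) (Xe v) (φ v)

open Classical in
/-- leaves at the centre `c i`: no centres, `c i` is the only neighbour -/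
noncomputable def lf {R : ℕ} (T : SimpleGraph X) (c : Fin R → X) (i : Fin R) : Finset X :=
  univ.filter fun y => (∀ j, c j ≠ y) ∧ ∀ w, T.Adj y w ↔ w = c i

/-- host of centre `i` of the tree `v` -/
def hp {R : ℕ} (π : Equiv.Perm V) (v : V) (i : Fin R) : V := (π ^ ((9 : ℤ) ^ (i : ℕ))) v

/-- position of the chord leaf `i < j` of the tree `v` -/
def cp {R : ℕ} (π : Equiv.Perm V) (v : V) (i j : Fin R) : V :=
  (π ^ (2 * (9 : ℤ) ^ (j : ℕ) - (9 : ℤ) ^ (i : ℕ))) v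

/-- `U` is invariant and has only long cycles -/
structure Cyc (π : Equiv.Perm V) (U : Finset V) (g : ℕ) : Prop where
  inv : ∀ u, π u ∈ U ↔ u ∈ U
  long : ∀ u ∈ U, ∀ k : ℤ, |k| < g → (π ^ k) u = u → k = 0

/-- edges `{x, π^(9^j-9^i) x}`, `x` in `U`, `i < j` -/
def FE (R : ℕ) (π : Equiv.Perm V) (U : Finset V) : Finset (Sym2 V) :=
  (U ×ˢ (univ.filter fun a : Fin R × Fin R => a.1 < a.2)).image fun a =>
    s(a.1, (π ^ ((9 : ℤ) ^ (a.2.2 : ℕ) - (9 : ℤ) ^ (a.2.1 : ℕ))) a.1)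

/-- the edges with two prescribed ends of the trees in `U` -/
def PE (S : V → RT X) (P : V → Finset X) (ρ : V → X → V) (U : Finset V) : Finset (Sym2 V) :=
  U.biUnion fun v => ((P v).filter fun x => x ≠ (S v).c ∧ (S v).p x ∈ P v).image
    fun x => s(ρ v ((S v).p x), ρ v x)

/-- vertices which are not removed -/
def xe {R : ℕ} (rem : V → Fin R → Finset X) (v : V) : Finset X :=
  univ.filter fun x => ∀ i, x ∉ rem v i

/-- hosts of the active centres of the tree `v` in `U` -/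
def hs {R : ℕ} (π : Equiv.Perm V) (rem : V → Fin R → Finset X) (v : V) : Finset V :=
  (univ.filter fun i => (rem v i).Nonempty).image (hp π v)

/-- host of the centre `i` of the tree `v` -/
def hst {R : ℕ} (π : Equiv.Perm V) (U : Finset V) (v : V) (i : Fin R) : V :=
  if v ∈ U then hp π v i else v

/-- adjacency in a rooted tree -/
def adjc (S : RT X) (a b : X) : Prop := (a ≠ S.c ∧ S.p a = b) ∨ (b ≠ S.c ∧ S.p b = a)

/-- the tree `v` in `U` has a chord leaf for the centres `i < j` -/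
def chd {R : ℕ} (S : V → RT X) (c : V → Fin R → X) (rem : V → Fin R → Finset X)
    (π : Equiv.Perm V) (v : V) (i j : Fin R) : Prop :=
  i < j ∧ (rem v i).Nonempty ∧ (rem v j).Nonempty ∧
    ¬ adjc (S ((π ^ ((9 : ℤ) ^ (j : ℕ) - (9 : ℤ) ^ (i : ℕ))) v))
      (c ((π ^ ((9 : ℤ) ^ (j : ℕ) - (9 : ℤ) ^ (i : ℕ))) v) i)
      (c ((π ^ ((9 : ℤ) ^ (j : ℕ) - (9 : ℤ) ^ (i : ℕ))) v) j)

/-- the classes, removed leaves, roots: everything which is fixed before the embedding -/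
structure Dat {R : ℕ} (n κ p0 e : ℕ) (S : V → RT X) (c : V → Fin R → X)
    (lv rem : V → Fin R → Finset X) (i0 : V → Fin R) (U : Finset V) (π : Equiv.Perm V) :
    Prop where
  cV : Fintype.card V = 2 * n + 1
  cX : Fintype.card X = n + 1
  cyc : Cyc π U (9 ^ (R + 1))
  cU : R * Uᶜ.card ≤ p0
  cinj : ∀ v, Function.Injective (c v)
  root : ∀ v, (S v).c = c v (i0 v)
  lv_nc : ∀ v i x, x ∈ lv v i → ∀ j, c v j ≠ x
  lv_p : ∀ v i x, x ∈ lv v i → (S v).p x = c v i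
  lv_ch : ∀ v i x, x ∈ lv v i → ∀ y, y ≠ (S v).c → (S v).p y ≠ x
  sub : ∀ v i, rem v i ⊆ lv v i
  act : ∀ v, (rem v (i0 v)).Nonempty
  rpi : ∀ v ∈ U, ∀ i, (rem (π v) i).card = (rem v i).card
  tot : ∀ v ∈ U, ∑ i, (rem v i).card + κ = n
  spare : ∀ v ∈ U, ∀ i, (rem v i).Nonempty → R ≤ (lv v i \ rem v i).card
  exc0 : ∀ v, v ∉ U → rem v (i0 v) = lv v (i0 v)
  exc1 : ∀ v, v ∉ U → ∀ i, i ≠ i0 v → rem v i = ∅
  big : ∀ v, v ∉ U → n ≤ 2 * R * (lv v (i0 v)).card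
  nchn : ∀ v x, (∀ i, c v i ≠ x) → nch (S v) univ x ≤ e + R
  nchc : ∀ v, v ∉ U → ∀ i, i ≠ i0 v → 100 * (nch (S v) univ (c v i) + 1) ≤ 56 * n

/-- prescribed vertices `P` and their positions `ρ`, chord leaves `l` -/
structure Pre {R : ℕ} (S : V → RT X) (c : V → Fin R → X) (lv rem : V → Fin R → Finset X)
    (U : Finset V) (π : Equiv.Perm V) (P : V → Finset X) (ρ : V → X → V)
    (l : V → Fin R → Fin R → X) : Prop where
  mem : ∀ v ∈ U, ∀ x, x ∈ P v ↔ (∃ i, (rem v i).Nonempty ∧ x = c v i) ∨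
    ∃ i j, chd S c rem π v i j ∧ x = l v i j
  rc : ∀ v ∈ U, ∀ i, (rem v i).Nonempty → ρ v (c v i) = hp π v i
  rl : ∀ v ∈ U, ∀ i j, chd S c rem π v i j → ρ v (l v i j) = cp π v i j
  ml : ∀ v ∈ U, ∀ i j, chd S c rem π v i j → l v i j ∈ lv v j ∧ l v i j ∉ rem v j

/-- hypotheses for the embedding of the good trees -/
structure GHyp (n R p0 t κ : ℕ) (U Pol : Finset V) (S : V → RT X) (Xe P : V → Finset X)
    (ρ : V → X → V) (Hst : V → Finset V) (OE : Finset (Sym2 V)) : Prop where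
  cV : Fintype.card V = 2 * n + 1
  κ0 : 0 < κ
  cU : Uᶜ.card ≤ p0
  cPol : Pol.card ≤ p0
  num : 200 * ((R + 1) ^ 2 * (20 * κ + 20 * R ^ 2 + 20 + t) + p0) ≤ n
  root : ∀ v ∈ U, (S v).c ∈ P v
  sub : ∀ v ∈ U, P v ⊆ Xe v
  clo : ∀ v ∈ U, Clo (S v) (Xe v)
  cXe : ∀ v ∈ U, (Xe v).card ≤ κ + 1
  chi : ∀ v ∈ U, ∀ x ∈ Xe v, x ∉ P v → nch (S v) (P v) x ≤ R
  inj : ∀ v ∈ U, Set.InjOn (ρ v) (P v)
  inU : ∀ v ∈ U, ∀ x ∈ P v, ρ v x ∈ U
  hsub : ∀ v ∈ U, Hst v ⊆ (P v).image (ρ v)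
  hcard : ∀ v ∈ U, (Hst v).card ≤ R
  hcount : ∀ y, (U.filter fun v => y ∈ Hst v).card ≤ R
  pcount : ∀ y, (U.filter fun v => y ∈ (P v).image (ρ v)).card ≤ R + R ^ 2
  leaf : ∀ v ∈ U, ∀ x ∈ P v, ρ v x ∉ Hst v →
    nch (S v) (Xe v) x = 0 ∧ x ≠ (S v).c ∧ (S v).p x ∈ P v
  dst : ∀ v ∈ U, ∀ w ∈ U, ∀ x ∈ P v, x ≠ (S v).c → (S v).p x ∈ P v → ∀ y ∈ P w,
    y ≠ (S w).c → (S w).p y ∈ P w →
    s(ρ v ((S v).p x), ρ v x) = s(ρ w ((S w).p y), ρ w y) → v = w ∧ x = y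
  dgrPE : ∀ y, dgr (PE S P ρ U) y ≤ 2 * R ^ 2
  peo : ∀ ed ∈ PE S P ρ U, ed ∉ OE
  conf : ∀ u ∈ U, ∀ v ∈ U, u ≠ v → ∀ a ∈ Hst u, ∀ b ∈ Hst v, a ≠ b →
    a ∈ (P v).image (ρ v) → b ∈ (P u).image (ρ u) → s(a, b) ∈ PE S P ρ U
  o1 : ∀ y ∈ U, y ∉ Pol → dgr OE y ≤ t
  o2 : ∀ y ∈ Pol, 100 * dgr OE y ≤ 56 * n
  pol : ∀ v ∈ U, ∀ x ∈ P v, ∀ y ∈ P v, ρ v x ∈ Pol → ρ v y ∈ Pol → x = y

/-- the present vertex sets when the trees in `Q` are embedded -/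
def cur (Xe P : V → Finset X) (Q : Finset V) (v : V) : Finset X := if v ∈ Q then Xe v else P v

/-- number of edges at `y` of trees in `Q` which have a vertex at `y` that is not prescribed -/
def ld (S : V → RT X) (Xe P : V → Finset X) (φ : V → X → V) (Q : Finset V) (y : V) : ℕ :=
  ∑ v ∈ Q.filter (fun v => y ∈ (Xe v \ P v).image (φ v)), dgr (edg (S v) (Xe v) (φ v)) y

/-- the state when the good trees in `Q` are embedded -/
structure GSt (κ : ℕ) (U : Finset V) (S : V → RT X) (Xe P : V → Finset X)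
    (ρ : V → X → V) (Hst : V → Finset V) (OE : Finset (Sym2 V)) (Q : Finset V)
    (φ : V → X → V) : Prop where
  ext : ∀ v ∈ U, ∀ x ∈ P v, φ v x = ρ v x
  inj : ∀ v ∈ Q, Set.InjOn (φ v) (Xe v)
  inU : ∀ v ∈ Q, ∀ x ∈ Xe v, φ v x ∈ U
  dst : Dst S Xe φ Q
  out : ∀ ed ∈ Edg S Xe φ Q, ed ∉ OE
  npe : ∀ v ∈ Q, ∀ x ∈ Xe v, x ≠ (S v).c → (x ∉ P v ∨ (S v).p x ∉ P v) →
    s(φ v ((S v).p x), φ v x) ∉ PE S P ρ U
  conf : ∀ u ∈ U, ∀ v ∈ U, u ≠ v → ∀ a ∈ Hst u, ∀ b ∈ Hst v, a ≠ b →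
    a ∈ (cur Xe P Q v).image (φ v) → b ∈ (cur Xe P Q u).image (φ u) →
    s(a, b) ∈ Edg S Xe φ Q ∪ PE S P ρ U
  load : ∀ y, ld S Xe P φ Q y ≤ 11 * κ

/-- positions which would give a double conflict with the tree `v` -/
def cfs (U : Finset V) (Xe P : V → Finset X) (Hst : V → Finset V) (Q : Finset V)
    (φ : V → X → V) (v : V) : Finset V :=
  ((U.erase v).filter fun u => (Hst v ∩ (cur Xe P Q u).image (φ u)).Nonempty).biUnion Hst

/-- the positions allowed for the vertices of the tree `v` which are not prescribed -/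
def alw (κ : ℕ) (U Pol : Finset V) (S : V → RT X) (Xe P : V → Finset X) (ρ : V → X → V)
    (Hst : V → Finset V) (Q : Finset V) (φ : V → X → V) (v : V) : Finset V :=
  U.filter fun y => y ∉ Pol ∧ y ∉ (P v).image (ρ v) ∧ ld S Xe P φ Q y ≤ 10 * κ ∧
    y ∉ cfs U Xe P Hst Q φ v

end

end Pool.Agent.BC
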