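import Pool.Agent.Lib.MP_80c395_co_BC.Defs

/-!
# MP_80c395_co, project BC: definitions for the quantitative version
-/

set_option autoImplicit false

open Finset

namespace Pool.Agent.BC

open Pool.Agent.Lib.MP_80c395_co

section
variable {V X : Type} [Fintype V] [DecidableEq V] [Fintype X] [DecidableEq X]

/-- heavy vertices: no centres and no leaves at centres -/
def hvs {R : ℕ} (c : V → Fin R → X) (lv : V → Fin R → Finset X) (v : V) : Finset X :=
  univ.filter fun x => (∀ i, c v i ≠ x) ∧ ∀ i, x ∉ lv v i

/-- the data, with a bound for the heavy vertices -/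
structure Dat2 {R : ℕ} (n κ p0 e : ℕ) (S : V → RT X) (c : V → Fin R → X)
    (lv rem : V → Fin R → Finset X) (i0 : V → Fin R) (U : Finset V) (π : Equiv.Perm V) : Prop
    extends Dat n κ p0 e S c lv rem i0 U π where
  hvy : ∀ v, ∑ x ∈ hvs c lv v, (nch (S v) univ x + 1) ≤ 3 * (e + R)

end

end Pool.Agent.BC
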