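import Pool.Agent.Lib.MP_80c395_co_BC.Defs

/-!
# MP_80c395_co, project BC: greedy embedding of one tree with prescribed vertices
-/

set_option autoImplicit false

open Finset

namespace Pool.Agent.BC

open Pool.Agent.Lib.MP_80c395_co

theorem embed_one {V X : Type} [Fintype V] [DecidableEq V] [Fintype X] [DecidableEq X]
    (S : RT X) (Xe P : Finset X) (ρ : X → V) (Y : Finset V) (ok : V → V → Prop)
    [DecidableRel ok] (hsym : ∀ a b, ok a b → ok b a) (k : ℕ) (hcP : S.c ∈ P) (hP : P ⊆ Xe)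
    (hclo : Clo S Xe) (hρ : Set.InjOn ρ P) (hρY : ∀ x ∈ P, ρ x ∉ Y)
    (hk : ∀ x ∈ Xe, x ∉ P → nch S P x ≤ k)
    (hdeg : ∀ Q : Finset V, Q.card ≤ k + 1 → (∀ a ∈ Q, a ∈ Y ∨ a ∈ P.image ρ) →
      Xe.card ≤ (Y.filter fun y => ∀ a ∈ Q, ok a y).card) :
    ∃ φ : X → V, (∀ x ∈ P, φ x = ρ x) ∧ (∀ x ∈ Xe, x ∉ P → φ x ∈ Y) ∧ Set.InjOn φ Xe ∧
      ∀ x ∈ Xe, x ≠ S.c → (x ∉ P ∨ S.p x ∉ P) → ok (φ (S.p x)) (φ x) := by
  classical
  suffices H : ∀ (m : ℕ) (W : Finset X), (W \ P).card = m → P ⊆ W → W ⊆ Xe →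
      (∀ x ∈ W, x ∉ P → S.p x ∈ W) →
      ∃ φ : X → V, (∀ x ∈ P, φ x = ρ x) ∧ (∀ x ∈ W, x ∉ P → φ x ∈ Y) ∧ Set.InjOn φ W ∧
        ∀ x ∈ W, x ≠ S.c → S.p x ∈ W → (x ∉ P ∨ S.p x ∉ P) → ok (φ (S.p x)) (φ x) by
    obtain ⟨φ, h1, h2, h3, h4⟩ := H _ Xe rfl hP subset_rfl (fun x hx hxP =>
      hclo.2 x hx (fun h => hxP (h ▸ hcP)))
    exact ⟨φ, h1, h2, h3, fun x hx hxc h => h4 x hx hxc (hclo.2 x hx hxc) h⟩
  intro m
  induction m with
  | zero =>
    intro W hW hPW _ _
    rw [Finset.card_eq_zero, Finset.sdiff_eq_empty_iff_subset] at hW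
    have hWP : W = P := Finset.Subset.antisymm hW hPW
    subst hWP
    refine ⟨ρ, fun _ _ => rfl, fun x hx hxn => absurd hx hxn, hρ, ?_⟩
    intro x hx _ hpx h
    rcases h with h | h
    · exact absurd hx h
    · exact absurd hpx h
  | succ m ih =>
    intro W hW hPW hWX hcl
    have hne : (W \ P).Nonempty := Finset.card_pos.mp (by omega)
    obtain ⟨x, hx, hmax⟩ := Finset.exists_max_image (W \ P) S.r hne
    rw [mem_sdiff] at hx
    have hxc : x ≠ S.c := fun h => hx.2 (h ▸ hcP)
    have hpne : ∀ z ∈ W, z ∉ P → S.p z ≠ x := by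
      intro z hz hzP h
      have hzc : z ≠ S.c := fun h => hzP (h ▸ hcP)
      have h1 := S.lt z hzc
      rw [h] at h1
      have h2 := hmax z (mem_sdiff.mpr ⟨hz, hzP⟩)
      omega
    have hpxx : S.p x ≠ x := hpne x hx.1 hx.2
    have hPW' : P ⊆ W.erase x := by
      intro z hz
      rw [mem_erase]
      exact ⟨fun h => hx.2 (h ▸ hz), hPW hz⟩
    have hsd : W.erase x \ P = (W \ P).erase x := by
      ext z
      simp only [mem_sdiff, mem_erase]
      tauto
    have hcardW' : (W.erase x \ P).card = m := by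
      rw [hsd, Finset.card_erase_of_mem (mem_sdiff.mpr hx), hW]
      rfl
    have hcl' : ∀ z ∈ W.erase x, z ∉ P → S.p z ∈ W.erase x := by
      intro z hz hzP
      rw [mem_erase] at hz
      rw [mem_erase]
      exact ⟨hpne z hz.2 hzP, hcl z hz.2 hzP⟩
    obtain ⟨φ, hφP, hφY, hφi, hφo⟩ := ih (W.erase x) hcardW' hPW'
      ((Finset.erase_subset _ _).trans hWX) hcl'
    have hpxW : S.p x ∈ W.erase x := mem_erase.mpr ⟨hpxx, hcl x hx.1 hx.2⟩
    set A : Finset V := insert (φ (S.p x))
      ((P.filter fun y => y ≠ S.c ∧ S.p y = x).image ρ) with hA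
    have hAcard : A.card ≤ k + 1 := by
      refine (Finset.card_insert_le _ _).trans ?_
      have h1 : ((P.filter fun y => y ≠ S.c ∧ S.p y = x).image ρ).card ≤
          (P.filter fun y => y ≠ S.c ∧ S.p y = x).card := Finset.card_image_le
      have h2 : (P.filter fun y => y ≠ S.c ∧ S.p y = x).card ≤ k := hk x (hWX hx.1) hx.2
      omega
    have hAmem : ∀ a ∈ A, a ∈ Y ∨ a ∈ P.image ρ := by
      intro a ha
      rw [hA, mem_insert] at ha
      rcases ha with ha | ha
      · by_cases hp : S.p x ∈ P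
        · right
          rw [ha, hφP _ hp]
          exact mem_image_of_mem ρ hp
        · left
          rw [ha]
          exact hφY _ hpxW hp
      · right
        exact Finset.image_subset_image (Finset.filter_subset _ _) ha
    have hcard := hdeg A hAcard hAmem
    have hlt : ((W.erase x \ P).image φ).card < (Y.filter fun y => ∀ a ∈ A, ok a y).card := by
      have h1 : ((W.erase x \ P).image φ).card ≤ (W.erase x \ P).card := Finset.card_image_le
      have h3 : (W \ P).card ≤ Xe.card := Finset.card_le_card (sdiff_subset.trans hWX)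
      omega
    obtain ⟨y, hy, hy'⟩ := Finset.exists_mem_notMem_of_card_lt_card hlt
    rw [mem_filter] at hy
    have hup : ∀ z, z ≠ x → Function.update φ x y z = φ z := fun z hz =>
      Function.update_of_ne hz _ _
    have hux : Function.update φ x y x = y := Function.update_self _ _ _
    have hney : ∀ z ∈ W.erase x, φ z ≠ y := by
      intro z hz h
      by_cases hzP : z ∈ P
      · apply hρY z hzP
        rw [← hφP z hzP, h]
        exact hy.1
      · apply hy'
        rw [mem_image]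
        exact ⟨z, mem_sdiff.mpr ⟨hz, hzP⟩, h⟩
    refine ⟨Function.update φ x y, ?_, ?_, ?_, ?_⟩
    · intro z hz
      rw [hup z (fun h => hx.2 (h ▸ hz)), hφP z hz]
    · intro z hz hzP
      by_cases hzx : z = x
      · rw [hzx, hux]; exact hy.1
      · rw [hup z hzx]
        exact hφY z (mem_erase.mpr ⟨hzx, hz⟩) hzP
    · intro z hz w hw hzw
      rw [Finset.mem_coe] at hz hw
      by_cases hzx : z = x
      · by_cases hwx : w = x
        · rw [hzx, hwx]
        · rw [hzx, hux, hup w hwx] at hzw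
          exact absurd hzw.symm (hney w (mem_erase.mpr ⟨hwx, hw⟩))
      · by_cases hwx : w = x
        · rw [hwx, hux, hup z hzx] at hzw
          exact absurd hzw (hney z (mem_erase.mpr ⟨hzx, hz⟩))
        · rw [hup z hzx, hup w hwx] at hzw
          exact hφi (mem_coe.mpr (mem_erase.mpr ⟨hzx, hz⟩))
            (mem_coe.mpr (mem_erase.mpr ⟨hwx, hw⟩)) hzw
    · intro z hz hzc hpz h
      by_cases hzx : z = x
      · rw [hzx, hux, hup _ hpxx]
        exact hy.2 _ (by rw [hA]; exact mem_insert_self _ _)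
      · by_cases hpx : S.p z = x
        · have hzP : z ∈ P := by
            by_contra hzP
            exact hpne z hz hzP hpx
          rw [hpx, hux, hup z hzx, hφP z hzP]
          apply hsym
          apply hy.2
          rw [hA, mem_insert]
          right
          rw [mem_image]
          exact ⟨z, mem_filter.mpr ⟨hzP, hzc, hpx⟩, rfl⟩
        · rw [hup z hzx, hup _ hpx]
          exact hφo z (mem_erase.mpr ⟨hzx, hz⟩) hzc (mem_erase.mpr ⟨hpx, hpz⟩) h

end Pool.Agent.BC
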