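import Pool.Agent.Lib.MP_80c395_co_BC.Deg

/-!
# MP_80c395_co, project BC: good trees, degrees and loads
-/

set_option autoImplicit false

open Finset

namespace Pool.Agent.BC

open Pool.Agent.Lib.MP_80c395_co

section good
variable {V X : Type} [Fintype V] [DecidableEq V] [Fintype X] [DecidableEq X]
  {n R p0 t κ : ℕ} {U Pol : Finset V} {S : V → RT X} {Xe P : V → Finset X}
  {ρ : V → X → V} {Hst : V → Finset V} {OE : Finset (Sym2 V)} {Q : Finset V}
  {φ : V → X → V}

theorem GoodDeg.card_le (H : GHyp n R p0 t κ U Pol S Xe P ρ Hst OE)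
    (G : GSt κ U S Xe P ρ Hst OE Q φ) (hQ : Q ⊆ U) {v : V} (hv : v ∈ Q) :
    (edg (S v) (Xe v) (φ v)).card ≤ κ := by
  have h1 := card_edg (H.clo v (hQ hv)) (G.inj v hv)
  have h2 := H.cXe v (hQ hv)
  omega

/-- few vertices have a large load -/
theorem card_ld (H : GHyp n R p0 t κ U Pol S Xe P ρ Hst OE)
    (G : GSt κ U S Xe P ρ Hst OE Q φ) (hQ : Q ⊆ U) :
    5 * (univ.filter fun y => 10 * κ < ld S Xe P φ Q y).card ≤ 2 * n + 1 := by
  have h1 : ∑ y, ld S Xe P φ Q y ≤ 2 * κ * (2 * n + 1) := by
    calc ∑ y, ld S Xe P φ Q y ≤ ∑ y, ∑ v ∈ Q, dgr (edg (S v) (Xe v) (φ v)) y := by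
          apply sum_le_sum
          intro y _
          unfold ld
          exact sum_le_sum_of_subset (filter_subset _ _)
      _ = ∑ v ∈ Q, ∑ y, dgr (edg (S v) (Xe v) (φ v)) y := sum_comm
      _ ≤ ∑ v ∈ Q, 2 * κ := by
          apply sum_le_sum
          intro v hv
          exact (sum_dgr _).trans (Nat.mul_le_mul_left 2 (GoodDeg.card_le H G hQ hv))
      _ = Q.card * (2 * κ) := by rw [sum_const, smul_eq_mul]
      _ ≤ (2 * n + 1) * (2 * κ) := by
          apply Nat.mul_le_mul_right
          rw [← H.cV]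
          exact card_le_univ Q
      _ = 2 * κ * (2 * n + 1) := by ring
  have h2 : (univ.filter fun y => 10 * κ < ld S Xe P φ Q y).card * (10 * κ) ≤
      ∑ y, ld S Xe P φ Q y := by
    calc (univ.filter fun y => 10 * κ < ld S Xe P φ Q y).card * (10 * κ)
        = ∑ y ∈ univ.filter (fun y => 10 * κ < ld S Xe P φ Q y), 10 * κ := by
          rw [sum_const, smul_eq_mul]
      _ ≤ ∑ y ∈ univ.filter (fun y => 10 * κ < ld S Xe P φ Q y), ld S Xe P φ Q y := by
          apply sum_le_sum
          intro y hy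
          rw [mem_filter] at hy
          exact hy.2.le
      _ ≤ ∑ y, ld S Xe P φ Q y := sum_le_sum_of_subset (filter_subset _ _)
  have h3 : (2 * κ) * (5 * (univ.filter fun y => 10 * κ < ld S Xe P φ Q y).card) ≤
      (2 * κ) * (2 * n + 1) := by
    calc (2 * κ) * (5 * (univ.filter fun y => 10 * κ < ld S Xe P φ Q y).card)
        = (univ.filter fun y => 10 * κ < ld S Xe P φ Q y).card * (10 * κ) := by ring
      _ ≤ _ := h2.trans h1
  have hκ := H.κ0
  exact Nat.le_of_mul_le_mul_left h3 (by omega)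

/-- degrees of the embedded good trees -/
theorem dgr_Edg_good (H : GHyp n R p0 t κ U Pol S Xe P ρ Hst OE)
    (G : GSt κ U S Xe P ρ Hst OE Q φ) (hQ : Q ⊆ U) (y : V) :
    dgr (Edg S Xe φ Q) y ≤ ld S Xe P φ Q y + R * κ + R ^ 2 := by
  have h1 : dgr (Edg S Xe φ Q) y ≤ ∑ v ∈ Q, dgr (edg (S v) (Xe v) (φ v)) y := dgr_biUnion _ _ _
  rw [← sum_filter_add_sum_filter_not Q (fun v => y ∈ (Xe v \ P v).image (φ v))] at h1
  have h2 : ∑ v ∈ Q.filter (fun v => y ∈ (Xe v \ P v).image (φ v)),
      dgr (edg (S v) (Xe v) (φ v)) y = ld S Xe P φ Q y := rfl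
  rw [h2] at h1
  obtain ⟨A, hA⟩ : ∃ A, A = U.filter (fun v => y ∈ Hst v) := ⟨_, rfl⟩
  obtain ⟨B, hB⟩ : ∃ B, B = U.filter (fun v => y ∈ (P v).image (ρ v) ∧ y ∉ Hst v) := ⟨_, rfl⟩
  have hAR : A.card ≤ R := by
    rw [hA]
    exact H.hcount y
  have hAB : A.card + B.card ≤ R + R ^ 2 := by
    have hdis : Disjoint A B := by
      rw [disjoint_left]
      intro v hv hv'
      rw [hA, mem_filter] at hv
      rw [hB, mem_filter] at hv'
      exact hv'.2.2 hv.2
    rw [← card_union_of_disjoint hdis]
    refine le_trans (card_le_card ?_) (H.pcount y)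
    intro v hv
    rw [mem_union, hA, hB, mem_filter, mem_filter] at hv
    rw [mem_filter]
    rcases hv with hv | hv
    · exact ⟨hv.1, H.hsub v hv.1 hv.2⟩
    · exact ⟨hv.1, hv.2.1⟩
  have h3 : ∑ v ∈ Q.filter (fun v => ¬ y ∈ (Xe v \ P v).image (φ v)),
      dgr (edg (S v) (Xe v) (φ v)) y ≤ κ * A.card + B.card := by
    calc ∑ v ∈ Q.filter (fun v => ¬ y ∈ (Xe v \ P v).image (φ v)),
        dgr (edg (S v) (Xe v) (φ v)) y
        ≤ ∑ v ∈ Q.filter (fun v => ¬ y ∈ (Xe v \ P v).image (φ v)),
          ((if v ∈ A then κ else 0) + (if v ∈ B then 1 else 0)) := by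
          apply sum_le_sum
          intro v hv
          rw [mem_filter] at hv
          obtain ⟨hvQ, hvn⟩ := hv
          have hvU := hQ hvQ
          by_cases hH : y ∈ Hst v
          · have hvA : v ∈ A := by
              rw [hA, mem_filter]
              exact ⟨hvU, hH⟩
            rw [if_pos hvA]
            exact le_trans ((dgr_le_card y).trans (GoodDeg.card_le H G hQ hvQ))
              (Nat.le_add_right _ _)
          · by_cases hP : y ∈ (P v).image (ρ v)
            · have hvB : v ∈ B := by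
                rw [hB, mem_filter]
                exact ⟨hvU, hP, hH⟩
              rw [if_pos hvB]
              rw [mem_image] at hP
              obtain ⟨x, hx, rfl⟩ := hP
              have h4 := (H.leaf v hvU x hx hH).1
              have h5 := dgr_edg_le (H.clo v hvU) (G.inj v hvQ) (H.sub v hvU hx)
              rw [G.ext v hvU x hx, h4] at h5
              exact h5.trans (Nat.le_add_left _ _)
            · have h6 : ∀ x ∈ Xe v, φ v x ≠ y := by
                intro x hx hxy
                by_cases hxP : x ∈ P v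
                · apply hP
                  rw [mem_image]
                  exact ⟨x, hxP, by rw [← G.ext v hvU x hxP]; exact hxy⟩
                · apply hvn
                  rw [mem_image]
                  exact ⟨x, mem_sdiff.mpr ⟨hx, hxP⟩, hxy⟩
              rw [dgr_edg_zero (H.clo v hvU) h6]
              exact Nat.zero_le _
      _ ≤ ∑ v, ((if v ∈ A then κ else 0) + (if v ∈ B then 1 else 0)) :=
          sum_le_sum_of_subset (subset_univ _)
      _ = κ * A.card + B.card := by
          rw [sum_add_distrib, sum_ite_mem, sum_ite_mem, univ_inter, univ_inter, sum_const,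
            sum_const, smul_eq_mul, smul_eq_mul, mul_one, mul_comm]
  have h7 : κ * A.card + B.card ≤ R * κ + R ^ 2 := by
    obtain ⟨κ', hκ'⟩ : ∃ κ', κ = κ' + 1 := ⟨κ - 1, by have := H.κ0; omega⟩
    have h8 : κ' * A.card ≤ κ' * R := Nat.mul_le_mul_left _ hAR
    rw [hκ']
    nlinarith
  omega

/-- number of good trees which meet `y` -/
theorem card_img_good (H : GHyp n R p0 t κ U Pol S Xe P ρ Hst OE)
    (G : GSt κ U S Xe P ρ Hst OE Q φ) (hQ : Q ⊆ U) (y : V) :
    (U.filter fun u => y ∈ (cur Xe P Q u).image (φ u)).card ≤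
      ld S Xe P φ Q y + R + R ^ 2 := by
  have h1 : (U.filter fun u => y ∈ (cur Xe P Q u).image (φ u)) ⊆
      (Q.filter fun v => y ∈ (Xe v \ P v).image (φ v)) ∪
        (U.filter fun v => y ∈ (P v).image (ρ v)) := by
    intro u hu
    rw [mem_filter, mem_image] at hu
    obtain ⟨huU, x, hx, hxy⟩ := hu
    rw [mem_union, mem_filter, mem_filter]
    by_cases hxP : x ∈ P u
    · right
      refine ⟨huU, ?_⟩
      rw [mem_image]
      exact ⟨x, hxP, by rw [← G.ext u huU x hxP]; exact hxy⟩
    · left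
      unfold cur at hx
      by_cases huQ : u ∈ Q
      · rw [if_pos huQ] at hx
        refine ⟨huQ, ?_⟩
        rw [mem_image]
        exact ⟨x, mem_sdiff.mpr ⟨hx, hxP⟩, hxy⟩
      · rw [if_neg huQ] at hx
        exact absurd hx hxP
  have h2 : (Q.filter fun v => y ∈ (Xe v \ P v).image (φ v)).card ≤ ld S Xe P φ Q y := by
    unfold ld
    rw [card_eq_sum_ones]
    apply sum_le_sum
    intro v hv
    rw [mem_filter, mem_image] at hv
    obtain ⟨hvQ, x, hx, hxy⟩ := hv
    rw [mem_sdiff] at hx
    have hxc : x ≠ (S v).c := by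
      intro h
      apply hx.2
      rw [h]
      exact H.root v (hQ hvQ)
    have h3 := dgr_edg_pos (φ := φ v) (H.clo v (hQ hvQ)) hx.1 hxc
    rw [hxy] at h3
    exact h3
  have h3 := (card_le_card h1).trans (card_union_le _ _)
  have h4 := H.pcount y
  omega

end good

end Pool.Agent.BC
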