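import Pool.Agent.Lib.MP_80c395_co_BC.GoodStep
import Pool.Agent.Lib.MP_80c395_co_BC.GoodDeg

/-!
# MP_80c395_co, project BC: embedding of the good trees
-/

set_option autoImplicit false

open Finset

namespace Pool.Agent.BC

open Pool.Agent.Lib.MP_80c395_co

section good
variable {V X : Type} [Fintype V] [DecidableEq V] [Fintype X] [DecidableEq X]
  {n R p0 t κ : ℕ} {U Pol : Finset V} {S : V → RT X} {Xe P : V → Finset X}
  {ρ : V → X → V} {Hst : V → Finset V} {OE : Finset (Sym2 V)} {Q : Finset V}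
  {φ : V → X → V}

private theorem good_start (H : GHyp n R p0 t κ U Pol S Xe P ρ Hst OE) :
    GSt κ U S Xe P ρ Hst OE ∅ ρ where
  ext := fun _ _ _ _ => rfl
  inj := fun v hv => absurd hv (notMem_empty v)
  inU := fun v hv => absurd hv (notMem_empty v)
  dst := fun v hv => absurd hv (notMem_empty v)
  out := by
    intro ed hed
    simp [Edg] at hed
  npe := fun v hv => absurd hv (notMem_empty v)
  conf := by
    intro u hu v hv huv a ha b hb hab h1 h2
    have e1 : cur Xe P ∅ v = P v := by simp [cur]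
    have e2 : cur Xe P ∅ u = P u := by simp [cur]
    rw [e1] at h1
    rw [e2] at h2
    exact mem_union_right _ (H.conf u hu v hv huv a ha b hb hab h1 h2)
  load := by
    intro y
    simp [ld]

private theorem good_all (H : GHyp n R p0 t κ U Pol S Xe P ρ Hst OE) (Q : Finset V) :
    Q ⊆ U → ∃ φ : V → X → V, GSt κ U S Xe P ρ Hst OE Q φ := by
  induction Q using Finset.induction_on with
  | empty => exact fun _ => ⟨ρ, good_start H⟩
  | insert v Q hvQ ih =>
    intro hQ
    have hQ' : Q ⊆ U := fun x hx => hQ (mem_insert_of_mem hx)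
    obtain ⟨φ, G⟩ := ih hQ'
    exact good_step H G hQ' (hQ (mem_insert_self v Q)) hvQ

theorem embed_good (H : GHyp n R p0 t κ U Pol S Xe P ρ Hst OE) :
    ∃ φ : V → X → V, (∀ v ∈ U, ∀ x ∈ P v, φ v x = ρ v x) ∧
      (∀ v ∈ U, Set.InjOn (φ v) (Xe v)) ∧
      (∀ v ∈ U, ∀ x ∈ Xe v, φ v x ∈ U) ∧
      Dst S Xe φ U ∧ (∀ ed ∈ Edg S Xe φ U, ed ∉ OE) ∧
      (∀ u ∈ U, ∀ v ∈ U, u ≠ v → ∀ a ∈ Hst u, ∀ b ∈ Hst v, a ≠ b →
        a ∈ (Xe v).image (φ v) → b ∈ (Xe u).image (φ u) → s(a, b) ∈ Edg S Xe φ U) ∧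
      (∀ y, dgr (Edg S Xe φ U) y ≤ (R + 11) * κ + R ^ 2) ∧
      (∀ y, (U.filter fun v => y ∈ (Xe v).image (φ v)).card ≤ 11 * κ + R + R ^ 2) := by
  obtain ⟨φ, G⟩ := good_all H U (Subset.refl U)
  refine ⟨φ, G.ext, G.inj, G.inU, G.dst, G.out, ?_, ?_, ?_⟩
  · intro u hu v hv huv a ha b hb hab h1 h2
    have e1 : cur Xe P U v = Xe v := by simp [cur, hv]
    have e2 : cur Xe P U u = Xe u := by simp [cur, hu]
    have h := G.conf u hu v hv huv a ha b hb hab (by rwa [e1]) (by rwa [e2])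
    rcases mem_union.1 h with h | h
    · exact h
    · simp only [PE, mem_biUnion, mem_image, mem_filter] at h
      obtain ⟨w, hw, x, ⟨hx, hxc, hpx⟩, hE⟩ := h
      simp only [Edg, edg, mem_biUnion, mem_image, mem_erase]
      refine ⟨w, hw, x, ⟨hxc, H.sub w hw hx⟩, ?_⟩
      rw [G.ext w hw x hx, G.ext w hw _ hpx, hE]
  · intro y
    have h1 := dgr_Edg_good H G (Subset.refl U) y
    have h2 := G.load y
    nlinarith
  · intro y
    have h1 := card_img_good H G (Subset.refl U) y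
    have h2 := G.load y
    have e : (U.filter fun v => y ∈ (Xe v).image (φ v)) =
        U.filter fun u => y ∈ (cur Xe P U u).image (φ u) := by
      apply filter_congr
      intro v hv
      simp [cur, hv]
    rw [e]
    omega

end good

end Pool.Agent.BC
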