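import Pool.Agent.Lib.MP_80c395_co_BC.DatFacts

/-!
# MP_80c395_co, project BC: prescribed vertices and positions
-/

set_option autoImplicit false

open Finset

namespace Pool.Agent.BC

open Pool.Agent.Lib.MP_80c395_co

section dat
variable {V X : Type} [Fintype V] [DecidableEq V] [Fintype X] [DecidableEq X] {R : ℕ}
  {n κ p0 e : ℕ} {S : V → RT X} {c : V → Fin R → X} {lv rem : V → Fin R → Finset X}
  {i0 : V → Fin R} {U : Finset V} {π : Equiv.Perm V} {P : V → Finset X} {ρ : V → X → V}
  {l : V → Fin R → Fin R → X}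

theorem exists_pre (D : Dat n κ p0 e S c lv rem i0 U π) :
    ∃ (P : V → Finset X) (ρ : V → X → V) (l : V → Fin R → Fin R → X),
      Pre S c lv rem U π P ρ l := by
  classical
  have key : ∀ (v : V) (j : Fin R), ∃ f : Fin R → X, v ∈ U → (rem v j).Nonempty →
      Function.Injective f ∧ ∀ i, f i ∈ lv v j ∧ f i ∉ rem v j := by
    intro v j
    by_cases h : v ∈ U ∧ (rem v j).Nonempty
    · have h1 : Fintype.card (Fin R) ≤ (lv v j \ rem v j).card := by
        rw [Fintype.card_fin]
        exact D.spare v h.1 j h.2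
      obtain ⟨g, hg, hinj⟩ : ∃ g : Fin R → X, (∀ i, g i ∈ lv v j \ rem v j) ∧
          Function.Injective g := by
        rw [← Fintype.card_coe] at h1
        obtain ⟨g⟩ := Function.Embedding.nonempty_of_card_le h1
        exact ⟨fun i => (g i : X), fun i => (g i).2,
          fun a b hab => g.injective (Subtype.ext hab)⟩
      refine ⟨g, fun _ _ => ⟨hinj, fun i => ?_⟩⟩
      exact Finset.mem_sdiff.1 (hg i)
    · exact ⟨fun _ => (S v).c, fun h1 h2 => absurd ⟨h1, h2⟩ h⟩
  choose f hf using key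
  have ml : ∀ v ∈ U, ∀ i j, chd S c rem π v i j → f v j i ∈ lv v j ∧ f v j i ∉ rem v j :=
    fun v hv i j hc => (hf v j hv hc.2.2.1).2 i
  refine ⟨fun v => univ.filter fun x => (∃ i, (rem v i).Nonempty ∧ x = c v i) ∨
      ∃ i j, chd S c rem π v i j ∧ x = f v j i,
    fun v x => if h : ∃ i, (rem v i).Nonempty ∧ x = c v i then hp π v h.choose
      else if h : ∃ a : Fin R × Fin R, chd S c rem π v a.1 a.2 ∧ x = f v a.2 a.1 then
        cp π v h.choose.1 h.choose.2 else v,
    fun v i j => f v j i, ?_, ?_, ?_, ml⟩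
  · intro v _ x
    simp only [Finset.mem_filter, Finset.mem_univ, true_and]
  · intro v _ i hi
    have h : ∃ i', (rem v i').Nonempty ∧ c v i = c v i' := ⟨i, hi, rfl⟩
    simp only [dif_pos h]
    rw [← D.cinj v h.choose_spec.2]
  · intro v hv i j hc
    have hn : ¬ ∃ i', (rem v i').Nonempty ∧ f v j i = c v i' := by
      rintro ⟨i', _, hi'⟩
      exact D.lv_nc v j _ (ml v hv i j hc).1 i' hi'.symm
    have h : ∃ a : Fin R × Fin R, chd S c rem π v a.1 a.2 ∧ f v j i = f v a.2 a.1 :=
      ⟨(i, j), hc, rfl⟩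
    simp only [dif_neg hn, dif_pos h]
    have h1 := h.choose_spec
    generalize h.choose = a at h1 ⊢
    have h5 : f v j i ∈ lv v a.2 := by
      rw [h1.2]
      exact (ml v hv _ _ h1.1).1
    have h2 : j = a.2 := lv_disj D (ml v hv i j hc).1 h5
    have h3 : i = a.1 := by
      have h4 : f v j i = f v j a.1 := h1.2.trans (by rw [← h2])
      exact (hf v j hv hc.2.2.1).1 h4
    rw [← h2, ← h3]

end dat

end Pool.Agent.BC
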