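import Pool.Agent.Lib.MP_80c395_co_BC.EmbedOne
import Pool.Agent.Lib.MP_80c395_co_BC.Deg

/-!
# MP_80c395_co, project BC: embedding of the exceptional trees
-/

set_option autoImplicit false

open Finset

namespace Pool.Agent.BC

open Pool.Agent.Lib.MP_80c395_co

private theorem exc_dgr_one {V X : Type} [Fintype V] [DecidableEq V] [Fintype X] [DecidableEq X]
    {R e : ℕ} (S : RT X) (Xe : Finset X) (φ : X → V) (c : Fin R → X) (a : V)
    (hclo : Clo S Xe) (hinj : Set.InjOn φ Xe)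
    (hn : ∀ x ∈ Xe, (∀ i, c i ≠ x) → nch S Xe x ≤ e + R)
    (ha : ∀ i, φ (c i) ≠ a) : dgr (edg S Xe φ) a ≤ e + R + 1 := by
  by_cases h : ∃ x ∈ Xe, φ x = a
  · obtain ⟨x, hx, rfl⟩ := h
    have h1 : ∀ i, c i ≠ x := fun i hi => ha i (by rw [hi])
    have h2 := dgr_edg_le hclo hinj hx
    have h3 := hn x hx h1
    omega
  · have h' : ∀ x ∈ Xe, φ x ≠ a := fun x hx hxa => h ⟨x, hx, hxa⟩
    rw [dgr_edg_zero hclo h']
    omega

private theorem exc_step {V X : Type} [Fintype V] [DecidableEq V] [Fintype X] [DecidableEq X]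
    (n R p0 e : ℕ) (hV : Fintype.card V = 2 * n + 1) (hX : Fintype.card X = n + 1)
    (Z : Finset V) (hZ : R * Z.card ≤ p0) (S : V → RT X) (c : V → Fin R → X) (i0 : V → Fin R)
    (Xe : V → Finset X) (pt : V → Fin R → V) (FF : Finset (Sym2 V))
    (hnum : 100 * ((R + 1) * (p0 * (e + R + 1) + 2 * R ^ 2 + p0 + 1)) ≤ n)
    (hroot : ∀ z ∈ Z, (S z).c = c z (i0 z)) (hc : ∀ z ∈ Z, Function.Injective (c z))
    (hcX : ∀ z ∈ Z, ∀ i, c z i ∈ Xe z) (hclo : ∀ z ∈ Z, Clo (S z) (Xe z))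
    (hnch : ∀ z ∈ Z, ∀ x ∈ Xe z, (∀ i, c z i ≠ x) → nch (S z) (Xe z) x ≤ e + R)
    (hpt : ∀ z ∈ Z, ∀ z' ∈ Z, ∀ i i', pt z i = pt z' i' → z = z' ∧ i = i')
    (hFF : ∀ y, dgr FF y ≤ 2 * R ^ 2)
    (φ : V → X → V) (Q : Finset V) (hQ : Q ⊆ Z) (z : V) (hz : z ∈ Z) (hzQ : z ∉ Q)
    (h1 : ∀ w ∈ Q, ∀ i, φ w (c w i) = pt w i) (h2 : ∀ w ∈ Q, Set.InjOn (φ w) (Xe w)) :
    ∃ ψ : X → V, (∀ i, ψ (c z i) = pt z i) ∧ Set.InjOn ψ (Xe z) ∧
      (∀ x ∈ Xe z, (∀ i, c z i ≠ x) → ψ x ∉ Z ∧ ∀ z' ∈ Z, ∀ i, ψ x ≠ pt z' i) ∧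
      ∀ x ∈ Xe z, x ≠ (S z).c → ((∀ i, c z i ≠ x) ∨ (∀ i, c z i ≠ (S z).p x)) →
        s(ψ ((S z).p x), ψ x) ∉ FF ∧ s(ψ ((S z).p x), ψ x) ∉ Edg S Xe φ Q := by
  classical
  have hR : 0 < R := lt_of_le_of_lt (Nat.zero_le _) (i0 z).isLt
  have hZc : Z.card ≤ p0 := le_trans (Nat.le_mul_of_pos_left _ hR) hZ
  have hQc : Q.card ≤ p0 := le_trans (card_le_card hQ) hZc
  set E : Finset (Sym2 V) := FF ∪ Edg S Xe φ Q with hE
  set P : Finset X := univ.image (c z) with hP
  have hPmem : ∀ x, x ∈ P ↔ ∃ i, c z i = x := by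
    intro x
    simp [hP]
  have hPn : ∀ x, x ∉ P ↔ ∀ i, c z i ≠ x := by
    intro x
    rw [hPmem]
    exact ⟨fun h i hi => h ⟨i, hi⟩, fun h ⟨i, hi⟩ => h i hi⟩
  have hPcard : P.card ≤ R := by
    calc P.card ≤ (univ : Finset (Fin R)).card := card_image_le
      _ = R := by simp
  set ρ : X → V := Function.extend (c z) (pt z) (fun _ => z) with hρdef
  have hρ : ∀ i, ρ (c z i) = pt z i := fun i => (hc z hz).extend_apply _ _ i
  set Y : Finset V := univ.filter (fun y => y ∉ Z ∧ ∀ z' ∈ Z, ∀ i, y ≠ pt z' i) with hY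
  have hYmem : ∀ y, y ∈ Y ↔ (y ∉ Z ∧ ∀ z' ∈ Z, ∀ i, y ≠ pt z' i) := by
    intro y
    simp [hY]
  -- degree bound
  have hdg : ∀ a, (a ∈ Y ∨ a ∈ P.image ρ) → dgr E a ≤ 2 * R ^ 2 + p0 * (e + R + 1) := by
    intro a ha
    have h3 : dgr (Edg S Xe φ Q) a ≤ Q.card * (e + R + 1) := by
      unfold Edg
      refine le_trans (dgr_biUnion _ _ _) ?_
      rw [← smul_eq_mul]
      refine sum_le_card_nsmul _ _ _ ?_
      intro w hw
      refine exc_dgr_one (S w) (Xe w) (φ w) (c w) a (hclo w (hQ hw)) (h2 w hw)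
        (hnch w (hQ hw)) ?_
      intro i hi
      rw [h1 w hw i] at hi
      rcases ha with ha | ha
      · exact ((hYmem a).1 ha).2 w (hQ hw) i hi.symm
      · obtain ⟨x, hx, hxa⟩ := mem_image.1 ha
        obtain ⟨j, hj⟩ := (hPmem x).1 hx
        rw [← hj, hρ j, ← hi] at hxa
        have := (hpt z hz w (hQ hw) j i hxa).1
        exact hzQ (this ▸ hw)
    have h4 : Q.card * (e + R + 1) ≤ p0 * (e + R + 1) := Nat.mul_le_mul_right _ hQc
    have h5 := dgr_union FF (Edg S Xe φ Q) a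
    have h6 := hFF a
    rw [hE]
    omega
  -- complement of Y
  have hYc : (univ \ Y).card ≤ 2 * p0 := by
    have h3 : univ \ Y ⊆ Z ∪ (Z ×ˢ (univ : Finset (Fin R))).image (fun a => pt a.1 a.2) := by
      intro y hy
      have hy' : y ∉ Y := (mem_sdiff.1 hy).2
      rw [hYmem] at hy'
      by_cases hyZ : y ∈ Z
      · exact mem_union_left _ hyZ
      · apply mem_union_right
        have : ¬ ∀ z' ∈ Z, ∀ i, y ≠ pt z' i := fun h => hy' ⟨hyZ, h⟩
        push Not at this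
        obtain ⟨z', hz', i, hi⟩ := this
        exact mem_image.2 ⟨(z', i), mem_product.2 ⟨hz', mem_univ _⟩, hi.symm⟩
    have h4 : (Z ∪ (Z ×ˢ (univ : Finset (Fin R))).image (fun a => pt a.1 a.2)).card ≤
        Z.card + Z.card * R := by
      refine le_trans (card_union_le _ _) ?_
      refine Nat.add_le_add_left ?_ _
      refine le_trans card_image_le ?_
      rw [card_product]
      simp
    have h5 := le_trans (card_le_card h3) h4
    have h6 : Z.card * R ≤ p0 := by rw [Nat.mul_comm]; exact hZ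
    omega
  obtain ⟨ψ, q1, q2, q3, q4⟩ := embed_one (S z) (Xe z) P ρ Y (fun a y => s(a, y) ∉ E)
    (fun a b h => by rw [Sym2.eq_swap]; exact h) R
    (by rw [hroot z hz, hPmem]; exact ⟨_, rfl⟩)
    (by intro x hx; obtain ⟨i, rfl⟩ := (hPmem x).1 hx; exact hcX z hz i)
    (hclo z hz)
    (by
      intro x hx y hy hxy
      obtain ⟨i, rfl⟩ := (hPmem x).1 hx
      obtain ⟨j, rfl⟩ := (hPmem y).1 hy
      rw [hρ, hρ] at hxy
      rw [(hpt z hz z hz i j hxy).2])
    (by
      intro x hx hxY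
      obtain ⟨i, rfl⟩ := (hPmem x).1 hx
      rw [hρ, hYmem] at hxY
      exact hxY.2 z hz i rfl)
    (by
      intro x _ _
      unfold nch
      exact le_trans (card_le_card (filter_subset _ _)) hPcard)
    (by
      intro A hA hAY
      have g1 : (Xe z).card ≤ n + 1 := by rw [← hX]; exact card_le_univ _
      have g2 : (univ : Finset V) ⊆ (Y.filter fun y => ∀ a ∈ A, s(a, y) ∉ E) ∪
          ((univ \ Y) ∪ A.biUnion fun a => univ.filter fun y => s(a, y) ∈ E) := by
        intro y _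
        by_cases hy : y ∈ Y
        · by_cases hyA : ∀ a ∈ A, s(a, y) ∉ E
          · exact mem_union_left _ (mem_filter.2 ⟨hy, hyA⟩)
          · push Not at hyA
            obtain ⟨a, ha, haE⟩ := hyA
            exact mem_union_right _ (mem_union_right _ (mem_biUnion.2
              ⟨a, ha, mem_filter.2 ⟨mem_univ _, haE⟩⟩))
        · exact mem_union_right _ (mem_union_left _ (mem_sdiff.2 ⟨mem_univ _, hy⟩))
      have g3 := card_le_card g2
      rw [card_univ, hV] at g3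
      have g4 := card_union_le (Y.filter fun y => ∀ a ∈ A, s(a, y) ∉ E)
          ((univ \ Y) ∪ A.biUnion fun a => univ.filter fun y => s(a, y) ∈ E)
      have g5 := card_union_le (univ \ Y) (A.biUnion fun a => univ.filter fun y => s(a, y) ∈ E)
      have g6 : (A.biUnion fun a => univ.filter fun y => s(a, y) ∈ E).card ≤
          A.card * (2 * R ^ 2 + p0 * (e + R + 1)) := by
        refine card_biUnion_le_card_mul _ _ _ ?_
        intro a ha
        exact hdg a (hAY a ha)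
      have g7 : A.card * (2 * R ^ 2 + p0 * (e + R + 1)) ≤
          (R + 1) * (2 * R ^ 2 + p0 * (e + R + 1)) := Nat.mul_le_mul_right _ hA
      have g8 : 2 * p0 + (R + 1) * (2 * R ^ 2 + p0 * (e + R + 1)) ≤ n := by
        refine le_trans ?_ hnum
        have : 2 * p0 ≤ 2 * ((R + 1) * p0) := by nlinarith [Nat.zero_le (R * p0)]
        have e1 : (R + 1) * (p0 * (e + R + 1) + 2 * R ^ 2 + p0 + 1) =
            (R + 1) * (2 * R ^ 2 + p0 * (e + R + 1)) + (R + 1) * p0 + (R + 1) := by ring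
        rw [e1]
        omega
      omega)
  refine ⟨ψ, ?_, q3, ?_, ?_⟩
  · intro i
    rw [q1 (c z i) ((hPmem _).2 ⟨i, rfl⟩), hρ]
  · intro x hx hxc
    exact (hYmem _).1 (q2 x hx ((hPn x).2 hxc))
  · intro x hx hxc hor
    have h3 : x ∉ P ∨ (S z).p x ∉ P := by
      rcases hor with h | h
      · exact Or.inl ((hPn _).2 h)
      · exact Or.inr ((hPn _).2 h)
    have h4 := q4 x hx hxc h3
    rw [hE, mem_union, not_or] at h4
    exact h4

theorem embed_exc {V X : Type} [Fintype V] [DecidableEq V] [Fintype X] [DecidableEq X]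
    (n R p0 e : ℕ) (hV : Fintype.card V = 2 * n + 1) (hX : Fintype.card X = n + 1)
    (Z : Finset V) (hZ : R * Z.card ≤ p0) (S : V → RT X) (c : V → Fin R → X) (i0 : V → Fin R)
    (Xe : V → Finset X) (pt : V → Fin R → V) (FF : Finset (Sym2 V))
    (hnum : 100 * ((R + 1) * (p0 * (e + R + 1) + 2 * R ^ 2 + p0 + 1)) ≤ n)
    (hroot : ∀ z ∈ Z, (S z).c = c z (i0 z)) (hc : ∀ z ∈ Z, Function.Injective (c z))
    (hcX : ∀ z ∈ Z, ∀ i, c z i ∈ Xe z) (hclo : ∀ z ∈ Z, Clo (S z) (Xe z))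
    (hnch : ∀ z ∈ Z, ∀ x ∈ Xe z, (∀ i, c z i ≠ x) → nch (S z) (Xe z) x ≤ e + R)
    (hpt0 : ∀ z ∈ Z, pt z (i0 z) = z) (hpt1 : ∀ z ∈ Z, ∀ i, i ≠ i0 z → pt z i ∉ Z)
    (hpt : ∀ z ∈ Z, ∀ z' ∈ Z, ∀ i i', pt z i = pt z' i' → z = z' ∧ i = i')
    (hptE : ∀ z ∈ Z, ∀ i j, i ≠ j → s(pt z i, pt z j) ∉ FF)
    (hFF : ∀ y, dgr FF y ≤ 2 * R ^ 2) :
    ∃ φ : V → X → V, (∀ z ∈ Z, ∀ i, φ z (c z i) = pt z i) ∧
      (∀ z ∈ Z, Set.InjOn (φ z) (Xe z)) ∧
      (∀ z ∈ Z, ∀ x ∈ Xe z, (∀ i, c z i ≠ x) → φ z x ∉ Z ∧ ∀ z' ∈ Z, ∀ i, φ z x ≠ pt z' i) ∧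
      Dst S Xe φ Z ∧ ∀ ed ∈ Edg S Xe φ Z, ed ∉ FF := by
  classical
  have main : ∀ Q : Finset V, Q ⊆ Z → ∃ φ : V → X → V, (∀ z ∈ Q, ∀ i, φ z (c z i) = pt z i) ∧
      (∀ z ∈ Q, Set.InjOn (φ z) (Xe z)) ∧
      (∀ z ∈ Q, ∀ x ∈ Xe z, (∀ i, c z i ≠ x) → φ z x ∉ Z ∧ ∀ z' ∈ Z, ∀ i, φ z x ≠ pt z' i) ∧
      Dst S Xe φ Q ∧ ∀ ed ∈ Edg S Xe φ Q, ed ∉ FF := by
    intro Q
    induction Q using Finset.induction_on with
    | empty =>
      intro _
      refine ⟨fun z _ => z, ?_, ?_, ?_, ?_, ?_⟩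
      · intro z hz; simp at hz
      · intro z hz; simp at hz
      · intro z hz; simp at hz
      · intro v hv; simp at hv
      · intro ed hed; simp [Edg] at hed
    | insert z Q hzQ ih =>
      intro hQ
      have hQZ : Q ⊆ Z := fun w hw => hQ (mem_insert_of_mem hw)
      have hz : z ∈ Z := hQ (mem_insert_self _ _)
      obtain ⟨φ, a1, a2, a3, a4, a5⟩ := ih hQZ
      obtain ⟨ψ, b1, b2, b3, b4⟩ := exc_step n R p0 e hV hX Z hZ S c i0 Xe pt FF hnum hroot hc
        hcX hclo hnch hpt hFF φ Q hQZ z hz hzQ a1 a2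
      have hne : ∀ w ∈ Q, w ≠ z := fun w hw h => hzQ (h ▸ hw)
      have u1 : ∀ w ∈ Q, Function.update φ z ψ w = φ w := fun w hw =>
        Function.update_of_ne (hne w hw) _ _
      have u2 : Function.update φ z ψ z = ψ := Function.update_self _ _ _
      have key : ∀ w ∈ Q, ∀ x ∈ Xe z, x ≠ (S z).c → ∀ y ∈ Xe w, y ≠ (S w).c →
          s(ψ ((S z).p x), ψ x) ≠ s(φ w ((S w).p y), φ w y) := by
        intro w hw x hx hxc y hy hyc heq
        by_cases hcc : (∀ i, c z i ≠ x) ∨ (∀ i, c z i ≠ (S z).p x)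
        · refine (b4 x hx hxc hcc).2 ?_
          rw [heq]
          unfold Edg
          exact mem_biUnion.2 ⟨w, hw, mem_image.2 ⟨y, mem_erase.2 ⟨hyc, hy⟩, rfl⟩⟩
        · push Not at hcc
          obtain ⟨⟨i, hi⟩, ⟨j, hj⟩⟩ := hcc
          rw [← hj, ← hi, b1, b1] at heq
          have hk : ∃ k, φ w y = pt z k := by
            have : φ w y ∈ s(φ w ((S w).p y), φ w y) := Sym2.mem_mk_right _ _
            rw [← heq, Sym2.mem_iff] at this
            rcases this with h | h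
            · exact ⟨_, h⟩
            · exact ⟨_, h⟩
          obtain ⟨k, hk⟩ := hk
          by_cases hyC : ∀ m, c w m ≠ y
          · exact (a3 w hw y hy hyC).2 z hz k hk
          · push Not at hyC
            obtain ⟨m, hm⟩ := hyC
            rw [← hm, a1 w hw m] at hk
            exact hne w hw (hpt w (hQZ hw) z hz m k hk).1
      refine ⟨Function.update φ z ψ, ?_, ?_, ?_, ?_, ?_⟩
      · intro w hw i
        rcases mem_insert.1 hw with h | h
        · subst h
          rw [u2]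
          exact b1 i
        · rw [u1 w h]
          exact a1 w h i
      · intro w hw
        rcases mem_insert.1 hw with h | h
        · subst h
          rw [u2]
          exact b2
        · rw [u1 w h]
          exact a2 w h
      · intro w hw
        rcases mem_insert.1 hw with h | h
        · subst h
          rw [u2]
          exact b3
        · rw [u1 w h]
          exact a3 w h
      · intro v hv w hw x hx hxc y hy hyc heq
        rcases mem_insert.1 hv with h | h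
        · rcases mem_insert.1 hw with h' | h'
          · subst h
            subst h'
            rw [u2] at heq
            exact ⟨rfl, edg_inj (hclo w hz) b2 hx hxc hy hyc heq⟩
          · subst h
            rw [u2, u1 w h'] at heq
            exact absurd heq (key w h' x hx hxc y hy hyc)
        · rcases mem_insert.1 hw with h' | h'
          · subst h'
            rw [u2, u1 v h] at heq
            exact absurd heq.symm (key v h y hy hyc x hx hxc)
          · rw [u1 v h, u1 w h'] at heq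
            exact a4 v h w h' x hx hxc y hy hyc heq
      · intro ed hed
        unfold Edg at hed
        obtain ⟨w, hw, hwe⟩ := mem_biUnion.1 hed
        rcases mem_insert.1 hw with h | h
        · subst h
          rw [u2] at hwe
          obtain ⟨x, hx, rfl⟩ := mem_image.1 hwe
          obtain ⟨hxc, hx⟩ := mem_erase.1 hx
          by_cases hcc : (∀ i, c w i ≠ x) ∨ (∀ i, c w i ≠ (S w).p x)
          · exact (b4 x hx hxc hcc).1
          · push Not at hcc
            obtain ⟨⟨i, hi⟩, ⟨j, hj⟩⟩ := hcc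
            have hji : j ≠ i := by
              intro hji
              refine RT.p_ne hxc ?_
              rw [← hj, hji, hi]
            have := hptE w hz j i hji
            rw [← b1 j, ← b1 i, hj, hi] at this
            exact this
        · rw [u1 w h] at hwe
          refine a5 ed ?_
          unfold Edg
          exact mem_biUnion.2 ⟨w, h, hwe⟩
  exact main Z (Subset.refl Z)

end Pool.Agent.BC
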