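import Pool.Agent.Lib.MP_80c395_co_BC.DatFacts

/-!
# MP_80c395_co, project BC: positions of the removed leaves
-/

set_option autoImplicit false

open Finset

namespace Pool.Agent.BC

open Pool.Agent.Lib.MP_80c395_co

private theorem block_lt {R : ℕ} (f : Fin R → ℕ) {i i' : Fin R} (h : i < i') :
    ∑ j ∈ univ.filter (fun j => j < i), f j + f i ≤ ∑ j ∈ univ.filter (fun j => j < i'), f j := by
  classical
  have hi : i ∉ univ.filter (fun j : Fin R => j < i) := by simp
  rw [add_comm, ← Finset.sum_insert hi]
  apply Finset.sum_le_sum_of_subset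
  intro j hj
  rw [Finset.mem_insert, Finset.mem_filter] at hj
  rw [Finset.mem_filter]
  refine ⟨Finset.mem_univ _, ?_⟩
  rcases hj with hj | hj
  · rw [hj]; exact h
  · exact lt_trans hj.2 h

private theorem block_le {R : ℕ} (f : Fin R → ℕ) (i : Fin R) :
    ∑ j ∈ univ.filter (fun j => j < i), f j + f i ≤ ∑ j, f j := by
  classical
  have hi : i ∉ univ.filter (fun j : Fin R => j < i) := by simp
  rw [add_comm, ← Finset.sum_insert hi]
  apply Finset.sum_le_sum_of_subset
  intro j hj
  exact Finset.mem_univ _

private theorem block_eq {R : ℕ} (f : Fin R → ℕ) {i i' : Fin R} {a a' : ℕ} (ha : a < f i)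
    (ha' : a' < f i')
    (h : ∑ j ∈ univ.filter (fun j => j < i), f j + a =
      ∑ j ∈ univ.filter (fun j => j < i'), f j + a') : i = i' ∧ a = a' := by
  rcases lt_trichotomy i i' with hl | hl | hl
  · have := block_lt f hl
    omega
  · subst hl
    exact ⟨rfl, by omega⟩
  · have := block_lt f hl
    omega

section dat
variable {V X : Type} [Fintype V] [DecidableEq V] [Fintype X] [DecidableEq X] {R : ℕ}
  {n κ p0 e : ℕ} {S : V → RT X} {c : V → Fin R → X} {lv rem : V → Fin R → Finset X}
  {i0 : V → Fin R} {U : Finset V} {π : Equiv.Perm V} {P : V → Finset X} {ρ : V → X → V}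
  {l : V → Fin R → Fin R → X}

private theorem hst_card (D : Dat n κ p0 e S c lv rem i0 U π) (v : V) (i j : Fin R) :
    (rem (hst π U v i) j).card = (rem v j).card := by
  unfold hst
  split_ifs with hv
  · exact rem_zpow D hv _ j
  · rfl

theorem exists_pos (D : Dat n κ p0 e S c lv rem i0 U π) :
    ∃ pos : V → X → ℕ,
      (∀ v i x, x ∈ rem v i → pos v x < ∑ j, (rem (hst π U v i) j).card) ∧
      (∀ v v' i i' x x', x ∈ rem v i → x' ∈ rem v' i' → hst π U v i = hst π U v' i' →
        pos v x = pos v' x' → v = v' ∧ x = x') ∧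
      (∀ v i i' x x', x ∈ rem v i → x' ∈ rem v i' → pos v x = pos v x' → x = x') := by
  classical
  obtain ⟨idx, hlt, hinj⟩ : ∃ idx : V → Fin R → X → ℕ,
      (∀ v i x, x ∈ rem v i → idx v i x < (rem v i).card) ∧
      (∀ v i x x', x ∈ rem v i → x' ∈ rem v i → idx v i x = idx v i x' → x = x') := by
    refine ⟨fun v i x => if h : x ∈ rem v i then ((rem v i).equivFin ⟨x, h⟩ : ℕ) else 0, ?_, ?_⟩
    · intro v i x hx
      simp only [hx, dif_pos]
      exact Fin.is_lt _
    · intro v i x x' hx hx' h
      simp only [hx, hx', dif_pos] at h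
      have h2 := (rem v i).equivFin.injective (Fin.ext h)
      exact congrArg Subtype.val h2
  have hun : ∀ v (i j : Fin R) x, x ∈ rem v i → x ∈ rem v j → i = j := fun v i j x hi hj =>
    lv_disj D (D.sub v i hi) (D.sub v j hj)
  obtain ⟨pos, hpos⟩ : ∃ pos : V → X → ℕ, ∀ v i x, x ∈ rem v i →
      pos v x = ∑ j ∈ univ.filter (fun j => j < i), (rem v j).card + idx v i x := by
    refine ⟨fun v x => if h : ∃ i, x ∈ rem v i then
      ∑ j ∈ univ.filter (fun j => j < h.choose), (rem v j).card + idx v h.choose x else 0, ?_⟩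
    intro v i x hx
    have hex : ∃ i, x ∈ rem v i := ⟨i, hx⟩
    have hc : hex.choose = i := hun v _ _ x hex.choose_spec hx
    simp only [hex, dif_pos]
    rw [hc]
  have h3 : ∀ v i i' x x', x ∈ rem v i → x' ∈ rem v i' → pos v x = pos v x' → x = x' := by
    intro v i i' x x' hx hx' h
    rw [hpos v i x hx, hpos v i' x' hx'] at h
    obtain ⟨hi, ha⟩ := block_eq (fun j => (rem v j).card) (hlt v i x hx) (hlt v i' x' hx') h
    subst hi
    exact hinj v i x x' hx hx' ha
  refine ⟨pos, ?_, ?_, h3⟩
  · intro v i x hx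
    rw [Finset.sum_congr rfl fun j _ => hst_card D v i j, hpos v i x hx]
    have h1 : ∑ j ∈ univ.filter (fun j => j < i), (rem v j).card + (rem v i).card ≤
        ∑ j, (rem v j).card := block_le (fun j => (rem v j).card) i
    have h2 := hlt v i x hx
    omega
  · intro v v' i i' x x' hx hx' hh h
    have hcard : ∀ j, (rem v' j).card = (rem v j).card := by
      intro j
      rw [← hst_card D v i j, ← hst_card D v' i' j, hh]
    have h' := h
    rw [hpos v i x hx, hpos v' i' x' hx', Finset.sum_congr rfl fun j _ => hcard j] at h'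
    have hl' : idx v' i' x' < (rem v i').card := by rw [← hcard i']; exact hlt v' i' x' hx'
    obtain ⟨hi, ha⟩ := block_eq (fun j => (rem v j).card) (hlt v i x hx) hl' h'
    subst hi
    have hvv : v = v' := by
      by_cases hv : v ∈ U
      · by_cases hv' : v' ∈ U
        · unfold hst at hh
          rw [if_pos hv, if_pos hv'] at hh
          exact (π ^ ((9 : ℤ) ^ (i : ℕ))).injective hh
        · unfold hst at hh
          rw [if_pos hv, if_neg hv'] at hh
          exact absurd (hh ▸ inv_zpow D hv _) hv'
      · by_cases hv' : v' ∈ U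
        · unfold hst at hh
          rw [if_neg hv, if_pos hv'] at hh
          exact absurd (hh.symm ▸ inv_zpow D hv' _) hv
        · unfold hst at hh
          rw [if_neg hv, if_neg hv'] at hh
          exact hh
    subst hvv
    exact ⟨rfl, h3 v i i x x' hx hx' h⟩

end dat

end Pool.Agent.BC
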