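import Mathlib

/-!
# MP_80c395_co, project BC: the inequality for Hall's condition
-/

set_option autoImplicit false

open Finset

namespace Pool.Agent.BC

/-- Pairs `(v, w)` with `v ∈ B`, `w ∈ A v` against edges. -/
private theorem sum_card_le {V : Type} [Fintype V] [DecidableEq V] (A : V → Finset V)
    (hA : ∀ v w, w ∈ A v → w ≠ v) (B : Finset V) :
    ∑ v ∈ B, (A v).card ≤
      (B.biUnion fun v => (A v).image fun w => s(v, w)).card + B.card.choose 2 := by
  classical
  set E := B.biUnion fun v => (A v).image fun w => s(v, w) with hE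
  set EB : Finset (Sym2 V) := B.offDiag.image Sym2.mk.uncurry with hEB
  have hEBc : EB.card = B.card.choose 2 := by
    rw [hEB]
    exact Sym2.card_image_offDiag B
  have hD : ∑ v ∈ B, (A v).card = (B.sigma A).card := (Finset.card_sigma _ _).symm
  rw [hD, Finset.card_eq_sum_card_fiberwise (f := fun p : (Σ _ : V, V) => s(p.1, p.2)) (t := E)]
  · calc ∑ e ∈ E, #{p ∈ B.sigma A | s(p.1, p.2) = e}
        ≤ ∑ e ∈ E, (1 + if e ∈ EB then 1 else 0) := by
          apply Finset.sum_le_sum
          intro e _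
          by_cases he : e ∈ EB
          · rw [if_pos he]
            induction e using Sym2.ind with
            | _ a b =>
              calc #{p ∈ B.sigma A | s(p.1, p.2) = s(a, b)}
                  ≤ #({⟨a, b⟩, ⟨b, a⟩} : Finset (Σ _ : V, V)) := by
                    apply Finset.card_le_card
                    intro p hp
                    rw [Finset.mem_filter] at hp
                    obtain ⟨_, hp2⟩ := hp
                    obtain ⟨x, y⟩ := p
                    simp only [Sym2.eq_iff] at hp2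
                    rcases hp2 with ⟨rfl, rfl⟩ | ⟨rfl, rfl⟩ <;> simp
                _ ≤ 1 + 1 := Finset.card_le_two
          · rw [if_neg he, add_zero, Finset.card_le_one]
            rintro ⟨x, y⟩ hp ⟨x', y'⟩ hp'
            rw [Finset.mem_filter, Finset.mem_sigma] at hp hp'
            obtain ⟨⟨hx, hy⟩, h1⟩ := hp
            obtain ⟨⟨hx', hy'⟩, h2⟩ := hp'
            simp only at hx hy h1 hx' hy' h2
            have h3 : s(x, y) = s(x', y') := h1.trans h2.symm
            rw [Sym2.eq_iff] at h3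
            rcases h3 with ⟨rfl, rfl⟩ | ⟨rfl, rfl⟩
            · rfl
            · exfalso
              apply he
              rw [hEB, Finset.mem_image]
              refine ⟨(x, y), ?_, by simpa using h1⟩
              rw [Finset.mem_offDiag]
              exact ⟨hx, hx', fun h => hA _ _ hy h.symm⟩
      _ = E.card + (E.filter fun e => e ∈ EB).card := by
          rw [Finset.sum_add_distrib, Finset.sum_const, smul_eq_mul, mul_one,
            Finset.card_filter]
      _ ≤ E.card + B.card.choose 2 := by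
          rw [← hEBc]
          apply Nat.add_le_add_left
          apply Finset.card_le_card
          intro e he
          exact (Finset.mem_filter.1 he).2
  · intro p hp
    rw [Finset.mem_coe, Finset.mem_sigma] at hp
    rw [Finset.mem_coe, hE, Finset.mem_biUnion]
    exact ⟨p.1, hp.1, Finset.mem_image.2 ⟨p.2, hp.2, rfl⟩⟩

private theorem case_one {V : Type} [Fintype V] [DecidableEq V] (n R p0 : ℕ)
    (hR : 1 ≤ R) (hn : 1000 * R * (p0 + 1) ≤ n)
    (A : V → Finset V) (L : V → ℕ) (Pol : Finset V) (hPol : Pol.card ≤ p0)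
    (hA : ∀ v w, w ∈ A v → w ≠ v)
    (h1 : ∀ v, v ∉ Pol → 100 * L v + 99 * n ≤ 100 * (A v).card)
    (h2 : ∀ v ∈ Pol, 100 * L v + 39 * n ≤ 100 * (A v).card)
    (B : Finset V) (hB : B.card ≤ n + 1) :
    ∑ v ∈ B, L v ≤ (B.biUnion fun v => (A v).image fun w => s(v, w)).card := by
  classical
  have hs := sum_card_le A hA B
  have hp0 : 1000 * p0 ≤ n := by nlinarith
  set k := (B.filter fun v => v ∈ Pol).card with hk
  have hk1 : k ≤ p0 := le_trans (Finset.card_le_card fun v hv => (Finset.mem_filter.1 hv).2) hPol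
  have hk2 : k ≤ B.card := Finset.card_filter_le _ _
  have hsum : 100 * ∑ v ∈ B, L v + 99 * n * B.card ≤ 100 * ∑ v ∈ B, (A v).card + 60 * n * k := by
    have h3 : ∑ v ∈ B, (100 * L v + 99 * n)
        ≤ ∑ v ∈ B, (100 * (A v).card + if v ∈ Pol then 60 * n else 0) := by
      apply Finset.sum_le_sum
      intro v _
      by_cases hv : v ∈ Pol
      · rw [if_pos hv]
        have := h2 v hv
        omega
      · rw [if_neg hv]
        have := h1 v hv
        omega
    rw [Finset.sum_add_distrib, Finset.sum_add_distrib, ← Finset.mul_sum, ← Finset.mul_sum,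
      Finset.sum_const, smul_eq_mul, ← Finset.sum_filter, Finset.sum_const, smul_eq_mul] at h3
    rw [← hk] at h3
    have h5 : ∑ x ∈ B, 100 * (A x).card = 100 * ∑ x ∈ B, (A x).card := (Finset.mul_sum _ _ _).symm
    rw [h5] at h3
    nlinarith
  have hch : 2 * B.card.choose 2 = B.card * (B.card - 1) := by
    rw [Nat.choose_two_right]
    exact Nat.mul_div_cancel' (Nat.even_mul_pred_self _).two_dvd
  set b := B.card with hb
  have key : 50 * (b * (b - 1)) + 60 * n * k ≤ 99 * n * b := by
    rcases Nat.eq_zero_or_pos b with h0 | hpos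
    · have : k = 0 := by omega
      rw [h0, this]
      simp
    · obtain ⟨m, hm⟩ : ∃ m, b = m + 1 := ⟨b - 1, by omega⟩
      rw [hm] at hk2 hB ⊢
      simp only [Nat.add_sub_cancel]
      have hmn : m ≤ n := by omega
      by_cases hc : m + 1 ≤ 2 * p0 + 1
      · have e1 : 60 * n * k ≤ 60 * n * (m + 1) := Nat.mul_le_mul_left _ hk2
        have e2 : 50 * ((m + 1) * m) ≤ 50 * ((m + 1) * (2 * p0)) := by
          apply Nat.mul_le_mul_left
          apply Nat.mul_le_mul_left
          omega
        have e3 : 50 * ((m + 1) * (2 * p0)) ≤ 39 * n * (m + 1) := by nlinarith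
        nlinarith
      · have e1 : 60 * n * k ≤ 30 * n * (m + 1) := by
          have : 2 * k ≤ m + 1 := by omega
          nlinarith
        have e2 : 50 * ((m + 1) * m) ≤ 50 * ((m + 1) * n) := by
          apply Nat.mul_le_mul_left
          apply Nat.mul_le_mul_left
          exact hmn
        nlinarith
  omega

private theorem case_two {V : Type} [Fintype V] [DecidableEq V] (n R p0 : ℕ)
    (hV : Fintype.card V = 2 * n + 1) (hR : 1 ≤ R) (hn : 1000 * R * (p0 + 1) ≤ n)
    (Used : Finset (Sym2 V)) (hdiag : ∀ e ∈ Used, ¬ e.IsDiag) (A : V → Finset V) (L : V → ℕ)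
    (U : Finset V) (hZ : Uᶜ.card ≤ p0)
    (htot : Used.card + ∑ v, L v = n * (2 * n + 1))
    (hnc : ∀ v w, v ≠ w → s(v, w) ∉ Used → w ∈ A v ∨ v ∈ A w)
    (h3 : ∀ y ∈ U, 100 * (univ.filter fun v => v ≠ y ∧ s(v, y) ∉ Used ∧ y ∉ A v).card ≤ n)
    (h4 : ∀ y, y ∉ U → ∀ v, v ≠ y → s(v, y) ∉ Used → y ∈ A v)
    (h5 : ∀ y ∈ U, 99 * n ≤ 100 * L y) (h6 : ∀ y, y ∉ U → n ≤ 2 * R * L y)
    (B : Finset V) (hB : n + 2 ≤ B.card) :
    ∑ v ∈ B, L v ≤ (B.biUnion fun v => (A v).image fun w => s(v, w)).card := by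
  classical
  set E := B.biUnion fun v => (A v).image fun w => s(v, w) with hE
  set AllE : Finset (Sym2 V) := (univ : Finset V).offDiag.image Sym2.mk.uncurry with hAll
  have hAllc : AllE.card = n * (2 * n + 1) := by
    have h : AllE.card = (univ : Finset V).card.choose 2 := by
      rw [hAll]
      exact Sym2.card_image_offDiag univ
    rw [h, Finset.card_univ, hV, Nat.choose_two_right, Nat.add_sub_cancel]
    rw [show (2 * n + 1) * (2 * n) = 2 * (n * (2 * n + 1)) by ring]
    exact Nat.mul_div_cancel_left _ (by norm_num)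
  have hUsub : Used ⊆ AllE := by
    intro e he
    have hd := hdiag e he
    induction e using Sym2.ind with
    | _ a b =>
      rw [hAll, Finset.mem_image]
      refine ⟨(a, b), ?_, rfl⟩
      rw [Finset.mem_offDiag]
      exact ⟨mem_univ _, mem_univ _, fun h => hd (by rw [Sym2.mk_isDiag_iff]; exact h)⟩
  set bad : V → Finset V := fun y => univ.filter fun v => v ≠ y ∧ s(v, y) ∉ Used ∧ y ∉ A v
    with hbad
  have hN : (AllE \ Used).card = ∑ v, L v := by
    rw [Finset.card_sdiff_of_subset hUsub, hAllc]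
    omega
  have hsub : (AllE \ Used) \ E ⊆ (Bᶜ.offDiag.image Sym2.mk.uncurry) ∪
      (Bᶜ.biUnion fun y => (bad y).image fun v => s(v, y)) := by
    intro e he
    rw [Finset.mem_sdiff, Finset.mem_sdiff, hAll, Finset.mem_image] at he
    obtain ⟨⟨⟨⟨v, w⟩, hvw, rfl⟩, hu⟩, hne⟩ := he
    rw [Finset.mem_offDiag] at hvw
    obtain ⟨-, -, hvw⟩ := hvw
    simp only at hvw
    have hu' : s(v, w) ∉ Used := hu
    have hne' : s(v, w) ∉ E := hne
    have hEm : ∀ x y, x ∈ B → y ∈ A x → s(x, y) ∈ E := fun x y hx hy => by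
      rw [hE, Finset.mem_biUnion]
      exact ⟨x, hx, Finset.mem_image.2 ⟨y, hy, rfl⟩⟩
    rw [Finset.mem_union]
    show s(v, w) ∈ _ ∨ s(v, w) ∈ _
    by_cases hv : v ∈ B
    · by_cases hw : w ∈ B
      · exfalso
        rcases hnc v w hvw hu' with h | h
        · exact hne' (hEm v w hv h)
        · exact hne' (by rw [Sym2.eq_swap]; exact hEm w v hw h)
      · right
        rw [Finset.mem_biUnion]
        refine ⟨w, Finset.mem_compl.2 hw, Finset.mem_image.2 ⟨v, ?_, rfl⟩⟩
        rw [hbad, Finset.mem_filter]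
        exact ⟨mem_univ _, hvw, hu', fun h => hne' (hEm v w hv h)⟩
    · by_cases hw : w ∈ B
      · right
        rw [Finset.mem_biUnion]
        refine ⟨v, Finset.mem_compl.2 hv, Finset.mem_image.2 ⟨w, ?_, Sym2.eq_swap⟩⟩
        rw [hbad, Finset.mem_filter]
        refine ⟨mem_univ _, hvw.symm, ?_, fun h => hne' ?_⟩
        · rw [Sym2.eq_swap]; exact hu'
        · rw [Sym2.eq_swap]; exact hEm w v hw h
      · left
        rw [Finset.mem_image]
        refine ⟨(v, w), ?_, rfl⟩
        rw [Finset.mem_offDiag]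
        exact ⟨Finset.mem_compl.2 hv, Finset.mem_compl.2 hw, hvw⟩
  have hcard : ((AllE \ Used) \ E).card ≤ Bᶜ.card.choose 2 + ∑ y ∈ Bᶜ, (bad y).card := by
    calc ((AllE \ Used) \ E).card ≤ _ := Finset.card_le_card hsub
      _ ≤ _ := Finset.card_union_le _ _
      _ ≤ Bᶜ.card.choose 2 + ∑ y ∈ Bᶜ, (bad y).card := by
        apply Nat.add_le_add
        · exact le_of_eq (Sym2.card_image_offDiag Bᶜ)
        · refine le_trans Finset.card_biUnion_le ?_
          apply Finset.sum_le_sum
          intro y _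
          exact Finset.card_image_le
  have hle : ∑ v, L v ≤ E.card + (Bᶜ.card.choose 2 + ∑ y ∈ Bᶜ, (bad y).card) := by
    rw [← hN]
    calc (AllE \ Used).card ≤ E.card + ((AllE \ Used) \ E).card := by
          have := Finset.le_card_sdiff E (AllE \ Used)
          omega
      _ ≤ _ := Nat.add_le_add_left hcard _
  have hsplit : ∑ v ∈ B, L v + ∑ v ∈ Bᶜ, L v = ∑ v, L v := Finset.sum_add_sum_compl B L
  have hC : Bᶜ.card = 2 * n + 1 - B.card := by rw [Finset.card_compl, hV]
  -- the numerical part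
  suffices hmain : Bᶜ.card.choose 2 + ∑ y ∈ Bᶜ, (bad y).card ≤ ∑ v ∈ Bᶜ, L v by omega
  set C := Bᶜ with hCdef
  set u := (C.filter fun y => y ∈ U).card with hu
  set z := (C.filter fun y => ¬ y ∈ U).card with hz
  have huz : u + z = C.card := Finset.card_filter_add_card_filter_not _
  have hz0 : z ≤ p0 := by
    refine le_trans (Finset.card_le_card ?_) hZ
    intro y hy
    exact Finset.mem_compl.2 (Finset.mem_filter.1 hy).2
  have hcn : C.card + 1 ≤ n := by
    have hBle : B.card ≤ 2 * n + 1 := by rw [← hV]; exact Finset.card_le_univ B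
    omega
  have hU1 : 100 * ∑ y ∈ C.filter (fun y => y ∈ U), (bad y).card + 98 * n * u
      ≤ 100 * ∑ y ∈ C.filter (fun y => y ∈ U), L y := by
    rw [Finset.mul_sum, Finset.mul_sum, hu, mul_comm (98 * n), ← smul_eq_mul (a := Finset.card _),
      ← Finset.sum_const, ← Finset.sum_add_distrib]
    apply Finset.sum_le_sum
    intro y hy
    have hyU := (Finset.mem_filter.1 hy).2
    have e1 : 100 * (bad y).card ≤ n := h3 y hyU
    have e2 := h5 y hyU
    omega
  have hU2 : n * z ≤ 2 * R * ∑ y ∈ C.filter (fun y => ¬ y ∈ U), L y := by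
    rw [Finset.mul_sum, hz, mul_comm n, ← smul_eq_mul (a := Finset.card _), ← Finset.sum_const]
    apply Finset.sum_le_sum
    intro y hy
    exact h6 y (Finset.mem_filter.1 hy).2
  have hU3 : ∑ y ∈ C.filter (fun y => ¬ y ∈ U), (bad y).card = 0 := by
    apply Finset.sum_eq_zero
    intro y hy
    have hyU := (Finset.mem_filter.1 hy).2
    rw [Finset.card_eq_zero, Finset.eq_empty_iff_forall_notMem]
    intro v hv
    rw [hbad, Finset.mem_filter] at hv
    exact hv.2.2.2 (h4 y hyU v hv.2.1 hv.2.2.1)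
  have hs1 : ∑ y ∈ C, (bad y).card = ∑ y ∈ C.filter (fun y => y ∈ U), (bad y).card
      + ∑ y ∈ C.filter (fun y => ¬ y ∈ U), (bad y).card :=
    (Finset.sum_filter_add_sum_filter_not C (fun y => y ∈ U) _).symm
  have hs2 : ∑ y ∈ C, L y = ∑ y ∈ C.filter (fun y => y ∈ U), L y
      + ∑ y ∈ C.filter (fun y => ¬ y ∈ U), L y :=
    (Finset.sum_filter_add_sum_filter_not C (fun y => y ∈ U) _).symm
  set SU := ∑ y ∈ C.filter (fun y => y ∈ U), L y
  set SN := ∑ y ∈ C.filter (fun y => ¬ y ∈ U), L y
  set TU := ∑ y ∈ C.filter (fun y => y ∈ U), (bad y).card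
  have hch : 2 * C.card.choose 2 = C.card * (C.card - 1) := by
    rw [Nat.choose_two_right]
    exact Nat.mul_div_cancel' (Nat.even_mul_pred_self _).two_dvd
  rw [hs1, hs2, hU3, add_zero]
  set ch := C.card.choose 2
  set c := C.card with hc
  have hp0R : 1000 * (R * p0) ≤ n := by nlinarith
  have key : 100 * R * (c * (c - 1)) ≤ 196 * R * n * u + 100 * n * z := by
    rcases Nat.eq_zero_or_pos c with h0 | hpos
    · rw [h0]; simp
    · obtain ⟨m, hm⟩ : ∃ m, c = m + 1 := ⟨c - 1, by omega⟩
      rw [hm] at huz hcn ⊢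
      simp only [Nat.add_sub_cancel]
      have e1 : (m + 1) * m ≤ u * n + p0 * u + p0 * z := by
        have f1 : u * m ≤ u * n := Nat.mul_le_mul_left _ (by omega)
        have f2 : z * m ≤ p0 * u + p0 * z := by
          calc z * m ≤ p0 * m := Nat.mul_le_mul_right _ hz0
            _ ≤ p0 * (u + z) := Nat.mul_le_mul_left _ (by omega)
            _ = p0 * u + p0 * z := by ring
        calc (m + 1) * m = u * m + z * m := by rw [← huz]; ring
          _ ≤ u * n + (p0 * u + p0 * z) := Nat.add_le_add f1 f2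
          _ = _ := by ring
      have e2 : 100 * R * ((m + 1) * m) ≤ 100 * R * (u * n + p0 * u + p0 * z) :=
        Nat.mul_le_mul_left _ e1
      have e3 : 100 * R * (p0 * u) ≤ 96 * R * n * u := by
        have g1 : 100 * p0 ≤ 96 * n := by nlinarith
        calc 100 * R * (p0 * u) = (100 * p0) * (R * u) := by ring
          _ ≤ (96 * n) * (R * u) := Nat.mul_le_mul_right _ g1
          _ = _ := by ring
      have e4 : 100 * R * (p0 * z) ≤ 100 * n * z := by
        calc 100 * R * (p0 * z) = (100 * (R * p0)) * z := by ring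
          _ ≤ (100 * n) * z := Nat.mul_le_mul_right _ (by omega)
      calc 100 * R * ((m + 1) * m) ≤ 100 * R * (u * n + p0 * u + p0 * z) := e2
        _ = 100 * R * n * u + 100 * R * (p0 * u) + 100 * R * (p0 * z) := by ring
        _ ≤ 100 * R * n * u + 96 * R * n * u + 100 * n * z :=
          Nat.add_le_add (Nat.add_le_add_left e3 _) e4
        _ = _ := by ring
  -- multiply everything by `200 R`
  have hfin : 200 * R * (ch + TU) ≤ 200 * R * (SU + SN) := by
    have g1 : 200 * R * ch = 100 * R * (c * (c - 1)) := by rw [← hch]; ring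
    have g2 : 2 * R * (100 * TU + 98 * n * u) ≤ 2 * R * (100 * SU) :=
      Nat.mul_le_mul_left _ hU1
    have g3 : 100 * (n * z) ≤ 100 * (2 * R * SN) := Nat.mul_le_mul_left _ hU2
    calc 200 * R * (ch + TU) = 200 * R * ch + 200 * R * TU := by ring
      _ = 100 * R * (c * (c - 1)) + 200 * R * TU := by rw [g1]
      _ ≤ (196 * R * n * u + 100 * n * z) + 200 * R * TU := Nat.add_le_add_right key _
      _ = 2 * R * (100 * TU + 98 * n * u) + 100 * (n * z) := by ring
      _ ≤ 2 * R * (100 * SU) + 100 * (2 * R * SN) := Nat.add_le_add g2 g3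
      _ = _ := by ring
  exact Nat.le_of_mul_le_mul_left hfin (by positivity)

theorem hall_ineq {V : Type} [Fintype V] [DecidableEq V] (n R p0 : ℕ)
    (hV : Fintype.card V = 2 * n + 1) (hR : 1 ≤ R) (hn : 1000 * R * (p0 + 1) ≤ n)
    (Used : Finset (Sym2 V)) (hdiag : ∀ e ∈ Used, ¬ e.IsDiag) (A : V → Finset V) (L : V → ℕ)
    (U Pol : Finset V) (hZ : Uᶜ.card ≤ p0) (hPol : Pol.card ≤ p0)
    (htot : Used.card + ∑ v, L v = n * (2 * n + 1))
    (hA : ∀ v w, w ∈ A v → w ≠ v ∧ s(v, w) ∉ Used)
    (hnc : ∀ v w, v ≠ w → s(v, w) ∉ Used → w ∈ A v ∨ v ∈ A w)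
    (h1 : ∀ v, v ∉ Pol → 100 * L v + 99 * n ≤ 100 * (A v).card)
    (h2 : ∀ v ∈ Pol, 100 * L v + 39 * n ≤ 100 * (A v).card)
    (h3 : ∀ y ∈ U, 100 * (univ.filter fun v => v ≠ y ∧ s(v, y) ∉ Used ∧ y ∉ A v).card ≤ n)
    (h4 : ∀ y, y ∉ U → ∀ v, v ≠ y → s(v, y) ∉ Used → y ∈ A v)
    (h5 : ∀ y ∈ U, 99 * n ≤ 100 * L y) (h6 : ∀ y, y ∉ U → n ≤ 2 * R * L y)
    (B : Finset V) :
    ∑ v ∈ B, L v ≤ (B.biUnion fun v => (A v).image fun w => s(v, w)).card := by
  rcases Nat.lt_or_ge (n + 1) B.card with h | h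
  · exact case_two n R p0 hV hR hn Used hdiag A L U hZ htot hnc h3 h4 h5 h6 B h
  · exact case_one n R p0 hR hn A L Pol hPol (fun v w hw => (hA v w hw).1) h1 h2 B h

end Pool.Agent.BC
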