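import Pool.Agent.Lib.MP_80c395_co_BC.ExEmb
import Pool.Agent.Lib.MP_80c395_co_BC.HallIneq

/-!
# MP_80c395_co, project BC: Hall's condition for the unused edges
-/

set_option autoImplicit false

open Finset

namespace Pool.Agent.BC

open Pool.Agent.Lib.MP_80c395_co

section dat
variable {V X : Type} [Fintype V] [DecidableEq V] [Fintype X] [DecidableEq X] {R : ℕ}
  {n κ p0 e t : ℕ} {S : V → RT X} {c : V → Fin R → X} {lv rem : V → Fin R → Finset X}
  {i0 : V → Fin R} {U : Finset V} {π : Equiv.Perm V} {Pol : Finset V} {φ : V → X → V}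

/-- the hosts of the tree `u` -/
def ho (π : Equiv.Perm V) (rem : V → Fin R → Finset X) (U : Finset V) (u : V) : Finset V :=
  if u ∈ U then hs π rem u else {u}

/-- vertices of the trees hosted at `w` -/
def Fs (π : Equiv.Perm V) (rem : V → Fin R → Finset X) (U : Finset V) (φ : V → X → V)
    (w : V) : Finset V :=
  (univ.filter fun u => w ∈ ho π rem U u).biUnion fun u => (xe rem u).image (φ u)

/-- possible ends of the leaves hosted at `w` -/
def As (S : V → RT X) (π : Equiv.Perm V) (rem : V → Fin R → Finset X) (U : Finset V)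
    (φ : V → X → V) (w : V) : Finset V :=
  univ.filter fun y => y ≠ w ∧ s(w, y) ∉ Edg S (xe rem) φ univ ∧ y ∉ Fs π rem U φ w

theorem ho_of_mem {u : V} (hu : u ∈ U) : ho π rem U u = hs π rem u := if_pos hu

theorem ho_of_not {u : V} (hu : u ∉ U) : ho π rem U u = {u} := if_neg hu

theorem mem_Fs {w y : V} : y ∈ Fs π rem U φ w ↔
    ∃ u, w ∈ ho π rem U u ∧ y ∈ (xe rem u).image (φ u) := by
  unfold Fs
  rw [mem_biUnion]
  simp only [mem_filter, mem_univ, true_and]

theorem mem_As {w y : V} : y ∈ As S π rem U φ w ↔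
    y ≠ w ∧ s(w, y) ∉ Edg S (xe rem) φ univ ∧ y ∉ Fs π rem U φ w := by
  unfold As
  simp only [mem_filter, mem_univ, true_and]

theorem hs_sub (D : Dat n κ p0 e S c lv rem i0 U π) {v : V} (hv : v ∈ U) :
    hs π rem v ⊆ U := by
  intro a ha
  unfold hs at ha
  rw [mem_image] at ha
  obtain ⟨i, -, rfl⟩ := ha
  exact inv_zpow D hv _

theorem img_sub (E : Emb n κ p0 t S c rem U π Pol φ) {v : V} (hv : v ∈ U) :
    (xe rem v).image (φ v) ⊆ U := by
  intro a ha
  rw [mem_image] at ha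
  obtain ⟨x, hx, rfl⟩ := ha
  exact E.inU v hv x hx

theorem img_exc (E : Emb n κ p0 t S c rem U π Pol φ) {v y : V} (hv : v ∉ U)
    (hy : y ∈ (xe rem v).image (φ v)) (hyU : y ∉ U) : y = v := by
  rw [mem_image] at hy
  obtain ⟨x, hx, rfl⟩ := hy
  by_cases hxc : x = (S v).c
  · rw [hxc]; exact E.root v hv
  · exact absurd (E.inU' v hv x hx hxc) hyU

/-- edges at an exceptional vertex -/
theorem edge_exc (D : Dat n κ p0 e S c lv rem i0 U π) (E : Emb n κ p0 t S c rem U π Pol φ)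
    {v y : V} (hv : v ∉ U) (h : s(v, y) ∈ Edg S (xe rem) φ univ) :
    y ∈ (xe rem v).image (φ v) := by
  obtain ⟨w, -, x, hx, hxc, hed⟩ := Edg_cases h
  have hpx := (clo_xe D w).2 x hx hxc
  by_cases hw : w ∈ U
  · exfalso
    rw [Sym2.eq_iff] at hed
    rcases hed with ⟨h1, -⟩ | ⟨h1, -⟩
    · exact hv (h1 ▸ E.inU w hw _ hpx)
    · exact hv (h1 ▸ E.inU w hw _ hx)
  · have hvw : v = w := by
      rw [Sym2.eq_iff] at hed
      rcases hed with ⟨h1, -⟩ | ⟨h1, -⟩
      · exact img_exc E hw (mem_image.mpr ⟨_, hpx, h1.symm⟩) hv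
      · exact img_exc E hw (mem_image.mpr ⟨_, hx, h1.symm⟩) hv
    subst hvw
    rw [Sym2.eq_iff] at hed
    rcases hed with ⟨-, h2⟩ | ⟨-, h2⟩
    · exact mem_image.mpr ⟨_, hx, h2.symm⟩
    · exact mem_image.mpr ⟨_, hpx, h2.symm⟩

theorem card_xe_good (D : Dat n κ p0 e S c lv rem i0 U π) {v : V} (hv : v ∈ U) :
    (xe rem v).card = κ + 1 := by
  have h1 := card_xe D v
  have h2 := D.tot v hv
  omega

theorem card_Fs (D : Dat n κ p0 e S c lv rem i0 U π) {v : V} (hv : v ∈ U) :
    (Fs π rem U φ v).card ≤ R * (κ + 1) := by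
  have h1 : (univ.filter fun u => v ∈ ho π rem U u) = U.filter fun u => v ∈ hs π rem u := by
    ext u
    simp only [mem_filter, mem_univ, true_and]
    constructor
    · intro h
      by_cases hu : u ∈ U
      · rw [ho_of_mem hu] at h; exact ⟨hu, h⟩
      · rw [ho_of_not hu, mem_singleton] at h
        rw [h] at hv
        exact absurd hv hu
    · rintro ⟨hu, h⟩
      rw [ho_of_mem hu]; exact h
  unfold Fs
  rw [h1]
  refine (Finset.card_biUnion_le_card_mul _ _ (κ + 1) ?_).trans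
    (Nat.mul_le_mul_right _ (hs_count v))
  intro u hu
  rw [mem_filter] at hu
  exact Finset.card_image_le.trans (le_of_eq (card_xe_good D hu.1))

theorem card_As (D : Dat n κ p0 e S c lv rem i0 U π) {v : V} (hv : v ∈ U) :
    2 * n ≤ (As S π rem U φ v).card + dgr (Edg S (xe rem) φ univ) v + R * (κ + 1) := by
  have h1 : (univ : Finset V) ⊆ ((As S π rem U φ v) ∪
      (univ.filter fun w => s(v, w) ∈ Edg S (xe rem) φ univ)) ∪ (Fs π rem U φ v ∪ {v}) := by
    intro y _
    simp only [mem_union, mem_filter, mem_univ, true_and, mem_singleton, mem_As]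
    tauto
  have h2 := Finset.card_le_card h1
  have h3 := Finset.card_union_le ((As S π rem U φ v) ∪
      (univ.filter fun w => s(v, w) ∈ Edg S (xe rem) φ univ)) (Fs π rem U φ v ∪ {v})
  have h4 := Finset.card_union_le (As S π rem U φ v)
      (univ.filter fun w => s(v, w) ∈ Edg S (xe rem) φ univ)
  have h5 := Finset.card_union_le (Fs π rem U φ v) {v}
  have h6 := card_Fs (φ := φ) D hv
  rw [Finset.card_univ, D.cV] at h2
  rw [Finset.card_singleton] at h5
  unfold dgr
  omega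

theorem card_As_exc (D : Dat n κ p0 e S c lv rem i0 U π)
    (E : Emb n κ p0 t S c rem U π Pol φ) {v : V} (hv : v ∉ U) :
    n + ∑ i, (rem v i).card ≤ (As S π rem U φ v).card := by
  have h1 : univ \ (xe rem v).image (φ v) ⊆ As S π rem U φ v := by
    intro y hy
    rw [mem_sdiff] at hy
    rw [mem_As]
    refine ⟨?_, ?_, ?_⟩
    · intro h
      apply hy.2
      rw [mem_image]
      exact ⟨(S v).c, (clo_xe D v).1, by rw [E.root v hv, h]⟩
    · intro h
      exact hy.2 (edge_exc D E hv h)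
    · intro h
      rw [mem_Fs] at h
      obtain ⟨u, hu, hyu⟩ := h
      by_cases huU : u ∈ U
      · rw [ho_of_mem huU] at hu
        exact hv (hs_sub D huU hu)
      · rw [ho_of_not huU, mem_singleton] at hu
        rw [← hu] at hyu
        exact hy.2 hyu
  have h2 := Finset.card_le_card h1
  have h3 : (univ \ (xe rem v).image (φ v)).card = 2 * n + 1 - (xe rem v).card := by
    rw [Finset.card_sdiff_of_subset (Finset.subset_univ _), Finset.card_univ, D.cV,
      Finset.card_image_of_injOn (E.inj v)]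
  have h4 := card_xe D v
  omega

theorem card_bad (D : Dat n κ p0 e S c lv rem i0 U π)
    (E : Emb n κ p0 t S c rem U π Pol φ) {y : V} :
    (univ.filter fun v => v ≠ y ∧ s(v, y) ∉ Edg S (xe rem) φ univ ∧
      y ∉ As S π rem U φ v).card ≤ (11 * κ + R + R ^ 2) * R + p0 := by
  have h1 : (univ.filter fun v => v ≠ y ∧ s(v, y) ∉ Edg S (xe rem) φ univ ∧
      y ∉ As S π rem U φ v) ⊆
      ((U.filter fun u => y ∈ (xe rem u).image (φ u)).biUnion fun u => hs π rem u) ∪ Uᶜ := by
    intro v hv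
    simp only [mem_filter, mem_univ, true_and] at hv
    obtain ⟨h1, h2, h3⟩ := hv
    rw [mem_As] at h3
    have h4 : y ∈ Fs π rem U φ v := by
      by_contra h
      exact h3 ⟨fun h => h1 h.symm, h2, h⟩
    rw [mem_Fs] at h4
    obtain ⟨u, hu, hyu⟩ := h4
    rw [mem_union, mem_biUnion]
    by_cases huU : u ∈ U
    · left
      rw [ho_of_mem huU] at hu
      exact ⟨u, mem_filter.mpr ⟨huU, hyu⟩, hu⟩
    · right
      rw [ho_of_not huU, mem_singleton] at hu
      rw [hu]
      exact mem_compl.mpr huU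
  have h2 := Finset.card_le_card h1
  have h3 := Finset.card_union_le
    ((U.filter fun u => y ∈ (xe rem u).image (φ u)).biUnion fun u => hs π rem u) Uᶜ
  have h4 := Finset.card_biUnion_le_card_mul
    (U.filter fun u => y ∈ (xe rem u).image (φ u)) (fun u => hs π rem u) R
    (fun u _ => hs_card u)
  have h5 := Nat.mul_le_mul_right R (E.cnt y)
  have h6 := D.cU'
  omega

theorem no_conf (D : Dat n κ p0 e S c lv rem i0 U π)
    (E : Emb n κ p0 t S c rem U π Pol φ) {v w : V} (hvw : v ≠ w)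
    (h : s(v, w) ∉ Edg S (xe rem) φ univ) :
    w ∈ As S π rem U φ v ∨ v ∈ As S π rem U φ w := by
  by_contra hcon
  push Not at hcon
  obtain ⟨h1, h2⟩ := hcon
  have hw : w ∈ Fs π rem U φ v := by
    by_contra h'
    exact h1 (mem_As.mpr ⟨hvw.symm, h, h'⟩)
  have hv : v ∈ Fs π rem U φ w := by
    by_contra h'
    exact h2 (mem_As.mpr ⟨hvw, by rw [Sym2.eq_swap]; exact h, h'⟩)
  rw [mem_Fs] at hw hv
  obtain ⟨u1, hu1, hw1⟩ := hw
  obtain ⟨u2, hu2, hv2⟩ := hv
  by_cases hU1 : u1 ∈ U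
  · rw [ho_of_mem hU1] at hu1
    by_cases hU2 : u2 ∈ U
    · rw [ho_of_mem hU2] at hu2
      by_cases huu : u1 = u2
      · subst huu
        exact h (E.self u1 hU1 v hu1 w hu2 hvw)
      · exact h (E.conf u1 hU1 u2 hU2 huu v hu1 w hu2 hvw hv2 hw1)
    · rw [ho_of_not hU2, mem_singleton] at hu2
      have : w ∈ U := img_sub E hU1 hw1
      rw [hu2] at this
      exact hU2 this
  · rw [ho_of_not hU1, mem_singleton] at hu1
    subst hu1
    by_cases hU2 : u2 ∈ U
    · exact hU1 (img_sub E hU2 hv2)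
    · rw [ho_of_not hU2, mem_singleton] at hu2
      subst hu2
      exact hvw (img_exc E hU2 hv2 hU1)

theorem in_As_exc (E : Emb n κ p0 t S c rem U π Pol φ) {y v : V} (hy : y ∉ U) (hvy : v ≠ y)
    (h : s(v, y) ∉ Edg S (xe rem) φ univ) : y ∈ As S π rem U φ v := by
  rw [mem_As]
  refine ⟨hvy.symm, h, ?_⟩
  intro h'
  rw [mem_Fs] at h'
  obtain ⟨u, hu, hyu⟩ := h'
  by_cases huU : u ∈ U
  · exact hy (img_sub E huU hyu)
  · rw [ho_of_not huU, mem_singleton] at hu
    have := img_exc E huU hyu hy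
    rw [this, hu] at hvy
    exact hvy rfl

theorem tot_card (D : Dat n κ p0 e S c lv rem i0 U π)
    (E : Emb n κ p0 t S c rem U π Pol φ) :
    (Edg S (xe rem) φ univ).card + ∑ v, ∑ i, (rem v i).card = n * (2 * n + 1) := by
  have h1 := card_Edg (S := S) (Xe := xe rem) (φ := φ) (Q := univ)
    (fun v _ => clo_xe D v) (fun v _ => E.inj v) E.dst
  have h2 : ∑ v, (xe rem v).card + ∑ v, ∑ i, (rem v i).card = (2 * n + 1) * (n + 1) := by
    rw [← Finset.sum_add_distrib, Finset.sum_congr rfl (fun v _ => card_xe D v),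
      Finset.sum_const, Finset.card_univ, D.cV, smul_eq_mul]
  rw [Finset.card_univ, D.cV] at h1
  have h3 : (2 * n + 1) * (n + 1) = n * (2 * n + 1) + (2 * n + 1) := by ring
  omega

theorem fin_hall (D : Dat n κ p0 e S c lv rem i0 U π) (E : Emb n κ p0 t S c rem U π Pol φ)
    (hnum : 200 * ((R + 1) ^ 2 * (20 * κ + 20 * R ^ 2 + 20 + t) + p0) ≤ n)
    (hnum3 : 1000 * R * (p0 + 1) ≤ n) (B : Finset V) :
    ∑ v ∈ B, ∑ i, (rem v i).card ≤
      (B.biUnion fun v => (As S π rem U φ v).image fun w => s(v, w)).card := by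
  have hM : 1 ≤ (R + 1) ^ 2 := Nat.one_le_pow _ _ (by omega)
  -- numbers
  have hq1 : (R + 11) * κ + R ^ 2 + t + R * (κ + 1) ≤
      (R + 1) ^ 2 * (20 * κ + 20 * R ^ 2 + 20 + t) := by
    have e1 : (R + 11) * κ + R * κ ≤ (R + 1) ^ 2 * (20 * κ) := by
      have : (R + 11) + R ≤ (R + 1) ^ 2 * 20 := by nlinarith
      calc (R + 11) * κ + R * κ = ((R + 11) + R) * κ := by ring
        _ ≤ ((R + 1) ^ 2 * 20) * κ := Nat.mul_le_mul_right _ this
        _ = _ := by ring
    have e2 : R ^ 2 ≤ (R + 1) ^ 2 * (20 * R ^ 2) := by nlinarith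
    have e3 : R ≤ (R + 1) ^ 2 * 20 := by nlinarith
    have e4 : t ≤ (R + 1) ^ 2 * t := Nat.le_mul_of_pos_left _ (by omega)
    calc (R + 11) * κ + R ^ 2 + t + R * (κ + 1)
        = ((R + 11) * κ + R * κ) + R ^ 2 + R + t := by ring
      _ ≤ (R + 1) ^ 2 * (20 * κ) + (R + 1) ^ 2 * (20 * R ^ 2) + (R + 1) ^ 2 * 20 +
          (R + 1) ^ 2 * t := by omega
      _ = _ := by ring
  have hq2 : (11 * κ + R + R ^ 2) * R ≤ (R + 1) ^ 2 * (20 * κ + 20 * R ^ 2 + 20 + t) := by
    have e1 : 11 * κ * R ≤ (R + 1) ^ 2 * (20 * κ) := by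
      have : 11 * R ≤ (R + 1) ^ 2 * 20 := by nlinarith
      calc 11 * κ * R = (11 * R) * κ := by ring
        _ ≤ ((R + 1) ^ 2 * 20) * κ := Nat.mul_le_mul_right _ this
        _ = _ := by ring
    have e2 : (R + R ^ 2) * R ≤ (R + 1) ^ 2 * (20 * R ^ 2) := by
      have : 1 + R ≤ (R + 1) ^ 2 * 20 := by nlinarith
      calc (R + R ^ 2) * R = (1 + R) * R ^ 2 := by ring
        _ ≤ ((R + 1) ^ 2 * 20) * R ^ 2 := Nat.mul_le_mul_right _ this
        _ = _ := by ring
    calc (11 * κ + R + R ^ 2) * R = 11 * κ * R + (R + R ^ 2) * R := by ring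
      _ ≤ (R + 1) ^ 2 * (20 * κ) + (R + 1) ^ 2 * (20 * R ^ 2) := by omega
      _ ≤ (R + 1) ^ 2 * (20 * κ) + (R + 1) ^ 2 * (20 * R ^ 2) + (R + 1) ^ 2 * (20 + t) := by omega
      _ = _ := by ring
  have hq3 : 100 * κ ≤ n := by
    have : κ ≤ (R + 1) ^ 2 * (20 * κ + 20 * R ^ 2 + 20 + t) := by
      calc κ ≤ 20 * κ + 20 * R ^ 2 + 20 + t := by omega
        _ ≤ _ := Nat.le_mul_of_pos_left _ (by omega)
    omega
  have hL : ∀ v ∈ U, ∑ i, (rem v i).card + κ = n := D.tot
  refine hall_ineq n R p0 D.cV D.hR hnum3 (Edg S (xe rem) φ univ) ?_ (As S π rem U φ)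
    (fun v => ∑ i, (rem v i).card) U Pol D.cU' E.pcard (tot_card D E) ?_ ?_ ?_ ?_ ?_ ?_ ?_ ?_ B
  · intro ed hed
    unfold Edg at hed
    rw [mem_biUnion] at hed
    obtain ⟨v, -, hed⟩ := hed
    exact edg_not_diag (clo_xe D v) (E.inj v) ed hed
  · intro v w hw
    rw [mem_As] at hw
    exact ⟨hw.1, hw.2.1⟩
  · intro v w hvw h
    exact no_conf D E hvw h
  · intro v hvP
    by_cases hv : v ∈ U
    · have h1 := card_As (φ := φ) D hv
      have h2 := E.deg1 v hv hvP
      have h3 := hL v hv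
      omega
    · have h1 := card_As_exc D E hv
      omega
  · intro v hvP
    have hv := E.psub hvP
    have h1 := card_As (φ := φ) D hv
    have h2 := E.deg2 v hvP
    have h3 := hL v hv
    omega
  · intro y hy
    have h1 := card_bad D E (y := y)
    omega
  · intro y hy v hvy h
    exact in_As_exc E hy hvy h
  · intro y hy
    have h3 := hL y hy
    omega
  · intro y hy
    rw [sum_rem_exc D hy]
    exact D.big y hy

end dat

end Pool.Agent.BC
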