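import Pool.Agent.Lib.MP_80c395_co_BC.FinHall
import Pool.Agent.Lib.MP_80c395_co_BC.ExPos
import Pool.Agent.Lib.MP_80c395_co_BC.Complete

/-!
# MP_80c395_co, project BC: the packing from the data
-/

set_option autoImplicit false

open Finset

namespace Pool.Agent.BC

open Pool.Agent.Lib.MP_80c395_co

section dat
variable {V X : Type} [Fintype V] [DecidableEq V] [Fintype X] [DecidableEq X] {R : ℕ}
  {n κ p0 e : ℕ} {S : V → RT X} {c : V → Fin R → X} {lv rem : V → Fin R → Finset X}
  {i0 : V → Fin R} {U : Finset V} {π : Equiv.Perm V}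

theorem fin_pack (D : Dat n κ p0 e S c lv rem i0 U π) {t : ℕ} {Pol : Finset V}
    {φ : V → X → V} (E : Emb n κ p0 t S c rem U π Pol φ)
    (hnum : 200 * ((R + 1) ^ 2 * (20 * κ + 20 * R ^ 2 + 20 + t) + p0) ≤ n)
    (hnum3 : 1000 * R * (p0 + 1) ≤ n) :
    ∃ f : V → X → V, (∀ v, Function.Injective (f v)) ∧ ∀ v w x y, x ≠ (S v).c → y ≠ (S w).c →
      s(f v ((S v).p x), f v x) = s(f w ((S w).p y), f w y) → v = w ∧ x = y := by
  obtain ⟨pos, hp1, hp2, hp3⟩ := exists_pos D
  refine complete S rem (hst π U) φ pos (fun w => ∑ j, (rem w j).card) (As S π rem U φ)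
    ?_ ?_ (clo_xe D) E.inj E.dst ?_ ?_ hp1 hp2 hp3 (fin_hall D E hnum hnum3)
  · intro v i j x hi hj
    exact lv_disj D (D.sub v i hi) (D.sub v j hj)
  · intro v i x hx
    have hl := D.sub v i hx
    refine ⟨?_, ?_, ?_⟩
    · intro h
      rw [D.root] at h
      exact D.lv_nc v i x hl _ h.symm
    · rw [D.lv_p v i x hl]
      exact c_mem_xe D v i
    · rw [D.lv_p v i x hl]
      by_cases hv : v ∈ U
      · rw [E.host v hv i ⟨x, hx⟩]
        exact (if_pos hv).symm
      · have hi : i = i0 v := by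
          by_contra h
          rw [D.exc1 v hv i h] at hx
          exact absurd hx (Finset.notMem_empty _)
        rw [hi, ← D.root, E.root v hv]
        exact (if_neg hv).symm
  · intro v w hw
    rw [mem_As] at hw
    exact ⟨hw.1, hw.2.1⟩
  · intro v i hi x hx h
    rw [mem_As] at h
    apply h.2.2
    rw [mem_Fs]
    refine ⟨v, ?_, mem_image_of_mem _ hx⟩
    by_cases hv : v ∈ U
    · rw [ho_of_mem hv]
      unfold hs hst
      rw [if_pos hv]
      exact mem_image_of_mem _ (mem_filter.mpr ⟨mem_univ _, hi⟩)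
    · rw [ho_of_not hv]
      unfold hst
      rw [if_neg hv]
      exact mem_singleton_self _

end dat

end Pool.Agent.BC
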