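import Pool.Agent.Lib.MP_80c395_co_BC.GoodDeg

/-!
# MP_80c395_co, project BC: good trees, counting the free positions
-/

set_option autoImplicit false

open Finset

namespace Pool.Agent.BC

open Pool.Agent.Lib.MP_80c395_co

section good
variable {V X : Type} [Fintype V] [DecidableEq V] [Fintype X] [DecidableEq X]
  {n R p0 t κ : ℕ} {U Pol : Finset V} {S : V → RT X} {Xe P : V → Finset X}
  {ρ : V → X → V} {Hst : V → Finset V} {OE : Finset (Sym2 V)} {Q : Finset V}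
  {φ : V → X → V}

private theorem gc_cfs (H : GHyp n R p0 t κ U Pol S Xe P ρ Hst OE)
    (G : GSt κ U S Xe P ρ Hst OE Q φ) (hQ : Q ⊆ U) {v : V} (hv : v ∈ U) :
    (cfs U Xe P Hst Q φ v).card ≤ (R * (11 * κ + R + R ^ 2)) * R := by
  have h1 : (cfs U Xe P Hst Q φ v).card ≤
      ((U.erase v).filter fun u => (Hst v ∩ (cur Xe P Q u).image (φ u)).Nonempty).card * R := by
    refine card_biUnion_le_card_mul _ _ _ fun u hu => ?_
    exact H.hcard u (mem_of_mem_erase (mem_filter.mp hu).1)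
  refine h1.trans (Nat.mul_le_mul_right R ?_)
  have h2 : ((U.erase v).filter fun u => (Hst v ∩ (cur Xe P Q u).image (φ u)).Nonempty) ⊆
      (Hst v).biUnion fun b => U.filter fun u => b ∈ (cur Xe P Q u).image (φ u) := by
    intro u hu
    obtain ⟨hu1, b, hb⟩ := mem_filter.mp hu
    obtain ⟨hb1, hb2⟩ := mem_inter.mp hb
    exact mem_biUnion.mpr ⟨b, hb1, mem_filter.mpr ⟨mem_of_mem_erase hu1, hb2⟩⟩
  have h3 : ((Hst v).biUnion fun b => U.filter fun u => b ∈ (cur Xe P Q u).image (φ u)).card ≤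
      (Hst v).card * (11 * κ + R + R ^ 2) := by
    refine card_biUnion_le_card_mul _ _ _ fun b _ => ?_
    have h4 := card_img_good H G hQ b
    have h5 := G.load b
    omega
  exact (card_le_card h2).trans (h3.trans (Nat.mul_le_mul_right _ (H.hcard v hv)))

private theorem gc_deg (H : GHyp n R p0 t κ U Pol S Xe P ρ Hst OE)
    (G : GSt κ U S Xe P ρ Hst OE Q φ) (hQ : Q ⊆ U) {v : V} (hv : v ∈ U)
    (A : Finset V) (hA : A.card ≤ R + 1)
    (hA2 : ∀ a ∈ A, a ∈ alw κ U Pol S Xe P ρ Hst Q φ v ∨ a ∈ (P v).image (ρ v)) :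
    100 * ∑ a ∈ A, dgr (Edg S Xe φ Q ∪ PE S P ρ U ∪ OE) a ≤
      100 * ((R + 1) * (11 * κ + R * κ + 3 * R ^ 2 + t)) + 56 * n := by
  have hU : ∀ a ∈ A, a ∈ U := by
    intro a ha
    rcases hA2 a ha with h | h
    · exact (mem_filter.mp h).1
    · obtain ⟨x, hx, rfl⟩ := mem_image.mp h
      exact H.inU v hv x hx
  have hone : (A.filter fun a => a ∈ Pol).card ≤ 1 := by
    refine card_le_one.mpr fun a ha b hb => ?_
    obtain ⟨ha1, ha2⟩ := mem_filter.mp ha
    obtain ⟨hb1, hb2⟩ := mem_filter.mp hb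
    have ha3 : a ∈ (P v).image (ρ v) := by
      rcases hA2 a ha1 with h | h
      · exact absurd ha2 (mem_filter.mp h).2.1
      · exact h
    have hb3 : b ∈ (P v).image (ρ v) := by
      rcases hA2 b hb1 with h | h
      · exact absurd hb2 (mem_filter.mp h).2.1
      · exact h
    obtain ⟨x, hx, rfl⟩ := mem_image.mp ha3
    obtain ⟨y, hy, rfl⟩ := mem_image.mp hb3
    rw [H.pol v hv x hx y hy ha2 hb2]
  have hpt : ∀ a ∈ A, 100 * dgr (Edg S Xe φ Q ∪ PE S P ρ U ∪ OE) a ≤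
      100 * (11 * κ + R * κ + 3 * R ^ 2 + t) + (if a ∈ Pol then 56 * n else 0) := by
    intro a ha
    have h1 := dgr_union (Edg S Xe φ Q ∪ PE S P ρ U) OE a
    have h2 := dgr_union (Edg S Xe φ Q) (PE S P ρ U) a
    have h3 := dgr_Edg_good H G hQ a
    have h4 := G.load a
    have h5 := H.dgrPE a
    split_ifs with hp
    · have h6 := H.o2 a hp
      omega
    · have h6 := H.o1 a (hU a ha) hp
      omega
  calc 100 * ∑ a ∈ A, dgr (Edg S Xe φ Q ∪ PE S P ρ U ∪ OE) a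
      = ∑ a ∈ A, 100 * dgr (Edg S Xe φ Q ∪ PE S P ρ U ∪ OE) a := by rw [mul_sum]
    _ ≤ ∑ a ∈ A, (100 * (11 * κ + R * κ + 3 * R ^ 2 + t) + (if a ∈ Pol then 56 * n else 0)) :=
        sum_le_sum hpt
    _ = A.card * (100 * (11 * κ + R * κ + 3 * R ^ 2 + t)) +
          (A.filter fun a => a ∈ Pol).card * (56 * n) := by
        rw [sum_add_distrib, sum_const, smul_eq_mul, ← sum_filter, sum_const, smul_eq_mul]
    _ ≤ (R + 1) * (100 * (11 * κ + R * κ + 3 * R ^ 2 + t)) + 1 * (56 * n) :=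
        Nat.add_le_add (Nat.mul_le_mul_right _ hA) (Nat.mul_le_mul_right _ hone)
    _ = 100 * ((R + 1) * (11 * κ + R * κ + 3 * R ^ 2 + t)) + 56 * n := by ring

private theorem gc_num (R κ t : ℕ) :
    (R * (11 * κ + R + R ^ 2)) * R + (R + 1) * (11 * κ + R * κ + 3 * R ^ 2 + t) + 2 * κ ≤
      2 * ((R + 1) ^ 2 * (20 * κ + 20 * R ^ 2 + 20 + t)) := by
  refine le_of_le_of_eq (Nat.le_add_right _
    (28 * R ^ 2 * κ + 68 * R * κ + 27 * κ + 39 * R ^ 4 + 76 * R ^ 3 + 77 * R ^ 2 + 80 * R + 40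
      + 2 * R ^ 2 * t + 3 * R * t + t)) ?_
  ring

theorem good_count (H : GHyp n R p0 t κ U Pol S Xe P ρ Hst OE)
    (G : GSt κ U S Xe P ρ Hst OE Q φ) (hQ : Q ⊆ U) {v : V} (hv : v ∈ U) (hvQ : v ∉ Q)
    (A : Finset V) (hA : A.card ≤ R + 1)
    (hA2 : ∀ a ∈ A, a ∈ alw κ U Pol S Xe P ρ Hst Q φ v ∨ a ∈ (P v).image (ρ v)) :
    (Xe v).card ≤ ((alw κ U Pol S Xe P ρ Hst Q φ v).filter fun y => ∀ a ∈ A,
      s(a, y) ∉ Edg S Xe φ Q ∪ PE S P ρ U ∪ OE).card := by
  have h1 : U.card + Uᶜ.card = 2 * n + 1 := by rw [card_add_card_compl, H.cV]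
  have h2 := H.cU
  have h3 := H.cPol
  have h4 := card_ld H G hQ
  have h5 := gc_cfs H G hQ hv
  have h6 : ((P v).image (ρ v)).card ≤ κ + 1 :=
    card_image_le.trans ((card_le_card (H.sub v hv)).trans (H.cXe v hv))
  have h7 : U ⊆ (((alw κ U Pol S Xe P ρ Hst Q φ v ∪ Pol) ∪ (P v).image (ρ v)) ∪
      (univ.filter fun y => 10 * κ < ld S Xe P φ Q y)) ∪ cfs U Xe P Hst Q φ v := by
    intro y hy
    by_cases a1 : y ∈ Pol
    · simp [a1]
    by_cases a2 : y ∈ (P v).image (ρ v)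
    · exact mem_union_left _ (mem_union_left _ (mem_union_right _ a2))
    by_cases a3 : 10 * κ < ld S Xe P φ Q y
    · exact mem_union_left _ (mem_union_right _ (mem_filter.mpr ⟨mem_univ _, a3⟩))
    by_cases a4 : y ∈ cfs U Xe P Hst Q φ v
    · exact mem_union_right _ a4
    · refine mem_union_left _ (mem_union_left _ (mem_union_left _ (mem_union_left _ ?_)))
      exact mem_filter.mpr ⟨hy, a1, a2, not_lt.mp a3, a4⟩
  have h8 : U.card ≤ (alw κ U Pol S Xe P ρ Hst Q φ v).card + Pol.card +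
      ((P v).image (ρ v)).card + (univ.filter fun y => 10 * κ < ld S Xe P φ Q y).card +
      (cfs U Xe P Hst Q φ v).card := by
    refine (card_le_card h7).trans ((card_union_le _ _).trans (Nat.add_le_add_right ?_ _))
    refine (card_union_le _ _).trans (Nat.add_le_add_right ?_ _)
    refine (card_union_le _ _).trans (Nat.add_le_add_right ?_ _)
    exact card_union_le _ _
  have h9 : alw κ U Pol S Xe P ρ Hst Q φ v ⊆
      ((alw κ U Pol S Xe P ρ Hst Q φ v).filter fun y => ∀ a ∈ A,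
        s(a, y) ∉ Edg S Xe φ Q ∪ PE S P ρ U ∪ OE) ∪
      A.biUnion fun a => univ.filter fun w => s(a, w) ∈ Edg S Xe φ Q ∪ PE S P ρ U ∪ OE := by
    intro y hy
    by_cases hh : ∀ a ∈ A, s(a, y) ∉ Edg S Xe φ Q ∪ PE S P ρ U ∪ OE
    · exact mem_union_left _ (mem_filter.mpr ⟨hy, hh⟩)
    · push Not at hh
      obtain ⟨a, ha, hay⟩ := hh
      exact mem_union_right _ (mem_biUnion.mpr ⟨a, ha, mem_filter.mpr ⟨mem_univ _, hay⟩⟩)
  have h10 : (alw κ U Pol S Xe P ρ Hst Q φ v).card ≤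
      ((alw κ U Pol S Xe P ρ Hst Q φ v).filter fun y => ∀ a ∈ A,
        s(a, y) ∉ Edg S Xe φ Q ∪ PE S P ρ U ∪ OE).card +
      ∑ a ∈ A, dgr (Edg S Xe φ Q ∪ PE S P ρ U ∪ OE) a := by
    refine (card_le_card h9).trans ((card_union_le _ _).trans (Nat.add_le_add_left ?_ _))
    exact card_biUnion_le
  have h11 := gc_deg H G hQ hv A hA hA2
  have h12 := gc_num R κ t
  have h13 := H.cXe v hv
  have h14 := H.num
  have h15 := H.κ0
  generalize (R * (11 * κ + R + R ^ 2)) * R = a at h5 h12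
  generalize (R + 1) * (11 * κ + R * κ + 3 * R ^ 2 + t) = b at h11 h12
  have h16 : 200 * ((R + 1) ^ 2 * (20 * κ + 20 * R ^ 2 + 20 + t)) + 200 * p0 ≤ n := by
    rw [← mul_add]
    exact h14
  generalize (R + 1) ^ 2 * (20 * κ + 20 * R ^ 2 + 20 + t) = c at h12 h16
  omega

end good

end Pool.Agent.BC
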