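import Pool.Agent.Lib.MP_80c395_co_BC.EmbedOne
import Pool.Agent.Lib.MP_80c395_co_BC.GoodCount

/-!
# MP_80c395_co, project BC: good trees, one more tree
-/

set_option autoImplicit false

open Finset

namespace Pool.Agent.BC

open Pool.Agent.Lib.MP_80c395_co

section good
variable {V X : Type} [Fintype V] [DecidableEq V] [Fintype X] [DecidableEq X]
  {n R p0 t κ : ℕ} {U Pol : Finset V} {S : V → RT X} {Xe P : V → Finset X}
  {ρ : V → X → V} {Hst : V → Finset V} {OE : Finset (Sym2 V)} {Q : Finset V}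
  {φ : V → X → V}

private theorem gs_mem_edg {T : RT X} {Ye : Finset X} {f : X → V} {e : Sym2 V} :
    e ∈ edg T Ye f ↔ ∃ x, x ≠ T.c ∧ x ∈ Ye ∧ s(f (T.p x), f x) = e := by
  unfold edg
  rw [mem_image]
  constructor
  · rintro ⟨x, hx, h⟩
    rw [mem_erase] at hx
    exact ⟨x, hx.1, hx.2, h⟩
  · rintro ⟨x, h1, h2, h⟩
    exact ⟨x, mem_erase.mpr ⟨h1, h2⟩, h⟩

private theorem gs_mem_PE {v : V} (hv : v ∈ U) {x : X} (hx : x ∈ P v) (hxc : x ≠ (S v).c)
    (hpx : (S v).p x ∈ P v) : s(ρ v ((S v).p x), ρ v x) ∈ PE S P ρ U := by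
  unfold PE
  exact mem_biUnion.mpr ⟨v, hv, mem_image.mpr ⟨x, mem_filter.mpr ⟨hx, hxc, hpx⟩, rfl⟩⟩

theorem good_step (H : GHyp n R p0 t κ U Pol S Xe P ρ Hst OE)
    (G : GSt κ U S Xe P ρ Hst OE Q φ) (hQ : Q ⊆ U) {v : V} (hv : v ∈ U) (hvQ : v ∉ Q) :
    ∃ φ' : V → X → V, GSt κ U S Xe P ρ Hst OE (insert v Q) φ' := by
  obtain ⟨ψ, hψP, hψY, hψi, hψe⟩ := embed_one (S v) (Xe v) (P v) (ρ v)
    (alw κ U Pol S Xe P ρ Hst Q φ v) (fun a y => s(a, y) ∉ Edg S Xe φ Q ∪ PE S P ρ U ∪ OE)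
    (fun a b h => by rw [Sym2.eq_swap]; exact h) R (H.root v hv) (H.sub v hv) (H.clo v hv)
    (H.inj v hv) (fun x hx h => (mem_filter.mp h).2.2.1 (mem_image_of_mem _ hx))
    (H.chi v hv) (fun A hA hA2 => good_count H G hQ hv hvQ A hA hA2)
  have hclo := H.clo v hv
  obtain ⟨φ', hφv, hφw⟩ : ∃ φ' : V → X → V, φ' v = ψ ∧ ∀ w, w ≠ v → φ' w = φ w :=
    ⟨Function.update φ v ψ, Function.update_self _ _ _,
      fun w h => Function.update_of_ne h _ _⟩
  have hne : ∀ w ∈ Q, w ≠ v := fun w hw h => hvQ (h ▸ hw)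
  have hEQ : Edg S Xe φ' Q = Edg S Xe φ Q := by
    unfold Edg
    exact biUnion_congr rfl fun w hw => by rw [hφw w (hne w hw)]
  have hE' : Edg S Xe φ' (insert v Q) = edg (S v) (Xe v) ψ ∪ Edg S Xe φ Q := by
    rw [← hEQ]
    unfold Edg
    rw [biUnion_insert, hφv]
  have key : ∀ x ∈ Xe v, x ≠ (S v).c → (x ∉ P v ∨ (S v).p x ∉ P v) →
      s(ψ ((S v).p x), ψ x) ∉ Edg S Xe φ Q ∧ s(ψ ((S v).p x), ψ x) ∉ PE S P ρ U ∧
        s(ψ ((S v).p x), ψ x) ∉ OE := by
    intro x hx hxc h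
    have h1 := hψe x hx hxc h
    rw [mem_union, mem_union, not_or, not_or] at h1
    exact ⟨h1.1.1, h1.1.2, h1.2⟩
  have key2 : ∀ x ∈ P v, x ≠ (S v).c → (S v).p x ∈ P v →
      s(ψ ((S v).p x), ψ x) ∈ PE S P ρ U := by
    intro x hx hxc hpx
    rw [hψP x hx, hψP _ hpx]
    exact gs_mem_PE hv hx hxc hpx
  have cross : ∀ w ∈ Q, ∀ x ∈ Xe v, x ≠ (S v).c → ∀ y ∈ Xe w, y ≠ (S w).c →
      s(ψ ((S v).p x), ψ x) = s(φ w ((S w).p y), φ w y) → False := by
    intro w hw x hx hxc y hy hyc he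
    by_cases h : x ∉ P v ∨ (S v).p x ∉ P v
    · apply (key x hx hxc h).1
      rw [he]
      unfold Edg
      exact mem_biUnion.mpr ⟨w, hw, gs_mem_edg.mpr ⟨y, hyc, hy, rfl⟩⟩
    · push Not at h
      by_cases h' : y ∉ P w ∨ (S w).p y ∉ P w
      · apply G.npe w hw y hy hyc h'
        rw [← he]
        exact key2 x h.1 hxc h.2
      · push Not at h'
        rw [hψP x h.1, hψP _ h.2, G.ext w (hQ hw) y h'.1, G.ext w (hQ hw) _ h'.2] at he
        exact hne w hw (H.dst v hv w (hQ hw) x h.1 hxc h.2 y h'.1 hyc h'.2 he).1.symm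
  have hcurw : ∀ w, w ≠ v → (cur Xe P (insert v Q) w).image (φ' w) =
      (cur Xe P Q w).image (φ w) := by
    intro w hw
    rw [hφw w hw]
    have h1 : cur Xe P (insert v Q) w = cur Xe P Q w := by
      unfold cur
      have h2 : w ∈ insert v Q ↔ w ∈ Q := by
        rw [mem_insert]
        exact ⟨fun h => h.resolve_left hw, Or.inr⟩
      simp only [h2]
    rw [h1]
  have hcurv : (cur Xe P (insert v Q) v).image (φ' v) = (Xe v).image ψ := by
    rw [hφv]
    unfold cur
    rw [if_pos (mem_insert_self v Q)]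
  have hcv : ∀ u ∈ U, u ≠ v → ∀ a ∈ Hst u, ∀ b ∈ Hst v, a ≠ b → a ∈ (Xe v).image ψ →
      b ∈ (cur Xe P Q u).image (φ u) → s(a, b) ∈ Edg S Xe φ Q ∪ PE S P ρ U := by
    intro u hu huv a ha b hb hab ha' hb'
    obtain ⟨x, hx, rfl⟩ := mem_image.mp ha'
    by_cases hxP : x ∈ P v
    · refine G.conf u hu v hv huv _ ha b hb hab ?_ hb'
      unfold cur
      rw [if_neg hvQ]
      exact mem_image.mpr ⟨x, hxP, by rw [hψP x hxP, G.ext v hv x hxP]⟩
    · exfalso
      have h1 := (mem_filter.mp (hψY x hx hxP)).2.2.2.2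
      apply h1
      unfold cfs
      exact mem_biUnion.mpr ⟨u, mem_filter.mpr ⟨mem_erase.mpr ⟨huv, hu⟩,
        ⟨b, mem_inter.mpr ⟨hb, hb'⟩⟩⟩, ha⟩
  have hmono : Edg S Xe φ Q ∪ PE S P ρ U ⊆ Edg S Xe φ' (insert v Q) ∪ PE S P ρ U := by
    rw [hE']
    exact union_subset_union_left subset_union_right
  refine ⟨φ', ?_, ?_, ?_, ?_, ?_, ?_, ?_, ?_⟩
  · intro w hw x hx
    by_cases h : w = v
    · subst h
      rw [hφv, hψP x hx]
    · rw [hφw w h, G.ext w hw x hx]
  · intro w hw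
    by_cases h : w = v
    · subst h
      rw [hφv]
      exact hψi
    · rw [hφw w h]
      exact G.inj w ((mem_insert.mp hw).resolve_left h)
  · intro w hw x hx
    by_cases h : w = v
    · subst h
      rw [hφv]
      by_cases hxP : x ∈ P w
      · rw [hψP x hxP]
        exact H.inU w hv x hxP
      · exact (mem_filter.mp (hψY x hx hxP)).1
    · rw [hφw w h]
      exact G.inU w ((mem_insert.mp hw).resolve_left h) x hx
  · intro a ha b hb x hx hxc y hy hyc he
    by_cases h1 : a = v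
    · by_cases h2 : b = v
      · subst h1
        subst h2
        rw [hφv] at he
        exact ⟨rfl, edg_inj hclo hψi hx hxc hy hyc he⟩
      · subst h1
        rw [hφv, hφw b h2] at he
        exact (cross b ((mem_insert.mp hb).resolve_left h2) x hx hxc y hy hyc he).elim
    · by_cases h2 : b = v
      · subst h2
        rw [hφv, hφw a h1] at he
        exact (cross a ((mem_insert.mp ha).resolve_left h1) y hy hyc x hx hxc he.symm).elim
      · rw [hφw a h1, hφw b h2] at he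
        exact G.dst a ((mem_insert.mp ha).resolve_left h1) b
          ((mem_insert.mp hb).resolve_left h2) x hx hxc y hy hyc he
  · intro ed hed
    rw [hE', mem_union] at hed
    rcases hed with hed | hed
    · obtain ⟨x, hxc, hx, rfl⟩ := gs_mem_edg.mp hed
      by_cases h : x ∉ P v ∨ (S v).p x ∉ P v
      · exact (key x hx hxc h).2.2
      · push Not at h
        exact H.peo _ (key2 x h.1 hxc h.2)
    · exact G.out ed hed
  · intro w hw x hx hxc hxP
    by_cases h : w = v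
    · subst h
      rw [hφv]
      exact (key x hx hxc hxP).2.1
    · rw [hφw w h]
      exact G.npe w ((mem_insert.mp hw).resolve_left h) x hx hxc hxP
  · intro u hu w hw huw a ha b hb hab ha' hb'
    apply hmono
    by_cases h1 : w = v
    · subst h1
      rw [hcurv] at ha'
      rw [hcurw u huw] at hb'
      exact hcv u hu huw a ha b hb hab ha' hb'
    · by_cases h2 : u = v
      · subst h2
        rw [hcurv] at hb'
        rw [hcurw w h1] at ha'
        rw [Sym2.eq_swap]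
        exact hcv w hw h1 b hb a ha hab.symm hb' ha'
      · rw [hcurw w h1] at ha'
        rw [hcurw u h2] at hb'
        exact G.conf u hu w hw huw a ha b hb hab ha' hb'
  · intro y
    have h0 : ld S Xe P φ' (insert v Q) y =
        (if y ∈ (Xe v \ P v).image ψ then dgr (edg (S v) (Xe v) ψ) y else 0) +
          ld S Xe P φ Q y := by
      unfold ld
      rw [sum_filter, sum_filter, sum_insert hvQ, hφv]
      congr 1
      exact sum_congr rfl fun w hw => by rw [hφw w (hne w hw)]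
    rw [h0]
    split_ifs with hy
    · obtain ⟨x, hx, rfl⟩ := mem_image.mp hy
      rw [mem_sdiff] at hx
      have h1 := (mem_filter.mp (hψY x hx.1 hx.2)).2.2.2.1
      have h2 := dgr_le_card (E := edg (S v) (Xe v) ψ) (ψ x)
      have h3 := card_edg hclo hψi
      have h4 := H.cXe v hv
      omega
    · have h1 := G.load y
      omega

end good

end Pool.Agent.BC
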