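import Mathlib

/-!
# MP_80c395_co, project BC: independence of powers of nine
-/

set_option autoImplicit false

open Finset

namespace Pool.Agent.BC

theorem indep {R : ℕ} (w : Fin R → ℤ) (hw : ∀ i, |w i| ≤ 4)
    (h : ∑ i, w i * (9 : ℤ) ^ (i : ℕ) = 0) : ∀ i, w i = 0 := by
  induction R with
  | zero => intro i; exact i.elim0
  | succ R ih =>
    rw [Fin.sum_univ_succ] at h
    have h2 : ∑ i : Fin R, w i.succ * (9 : ℤ) ^ ((i.succ : Fin (R + 1)) : ℕ) =
        9 * ∑ i : Fin R, w i.succ * (9 : ℤ) ^ (i : ℕ) := by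
      rw [Finset.mul_sum]
      refine Finset.sum_congr rfl fun i _ => ?_
      rw [Fin.val_succ, pow_succ]
      ring
    rw [h2] at h
    simp only [Fin.val_zero, pow_zero, mul_one] at h
    have h0 : w 0 = 0 := by
      have := abs_le.1 (hw 0)
      omega
    rw [h0, zero_add] at h
    have h3 : ∑ i : Fin R, w i.succ * (9 : ℤ) ^ (i : ℕ) = 0 := by omega
    have h4 := ih (fun i => w i.succ) (fun i => hw i.succ) h3
    intro i
    refine Fin.cases h0 (fun j => h4 j) i

end Pool.Agent.BC
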