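import Mathlib

/-!
# MP_80c395_co, project BC: extension of trees to order n+1
-/

set_option autoImplicit false

open Finset

namespace Pool.Agent.BC

/-- new leaves at `b` -/
def extG {m n : ℕ} (hm : m ≤ n + 1) (T : SimpleGraph (Fin m)) (b : Fin m) :
    SimpleGraph (Fin (n + 1)) where
  Adj x y := (∃ x' y', T.Adj x' y' ∧ x = Fin.castLE hm x' ∧ y = Fin.castLE hm y') ∨
    (x = Fin.castLE hm b ∧ m ≤ y.val) ∨ (y = Fin.castLE hm b ∧ m ≤ x.val)
  symm := ⟨by
    rintro x y (⟨x', y', h, h1, h2⟩ | h | h)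
    · exact Or.inl ⟨y', x', h.symm, h2, h1⟩
    · exact Or.inr (Or.inr h)
    · exact Or.inr (Or.inl h)⟩
  loopless := ⟨by
    rintro x (⟨x', y', h, h1, h2⟩ | ⟨h1, h2⟩ | ⟨h1, h2⟩)
    · rw [h1] at h2
      have := Fin.castLE_injective hm h2
      rw [this] at h
      exact T.loopless.irrefl _ h
    · rw [h1] at h2
      have := b.isLt
      simp only [Fin.val_castLE] at h2
      omega
    · rw [h1] at h2
      have := b.isLt
      simp only [Fin.val_castLE] at h2
      omega⟩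

theorem extG_tree {m n : ℕ} (hm : m ≤ n + 1) (T : SimpleGraph (Fin m)) (hT : T.IsTree)
    (b : Fin m) : (extG hm T b).IsTree := by
  classical
  rw [SimpleGraph.isTree_iff_connected_and_card]
  have hcon : (extG hm T b).Connected := by
    rw [SimpleGraph.connected_iff_exists_forall_reachable]
    refine ⟨Fin.castLE hm b, ?_⟩
    intro y
    by_cases hy : m ≤ y.val
    · exact SimpleGraph.Adj.reachable (Or.inr (Or.inl ⟨rfl, hy⟩))
    · push Not at hy
      have h1 : y = Fin.castLE hm ⟨y.val, hy⟩ := rfl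
      rw [h1]
      let g : T →g extG hm T b :=
        ⟨Fin.castLE hm, fun {x y} h => Or.inl ⟨x, y, h, rfl, rfl⟩⟩
      exact (hT.connected.preconnected b ⟨y.val, hy⟩).map g
  refine ⟨hcon, ?_⟩
  have h1 := hcon.card_vert_le_card_edgeSet_add_one
  have h2 := (SimpleGraph.isTree_iff_connected_and_card.mp hT).2
  have h3 : (extG hm T b).edgeSet ⊆ (Sym2.map (Fin.castLE hm) '' T.edgeSet) ∪
      ((fun y => s(Fin.castLE hm b, y)) '' {y : Fin (n + 1) | m ≤ y.val}) := by
    intro ed hed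
    induction ed using Sym2.ind with
    | _ x y =>
      rw [SimpleGraph.mem_edgeSet] at hed
      rcases hed with ⟨x', y', h, h1, h2⟩ | ⟨h1, h2⟩ | ⟨h1, h2⟩
      · left
        exact ⟨s(x', y'), h, by rw [Sym2.map_mk, h1, h2]⟩
      · right
        exact ⟨y, h2, by rw [h1]⟩
      · right
        exact ⟨x, h2, by rw [h1, Sym2.eq_swap]⟩
  have h4 : {y : Fin (n + 1) | m ≤ y.val}.ncard ≤ n + 1 - m := by
    have : {y : Fin (n + 1) | m ≤ y.val} ⊆
        (fun j : ℕ => (Fin.ofNat (n + 1) j : Fin (n + 1))) '' (Finset.Ico m (n + 1) : Finset ℕ) := by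
      intro y hy
      refine ⟨y.val, ?_, ?_⟩
      · rw [Finset.mem_coe, Finset.mem_Ico]
        exact ⟨hy, y.isLt⟩
      · simp
    refine (Set.ncard_le_ncard this (Set.toFinite _)).trans ?_
    refine (Set.ncard_image_le (Set.toFinite _)).trans ?_
    rw [Set.ncard_coe_finset, Nat.card_Ico]
  have h5 := Set.ncard_le_ncard h3 (Set.toFinite _)
  have h6 := Set.ncard_union_le (Sym2.map (Fin.castLE hm) '' T.edgeSet)
    ((fun y => s(Fin.castLE hm b, y)) '' {y : Fin (n + 1) | m ≤ y.val})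
  have h7 := Set.ncard_image_le (f := Sym2.map (Fin.castLE hm)) (Set.toFinite T.edgeSet)
  have h8 := Set.ncard_image_le (f := fun y => s(Fin.castLE hm b, y))
    (Set.toFinite {y : Fin (n + 1) | m ≤ y.val})
  rw [Nat.card_coe_set_eq, Nat.card_eq_fintype_card, Fintype.card_fin] at h1 h2
  rw [Nat.card_coe_set_eq, Nat.card_eq_fintype_card, Fintype.card_fin]
  omega

theorem extend_one {R m n : ℕ} (hm : m ≤ n + 1) (hR : 1 ≤ R) (hRn : R ≤ n + 1)
    (T : SimpleGraph (Fin m)) (hT : T.IsTree) (B : Finset (Fin m)) (hB : B.card ≤ R) :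
    ∃ (T' : SimpleGraph (Fin (n + 1))) (c : Fin R → Fin (n + 1)), T'.IsTree ∧
      Function.Injective c ∧
      (∀ x y, T.Adj x y → T'.Adj (Fin.castLE hm x) (Fin.castLE hm y)) ∧
      {ed ∈ T'.edgeSet | ∀ i, c i ∉ ed}.ncard ≤ {ed ∈ T.edgeSet | ∀ b ∈ B, b ∉ ed}.ncard := by
  classical
  obtain ⟨b, hB1⟩ : ∃ b, (insert (Fin.castLE hm b) (B.image (Fin.castLE hm))).card ≤ R := by
    rcases B.eq_empty_or_nonempty with h | ⟨b, hb⟩
    · obtain ⟨b⟩ := hT.connected.nonempty
      refine ⟨b, ?_⟩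
      rw [h, Finset.image_empty]
      simpa using hR
    · refine ⟨b, ?_⟩
      rw [Finset.insert_eq_self.mpr (mem_image_of_mem _ hb)]
      exact Finset.card_image_le.trans hB
  obtain ⟨B', hB2, -, hB3⟩ := Finset.exists_subsuperset_card_eq
    (Finset.subset_univ (insert (Fin.castLE hm b) (B.image (Fin.castLE hm)))) hB1
    (by rw [Finset.card_univ, Fintype.card_fin]; exact hRn)
  refine ⟨extG hm T b, B'.orderEmbOfFin hB3, extG_tree hm T hT b,
    (B'.orderEmbOfFin hB3).injective, fun x y h => Or.inl ⟨x, y, h, rfl, rfl⟩, ?_⟩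
  have hr : ∀ x ∈ B', ∃ i, B'.orderEmbOfFin hB3 i = x := by
    intro x hx
    have h1 : x ∈ Set.range (B'.orderEmbOfFin hB3) := by
      rw [Finset.range_orderEmbOfFin]; exact hx
    exact h1
  have hsub : {ed ∈ (extG hm T b).edgeSet | ∀ i, B'.orderEmbOfFin hB3 i ∉ ed} ⊆
      Sym2.map (Fin.castLE hm) '' {ed ∈ T.edgeSet | ∀ b ∈ B, b ∉ ed} := by
    rintro ed ⟨hed, hc⟩
    induction ed using Sym2.ind with
    | _ x y =>
      have hb : ∀ z ∈ B', z ∉ s(x, y) := by
        intro z hz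
        obtain ⟨i, hi⟩ := hr z hz
        rw [← hi]
        exact hc i
      have hb0 := hb _ (hB2 (mem_insert_self _ _))
      rw [SimpleGraph.mem_edgeSet] at hed
      rcases hed with ⟨x', y', h, h1, h2⟩ | ⟨h1, h2⟩ | ⟨h1, h2⟩
      · refine ⟨s(x', y'), ⟨h, ?_⟩, by rw [Sym2.map_mk, h1, h2]⟩
        intro z hz hz'
        apply hb _ (hB2 (mem_insert_of_mem (mem_image_of_mem _ hz)))
        rw [Sym2.mem_iff] at hz' ⊢
        rcases hz' with h' | h'
        · left; rw [h', h1]
        · right; rw [h', h2]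
      · exact absurd (by rw [h1]; exact Sym2.mem_mk_left _ _) hb0
      · exact absurd (by rw [h1]; exact Sym2.mem_mk_right _ _) hb0
  exact (Set.ncard_le_ncard hsub (Set.toFinite _)).trans (Set.ncard_image_le (Set.toFinite _))

end Pool.Agent.BC
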