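import Pool.Agent.Lib.MP_80c395_co_BC.Core2
import Pool.Agent.Lib.MP_80c395_co_BC.Red

/-!
# MP_80c395_co, project BC: the main theorem
-/

set_option autoImplicit false

open Finset

namespace Pool.Agent.BC

/-- Families of at most `2n+1` trees of order at most `n+1`, each with a set of at most `R`
vertices which meets all but `n / (10^6 R^2)` of its edges, pack into `K_{2n+1}`. -/
theorem bounded_centres (R n : ℕ) (hR : 1 ≤ R) (hn : (10 ^ 6 * R) ^ (3 * R) ≤ n)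
    (k : ℕ) (m : Fin k → ℕ) (T : (i : Fin k) → SimpleGraph (Fin (m i))) (hk : k ≤ 2 * n + 1)
    (hT : ∀ i, (T i).IsTree) (hm : ∀ i, m i ≤ n + 1)
    (hB : ∀ i, ∃ B : Finset (Fin (m i)), B.card ≤ R ∧
      10 ^ 6 * R ^ 2 * {ed ∈ (T i).edgeSet | ∀ b ∈ B, b ∉ ed}.ncard ≤ n) :
    ∃ f : (i : Fin k) → (Fin (m i) ↪ Fin (2 * n + 1)),
      ∀ i j : Fin k, i ≠ j → ∀ (a b : Fin (m i)) (c d : Fin (m j)),
        (T i).Adj a b → (T j).Adj c d → s(f i a, f i b) ≠ s(f j c, f j d) := by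
  classical
  have hRn : R ≤ n + 1 := by
    have h1 : R ≤ (10 ^ 6 * R) ^ (3 * R) := by
      calc R ≤ 10 ^ 6 * R := Nat.le_mul_of_pos_left _ (by norm_num)
        _ ≤ (10 ^ 6 * R) ^ (3 * R) := Nat.le_self_pow (by omega) _
    omega
  have hE : 0 < 10 ^ 6 * R ^ 2 := by positivity
  have hone : ∀ v : Fin (2 * n + 1), ∃ (T' : SimpleGraph (Fin (n + 1)))
      (c : Fin R → Fin (n + 1)), T'.IsTree ∧ Function.Injective c ∧
      (∀ h : v.val < k, ∀ x y, (T ⟨v.val, h⟩).Adj x y →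
        T'.Adj (Fin.castLE (hm ⟨v.val, h⟩) x) (Fin.castLE (hm ⟨v.val, h⟩) y)) ∧
      {ed ∈ T'.edgeSet | ∀ i, c i ∉ ed}.ncard ≤ n / (10 ^ 6 * R ^ 2) := by
    intro v
    by_cases h : v.val < k
    · obtain ⟨B, hB1, hB2⟩ := hB ⟨v.val, h⟩
      obtain ⟨T', c, h1, h2, h3, h4⟩ := extend_one (hm ⟨v.val, h⟩) hR hRn (T ⟨v.val, h⟩)
        (hT ⟨v.val, h⟩) B hB1
      refine ⟨T', c, h1, h2, fun _ => h3, h4.trans ?_⟩
      rw [Nat.le_div_iff_mul_le hE, mul_comm]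
      exact hB2
    · obtain ⟨T', c, h1, h2, h3, h4⟩ := extend_one (R := R) (m := 1) (n := n) (by omega) hR hRn
        (⊥ : SimpleGraph (Fin 1)) SimpleGraph.IsTree.of_subsingleton ∅ (by simp)
      refine ⟨T', c, h1, h2, fun h' => absurd h' h, h4.trans ?_⟩
      have : {ed ∈ (⊥ : SimpleGraph (Fin 1)).edgeSet | ∀ b ∈ (∅ : Finset (Fin 1)), b ∉ ed} = ∅ := by
        simp
      rw [this, Set.ncard_empty]
      exact Nat.zero_le _
  choose T' c hT' hc hadj hfew using hone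
  obtain ⟨f, hf, hf'⟩ := pack_core2 R n (n / (10 ^ 6 * R ^ 2)) hR hn (Nat.mul_div_le n _)
    (Fin (2 * n + 1)) (Fin (n + 1)) (Fintype.card_fin _) (Fintype.card_fin _) T' c hT' hc hfew
  refine ⟨fun i => ⟨fun x => f (Fin.castLE hk i) (Fin.castLE (hm i) x),
    (hf _).comp (Fin.castLE_injective (hm i))⟩, ?_⟩
  intro i j hij a b a' b' hab hab'
  exact hf' (Fin.castLE hk i) (Fin.castLE hk j) _ _ _ _
    (fun h => hij (Fin.castLE_injective hk h)) (hadj (Fin.castLE hk i) i.isLt a b hab)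
    (hadj (Fin.castLE hk j) j.isLt a' b' hab')

end Pool.Agent.BC
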