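import Pool.Agent.Lib.MP_80c395_co_BC.Defs
import Pool.Agent.Lib.MP_80c395_co_BC.Indep

/-!
# MP_80c395_co, project BC: prescribed positions
-/

set_option autoImplicit false

open Finset

namespace Pool.Agent.BC

open Pool.Agent.Lib.MP_80c395_co

namespace Shf

/-- the value of a list of indices -/
def vl {R : ℕ} (L : List (Fin R)) : ℤ := (L.map fun i => (9 : ℤ) ^ (i : ℕ)).sum

theorem vl_eq {R : ℕ} (L : List (Fin R)) :
    vl L = ∑ k : Fin R, (L.count k : ℤ) * (9 : ℤ) ^ (k : ℕ) := by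
  induction L with
  | nil => simp [vl]
  | cons a L ih =>
    have h1 : vl (a :: L) = (9 : ℤ) ^ (a : ℕ) + vl L := by simp [vl]
    rw [h1, ih]
    have h2 : ∀ k : Fin R, ((a :: L).count k : ℤ) * (9 : ℤ) ^ (k : ℕ) =
        (L.count k : ℤ) * (9 : ℤ) ^ (k : ℕ) + (if k = a then (9 : ℤ) ^ (k : ℕ) else 0) := by
      intro k
      rw [List.count_cons]
      by_cases hk : a = k
      · subst hk
        simp [add_mul]
      · have : ¬ k = a := fun h => hk h.symm
        simp [hk, this]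
    rw [Finset.sum_congr rfl fun k _ => h2 k, Finset.sum_add_distrib, Finset.sum_ite_eq']
    simp [add_comm]

/-- lists of at most four indices with the same value have the same counts -/
theorem cnt {R : ℕ} (L M : List (Fin R)) (h1 : L.length ≤ 4) (h2 : M.length ≤ 4)
    (h : vl L = vl M) (k : Fin R) : L.count k = M.count k := by
  have h3 : ∀ i : Fin R, |(L.count i : ℤ) - (M.count i : ℤ)| ≤ 4 := by
    intro i
    have h4 : L.count i ≤ 4 := le_trans List.count_le_length h1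
    have h5 : M.count i ≤ 4 := le_trans List.count_le_length h2
    rw [abs_le]
    constructor <;> omega
  have h6 : ∑ i : Fin R, ((L.count i : ℤ) - (M.count i : ℤ)) * (9 : ℤ) ^ (i : ℕ) = 0 := by
    rw [Finset.sum_congr rfl fun i _ => sub_mul _ _ _, Finset.sum_sub_distrib, ← vl_eq, ← vl_eq,
      h, sub_self]
  have h7 := indep _ h3 h6 k
  have h8 : (L.count k : ℤ) - (M.count k : ℤ) = 0 := h7
  omega

/-- straight coincidences -/
theorem str {R : ℕ} {i j i' j' : Fin R} (hij : i < j) (hij' : i' < j')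
    (h : (9 : ℤ) ^ (i : ℕ) + (9 : ℤ) ^ (j' : ℕ) = (9 : ℤ) ^ (j : ℕ) + (9 : ℤ) ^ (i' : ℕ)) :
    i = i' ∧ j = j' := by
  have h0 : vl [i, j'] = vl [j, i'] := by simp [vl]; linarith
  have h1 := cnt _ _ (by simp) (by simp) h0 i
  have h2 := cnt _ _ (by simp) (by simp) h0 j
  have e1 : ¬ j = i := ne_of_gt hij
  have e2 : ¬ i = j := ne_of_lt hij
  simp only [List.count_cons, List.count_nil, beq_iff_eq, if_true, if_neg e1, if_neg e2] at h1 h2
  have h3 : i' = i := by
    by_contra hne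
    rw [if_neg hne] at h1
    omega
  have h4 : j' = j := by
    by_contra hne
    rw [if_neg hne] at h2
    omega
  exact ⟨h3.symm, h4.symm⟩

/-- crossed coincidences are impossible -/
theorem crs {R : ℕ} {i j i' j' : Fin R} (hij : i < j) (hij' : i' < j')
    (h : (9 : ℤ) ^ (i : ℕ) + (9 : ℤ) ^ (i' : ℕ) = (9 : ℤ) ^ (j : ℕ) + (9 : ℤ) ^ (j' : ℕ)) :
    False := by
  have h0 : vl [i, i'] = vl [j, j'] := by simp [vl]; linarith
  have h1 := cnt _ _ (by simp) (by simp) h0 i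
  have h2 := cnt _ _ (by simp) (by simp) h0 j
  have e1 : ¬ j = i := ne_of_gt hij
  have e2 : ¬ i = j := ne_of_lt hij
  simp only [List.count_cons, List.count_nil, beq_iff_eq, if_true, if_neg e1, if_neg e2] at h1 h2
  have h3 : j' = i := by
    by_contra hne
    rw [if_neg hne] at h1
    omega
  have h4 : i' = j := by
    by_contra hne
    rw [if_neg hne] at h2
    omega
  subst h3 h4
  exact absurd hij (not_lt.2 hij'.le)

/-- `x_p + x_k + x_q = 2 x_l + x_p'`, `k < l` -/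
theorem tri {R : ℕ} {p q p' k l : Fin R} (hkl : k < l)
    (h : (9 : ℤ) ^ (p : ℕ) + (9 : ℤ) ^ (k : ℕ) + (9 : ℤ) ^ (q : ℕ) =
      2 * (9 : ℤ) ^ (l : ℕ) + (9 : ℤ) ^ (p' : ℕ)) : p = l ∧ q = l ∧ p' = k := by
  have h0 : vl [p, k, q] = vl [l, l, p'] := by simp [vl]; linarith
  have h1 := cnt _ _ (by simp) (by simp) h0 l
  have h2 := cnt _ _ (by simp) (by simp) h0 k
  have e1 : ¬ k = l := ne_of_lt hkl
  have e2 : ¬ l = k := ne_of_gt hkl
  simp only [List.count_cons, List.count_nil, beq_iff_eq, if_true, if_neg e1, if_neg e2] at h1 h2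
  have h3 : p = l := by
    by_contra hne
    rw [if_neg hne] at h1
    split_ifs at h1 <;> omega
  have h4 : q = l := by
    by_contra hne
    rw [if_neg hne] at h1
    split_ifs at h1 <;> omega
  have h5 : p' = k := by
    by_contra hne
    rw [if_neg hne] at h2
    omega
  exact ⟨h3, h4, h5⟩

/-- `x_p + x_i' + x_k + x_q = 2 x_j' + 2 x_l` is impossible -/
theorem qua {R : ℕ} {p q k l i' j' : Fin R} (hkl : k < l) (hij : i' < j')
    (h : (9 : ℤ) ^ (p : ℕ) + (9 : ℤ) ^ (i' : ℕ) + (9 : ℤ) ^ (k : ℕ) + (9 : ℤ) ^ (q : ℕ) =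
      2 * (9 : ℤ) ^ (j' : ℕ) + 2 * (9 : ℤ) ^ (l : ℕ)) : False := by
  have h0 : vl [p, i', k, q] = vl [j', j', l, l] := by simp [vl]; linarith
  have h1 := cnt _ _ (by simp) (by simp) h0 j'
  have h2 := cnt _ _ (by simp) (by simp) h0 l
  have e1 : ¬ i' = j' := ne_of_lt hij
  have e2 : ¬ k = l := ne_of_lt hkl
  simp only [List.count_cons, List.count_nil, beq_iff_eq, if_true, if_neg e1, if_neg e2] at h1 h2
  by_cases e3 : l = j'
  · subst e3
    simp only [if_true, if_neg e2] at h1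
    split_ifs at h1 <;> omega
  · have e4 : ¬ j' = l := fun h => e3 h.symm
    rw [if_neg e3] at h1
    rw [if_neg e4] at h2
    by_cases e5 : p = j'
    · have e6 : ¬ p = l := fun h => e4 (e5.symm.trans h)
      rw [if_pos e5] at h1
      rw [if_neg e6] at h2
      have e7 : q = l := by
        by_contra hne
        rw [if_neg hne] at h2
        split_ifs at h2 <;> omega
      have e8 : ¬ q = j' := fun h => e3 (e7.symm.trans h)
      rw [if_neg e8] at h1
      rw [if_pos e7] at h2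
      have e9 : k = j' := by
        by_contra hne
        rw [if_neg hne] at h1
        omega
      have e10 : i' = l := by
        by_contra hne
        rw [if_neg hne] at h2
        omega
      subst e9 e10
      exact absurd hkl (not_lt.2 hij.le)
    · rw [if_neg e5] at h1
      have e7 : q = j' := by
        by_contra hne
        rw [if_neg hne] at h1
        split_ifs at h1 <;> omega
      have e8 : ¬ q = l := fun h => e4 (e7.symm.trans h)
      rw [if_pos e7] at h1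
      rw [if_neg e8] at h2
      have e9 : k = j' := by
        by_contra hne
        rw [if_neg hne] at h1
        omega
      have e10 : i' = l := by
        by_contra hne
        rw [if_neg hne] at h2
        split_ifs at h2 <;> omega
      subst e9 e10
      exact absurd hkl (not_lt.2 hij.le)

theorem pw {R : ℕ} (i : Fin R) : 1 ≤ (9 : ℤ) ^ (i : ℕ) ∧
    9 * (9 : ℤ) ^ (i : ℕ) ≤ (9 : ℤ) ^ R := by
  constructor
  · exact one_le_pow₀ (by norm_num)
  · calc 9 * (9 : ℤ) ^ (i : ℕ) = (9 : ℤ) ^ ((i : ℕ) + 1) := by ring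
      _ ≤ (9 : ℤ) ^ R := pow_le_pow_right₀ (by norm_num) i.2

section shift
variable {V : Type} {R : ℕ} {π : Equiv.Perm V} {U : Finset V}

theorem back {a b : ℤ} {u u' : V} (h : (π ^ a) u = (π ^ b) u') : u' = (π ^ (a - b)) u := by
  have h1 : (π ^ (a - b)) u = (π ^ (-b)) ((π ^ a) u) := by
    rw [← Equiv.Perm.mul_apply, ← zpow_add]
    congr 2
    ring
  rw [h1, h, ← Equiv.Perm.mul_apply, ← zpow_add]
  simp

theorem one (hπ : Cyc π U (9 ^ (R + 1))) {u : V} (hu : u ∈ U) {a b : ℤ}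
    (hab : |a - b| < 9 * (9 : ℤ) ^ R) (h : (π ^ a) u = (π ^ b) u) : a = b := by
  have h1 := back h
  have h2 := hπ.long u hu (a - b) (by
    push_cast
    rw [pow_succ]
    linarith) h1.symm
  omega

theorem two (hπ : Cyc π U (9 ^ (R + 1))) {u u' : V} (hu : u ∈ U) {a b c d : ℤ}
    (h1 : (π ^ a) u = (π ^ b) u') (h2 : (π ^ c) u = (π ^ d) u')
    (hb : |(a - b) - (c - d)| < 9 * (9 : ℤ) ^ R) : a - b = c - d := by
  have h3 := back h1
  have h4 := back h2
  exact one hπ hu hb (h3.symm.trans h4)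

end shift

end Shf

section shift
variable {V : Type} [Fintype V] [DecidableEq V] {R : ℕ} {π : Equiv.Perm V} {U : Finset V}

theorem hp_inj (hπ : Cyc π U (9 ^ (R + 1))) {u : V} (hu : u ∈ U) {i j : Fin R}
    (h : hp π u i = hp π u j) : i = j := by
  have pi := Shf.pw i
  have pj := Shf.pw j
  have h1 := Shf.one hπ hu (abs_lt.2 ⟨by linarith, by linarith⟩) h
  have h2 := Shf.cnt [i] [j] (by simp) (by simp) (by simp [Shf.vl, h1]) i
  by_contra hne
  have hne' : ¬ j = i := fun h => hne h.symm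
  simp only [List.count_cons, List.count_nil, beq_iff_eq, if_true, if_neg hne'] at h2
  omega

theorem hp_ne_cp (hπ : Cyc π U (9 ^ (R + 1))) {u : V} (hu : u ∈ U) {i j k : Fin R}
    (hjk : j < k) : hp π u i ≠ cp π u j k := by
  intro h
  have pi := Shf.pw i
  have pj := Shf.pw j
  have pk := Shf.pw k
  have h1 := Shf.one hπ hu (abs_lt.2 ⟨by linarith, by linarith⟩) h
  have h2 := Shf.cnt [i, j] [k, k] (by simp) (by simp) (by simp [Shf.vl]; linarith) k
  have hne : ¬ j = k := ne_of_lt hjk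
  simp only [List.count_cons, List.count_nil, beq_iff_eq, if_true, if_neg hne] at h2
  split_ifs at h2 <;> omega

theorem cp_inj (hπ : Cyc π U (9 ^ (R + 1))) {u : V} (hu : u ∈ U) {i j i' j' : Fin R}
    (hij : i < j) (hij' : i' < j') (h : cp π u i j = cp π u i' j') : i = i' ∧ j = j' := by
  have pi := Shf.pw i
  have pj := Shf.pw j
  have pi' := Shf.pw i'
  have pj' := Shf.pw j'
  have h1 := Shf.one hπ hu (abs_lt.2 ⟨by linarith, by linarith⟩) h
  have h0 : Shf.vl [j, j, i'] = Shf.vl [j', j', i] := by simp [Shf.vl]; linarith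
  have h2 := Shf.cnt _ _ (by simp) (by simp) h0 j
  have h3 := Shf.cnt _ _ (by simp) (by simp) h0 i
  have hne : ¬ i = j := ne_of_lt hij
  have hne2 : ¬ j = i := ne_of_gt hij
  simp only [List.count_cons, List.count_nil, beq_iff_eq, if_true, if_neg hne, if_neg hne2]
    at h2 h3
  have h4 : j' = j := by
    by_contra hn
    rw [if_neg hn] at h2
    split_ifs at h2 <;> omega
  subst h4
  rw [if_neg hne2] at h3
  refine ⟨?_, rfl⟩
  by_contra hn
  have hn' : ¬ i' = i := fun h => hn h.symm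
  rw [if_neg hn'] at h3
  omega

theorem hh_edge (hπ : Cyc π U (9 ^ (R + 1))) {u u' : V} (hu : u ∈ U) (hu' : u' ∈ U)
    {i j i' j' : Fin R} (hij : i < j) (hij' : i' < j')
    (h : s(hp π u i, hp π u j) = s(hp π u' i', hp π u' j')) : u = u' ∧ i = i' ∧ j = j' := by
  have pi := Shf.pw i
  have pj := Shf.pw j
  have pi' := Shf.pw i'
  have pj' := Shf.pw j'
  rcases Sym2.eq_iff.1 h with ⟨h1, h2⟩ | ⟨h1, h2⟩
  · have h3 := Shf.two hπ hu h1 h2 (abs_lt.2 ⟨by linarith, by linarith⟩)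
    obtain ⟨rfl, rfl⟩ := Shf.str hij hij' (by linarith)
    exact ⟨(π ^ _).injective h1, rfl, rfl⟩
  · have h3 := Shf.two hπ hu h1 h2 (abs_lt.2 ⟨by linarith, by linarith⟩)
    exact (Shf.crs hij hij' (by linarith)).elim

theorem cc_edge (hπ : Cyc π U (9 ^ (R + 1))) {u u' : V} (hu : u ∈ U) (hu' : u' ∈ U)
    {i j i' j' : Fin R} (hij : i < j) (hij' : i' < j')
    (h : s(hp π u j, cp π u i j) = s(hp π u' j', cp π u' i' j')) :
    u = u' ∧ i = i' ∧ j = j' := by
  have pi := Shf.pw i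
  have pj := Shf.pw j
  have pi' := Shf.pw i'
  have pj' := Shf.pw j'
  rcases Sym2.eq_iff.1 h with ⟨h1, h2⟩ | ⟨h1, h2⟩
  · have h3 := Shf.two hπ hu h1 h2 (abs_lt.2 ⟨by linarith, by linarith⟩)
    obtain ⟨rfl, rfl⟩ := Shf.str hij hij' (by linarith)
    exact ⟨(π ^ _).injective h1, rfl, rfl⟩
  · have h3 := Shf.two hπ hu h1 h2 (abs_lt.2 ⟨by linarith, by linarith⟩)
    exact (Shf.crs hij hij' (by linarith)).elim

theorem hc_edge (hπ : Cyc π U (9 ^ (R + 1))) {u u' : V} (hu : u ∈ U) (hu' : u' ∈ U)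
    {i j i' j' : Fin R} (hij : i < j) (hij' : i' < j')
    (h : s(hp π u i, hp π u j) = s(hp π u' j', cp π u' i' j')) :
    i = i' ∧ j = j' ∧ u = (π ^ ((9 : ℤ) ^ (j : ℕ) - (9 : ℤ) ^ (i : ℕ))) u' := by
  have pi := Shf.pw i
  have pj := Shf.pw j
  have pi' := Shf.pw i'
  have pj' := Shf.pw j'
  rcases Sym2.eq_iff.1 h with ⟨h1, h2⟩ | ⟨h1, h2⟩
  · have h3 := Shf.two hπ hu h1 h2 (abs_lt.2 ⟨by linarith, by linarith⟩)
    obtain ⟨rfl, rfl⟩ := Shf.str hij hij' (by linarith)
    exact ⟨rfl, rfl, Shf.back h1.symm⟩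
  · have h3 := Shf.two hπ hu h1 h2 (abs_lt.2 ⟨by linarith, by linarith⟩)
    exact (Shf.crs hij hij' (by linarith)).elim

/-- no double conflicts of prescribed positions, except at chord edges -/
theorem shift_conf (hπ : Cyc π U (9 ^ (R + 1))) {u u' a b : V} (hu : u ∈ U) (hu' : u' ∈ U)
    (huu : u ≠ u') (hab : a ≠ b)
    (ha : ∃ i : Fin R, a = hp π u i) (ha' : (∃ i : Fin R, a = hp π u' i) ∨
      ∃ i j : Fin R, i < j ∧ a = cp π u' i j)
    (hb : ∃ i : Fin R, b = hp π u' i) (hb' : (∃ i : Fin R, b = hp π u i) ∨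
      ∃ i j : Fin R, i < j ∧ b = cp π u i j) :
    (∃ i j : Fin R, i < j ∧ b = cp π u i j ∧ a = hp π u j ∧
      u' = (π ^ ((9 : ℤ) ^ (j : ℕ) - (9 : ℤ) ^ (i : ℕ))) u) ∨
    (∃ i j : Fin R, i < j ∧ a = cp π u' i j ∧ b = hp π u' j ∧
      u = (π ^ ((9 : ℤ) ^ (j : ℕ) - (9 : ℤ) ^ (i : ℕ))) u') := by
  obtain ⟨p, hp1⟩ := ha
  obtain ⟨q, hq1⟩ := hb
  have pp := Shf.pw p
  have pq := Shf.pw q
  rcases ha' with ⟨p', hp'⟩ | ⟨i', j', hij', hc'⟩
  · have pp' := Shf.pw p'
    have h1 : (π ^ ((9 : ℤ) ^ (p : ℕ))) u = (π ^ ((9 : ℤ) ^ (p' : ℕ))) u' := hp1.symm.trans hp'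
    rcases hb' with ⟨q', hq'⟩ | ⟨k, l, hkl, hc⟩
    · have pq' := Shf.pw q'
      have h2 : (π ^ ((9 : ℤ) ^ (q' : ℕ))) u = (π ^ ((9 : ℤ) ^ (q : ℕ))) u' := hq'.symm.trans hq1
      have h3 := Shf.two hπ hu h1 h2 (abs_lt.2 ⟨by linarith, by linarith⟩)
      have h0 : Shf.vl [p, q] = Shf.vl [q', p'] := by simp [Shf.vl]; linarith
      have h4 := Shf.cnt _ _ (by simp) (by simp) h0 p
      simp only [List.count_cons, List.count_nil, beq_iff_eq, if_true] at h4
      by_cases e1 : p' = p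
      · subst e1
        exact absurd ((π ^ _).injective h1) huu
      · rw [if_neg e1] at h4
        by_cases e2 : q' = p
        · subst e2
          exact absurd (hp1.trans hq'.symm) hab
        · rw [if_neg e2] at h4
          omega
    · have pk := Shf.pw k
      have pl := Shf.pw l
      have h2 : (π ^ (2 * (9 : ℤ) ^ (l : ℕ) - (9 : ℤ) ^ (k : ℕ))) u =
          (π ^ ((9 : ℤ) ^ (q : ℕ))) u' := hc.symm.trans hq1
      have h3 := Shf.two hπ hu h1 h2 (abs_lt.2 ⟨by linarith, by linarith⟩)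
      obtain ⟨rfl, rfl, rfl⟩ := Shf.tri (p := p) (q := q) (p' := p') hkl (by linarith)
      exact Or.inl ⟨_, _, hkl, hc, hp1, Shf.back h1⟩
  · have pi' := Shf.pw i'
    have pj' := Shf.pw j'
    have h1 : (π ^ ((9 : ℤ) ^ (p : ℕ))) u =
        (π ^ (2 * (9 : ℤ) ^ (j' : ℕ) - (9 : ℤ) ^ (i' : ℕ))) u' := hp1.symm.trans hc'
    rcases hb' with ⟨q', hq'⟩ | ⟨k, l, hkl, hc⟩
    · have pq' := Shf.pw q'
      have h2 : (π ^ ((9 : ℤ) ^ (q' : ℕ))) u = (π ^ ((9 : ℤ) ^ (q : ℕ))) u' := hq'.symm.trans hq1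
      have h3 := Shf.two hπ hu h1 h2 (abs_lt.2 ⟨by linarith, by linarith⟩)
      obtain ⟨rfl, rfl, rfl⟩ := Shf.tri (p := p) (q := q) (p' := q') hij' (by linarith)
      exact Or.inr ⟨_, _, hij', hc', hq1, Shf.back h2.symm⟩
    · have pk := Shf.pw k
      have pl := Shf.pw l
      have h2 : (π ^ (2 * (9 : ℤ) ^ (l : ℕ) - (9 : ℤ) ^ (k : ℕ))) u =
          (π ^ ((9 : ℤ) ^ (q : ℕ))) u' := hc.symm.trans hq1
      have h3 := Shf.two hπ hu h1 h2 (abs_lt.2 ⟨by linarith, by linarith⟩)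
      exact (Shf.qua (p := p) (q := q) hkl hij' (by linarith)).elim

end shift

end Pool.Agent.BC
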