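import Pool.Agent.Lib.MP_80c395_co_BC.DatFacts
import Pool.Agent.Lib.MP_80c395_co_BC.Shift

/-!
# MP_80c395_co, project BC: prescribed positions, part A
-/

set_option autoImplicit false

open Finset

namespace Pool.Agent.BC

open Pool.Agent.Lib.MP_80c395_co

section dat
variable {V X : Type} [Fintype V] [DecidableEq V] [Fintype X] [DecidableEq X] {R : ℕ}
  {n κ p0 e : ℕ} {S : V → RT X} {c : V → Fin R → X} {lv rem : V → Fin R → Finset X}
  {i0 : V → Fin R} {U : Finset V} {π : Equiv.Perm V} {P : V → Finset X} {ρ : V → X → V}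
  {l : V → Fin R → Fin R → X}

theorem pre_sub (D : Dat n κ p0 e S c lv rem i0 U π) (H : Pre S c lv rem U π P ρ l) :
    ∀ v ∈ U, P v ⊆ xe rem v := by
  intro v hv x hx
  rcases (H.mem v hv x).mp hx with ⟨i, -, rfl⟩ | ⟨i, j, hc, rfl⟩
  · exact c_mem_xe D v i
  · obtain ⟨h1, h2⟩ := H.ml v hv i j hc
    unfold xe
    rw [mem_filter]
    refine ⟨mem_univ _, fun k hk => ?_⟩
    have h3 : k = j := lv_disj D (D.sub v k hk) h1
    rw [h3] at hk
    exact h2 hk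

theorem pre_root (D : Dat n κ p0 e S c lv rem i0 U π) (H : Pre S c lv rem U π P ρ l) :
    ∀ v ∈ U, (S v).c ∈ P v := by
  intro v hv
  rw [D.root v]
  exact (H.mem v hv _).mpr (Or.inl ⟨i0 v, D.act v, rfl⟩)

theorem pre_chi (D : Dat n κ p0 e S c lv rem i0 U π) (H : Pre S c lv rem U π P ρ l) :
    ∀ v ∈ U, ∀ x, x ∉ P v → nch (S v) (P v) x ≤ R := by
  intro v hv x hx
  have hsub : ((P v).filter fun y => y ≠ (S v).c ∧ (S v).p y = x) ⊆
      (univ : Finset (Fin R)).image (c v) := by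
    intro y hy
    rw [mem_filter] at hy
    obtain ⟨hy1, -, hy3⟩ := hy
    rcases (H.mem v hv y).mp hy1 with ⟨i, -, rfl⟩ | ⟨i, j, hc, rfl⟩
    · exact mem_image_of_mem _ (mem_univ _)
    · exfalso
      apply hx
      have h1 := (H.ml v hv i j hc).1
      rw [D.lv_p v j _ h1] at hy3
      rw [← hy3]
      exact (H.mem v hv _).mpr (Or.inl ⟨j, hc.2.2.1, rfl⟩)
  unfold nch
  refine (card_le_card hsub).trans (card_image_le.trans ?_)
  rw [card_univ, Fintype.card_fin]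

theorem pre_inj (D : Dat n κ p0 e S c lv rem i0 U π) (H : Pre S c lv rem U π P ρ l) :
    ∀ v ∈ U, Set.InjOn (ρ v) (P v) := by
  intro v hv x hx y hy hxy
  rcases (H.mem v hv x).mp hx with ⟨i, hi, rfl⟩ | ⟨i, j, hc, rfl⟩
  · rcases (H.mem v hv y).mp hy with ⟨i', hi', rfl⟩ | ⟨i', j', hc', rfl⟩
    · rw [H.rc v hv i hi, H.rc v hv i' hi'] at hxy
      rw [hp_inj D.cyc hv hxy]
    · rw [H.rc v hv i hi, H.rl v hv i' j' hc'] at hxy
      exact absurd hxy (hp_ne_cp D.cyc hv hc'.1)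
  · rcases (H.mem v hv y).mp hy with ⟨i', hi', rfl⟩ | ⟨i', j', hc', rfl⟩
    · rw [H.rc v hv i' hi', H.rl v hv i j hc] at hxy
      exact absurd hxy.symm (hp_ne_cp D.cyc hv hc.1)
    · rw [H.rl v hv i j hc, H.rl v hv i' j' hc'] at hxy
      obtain ⟨h1, h2⟩ := cp_inj D.cyc hv hc.1 hc'.1 hxy
      rw [h1, h2]

/-- every prescribed position is a small power of the shift -/
private theorem pre_pow (H : Pre S c lv rem U π P ρ l) :
    ∀ v ∈ U, ∀ x ∈ P v, ∃ k : ℤ, 0 ≤ k ∧ k ≤ 2 * 9 ^ R ∧ ρ v x = (π ^ k) v := by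
  intro v hv x hx
  have hpow : ∀ i : Fin R, (9 : ℤ) ^ (i : ℕ) ≤ 9 ^ R := fun i =>
    pow_le_pow_right₀ (by norm_num) (le_of_lt i.2)
  have hpos : ∀ m : ℕ, (0 : ℤ) < 9 ^ m := fun m => pow_pos (by norm_num) m
  rcases (H.mem v hv x).mp hx with ⟨i, hi, rfl⟩ | ⟨i, j, hc, rfl⟩
  · refine ⟨(9 : ℤ) ^ (i : ℕ), (hpos _).le, ?_, ?_⟩
    · have := hpow i
      have := hpos R
      linarith
    · rw [H.rc v hv i hi]
      rfl
  · refine ⟨2 * (9 : ℤ) ^ (j : ℕ) - (9 : ℤ) ^ (i : ℕ), ?_, ?_, ?_⟩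
    · have h1 : (9 : ℤ) ^ (i : ℕ) ≤ 9 ^ (j : ℕ) :=
        pow_le_pow_right₀ (by norm_num) (le_of_lt (Fin.lt_def.mp hc.1))
      have := hpos (j : ℕ)
      linarith
    · have := hpow j
      have := hpos (i : ℕ)
      linarith
    · rw [H.rl v hv i j hc]
      rfl

theorem pre_inU (D : Dat n κ p0 e S c lv rem i0 U π) (H : Pre S c lv rem U π P ρ l) :
    ∀ v ∈ U, ∀ x ∈ P v, ρ v x ∈ U := by
  intro v hv x hx
  obtain ⟨k, -, -, hk⟩ := pre_pow H v hv x hx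
  rw [hk]
  exact inv_zpow D hv k

theorem pre_hs (D : Dat n κ p0 e S c lv rem i0 U π) (H : Pre S c lv rem U π P ρ l) :
    ∀ v ∈ U, hs π rem v ⊆ (P v).image (ρ v) := by
  intro v hv a ha
  unfold hs at ha
  rw [mem_image] at ha
  obtain ⟨i, hi, rfl⟩ := ha
  have hi2 : (rem v i).Nonempty := (mem_filter.mp hi).2
  rw [mem_image]
  exact ⟨c v i, (H.mem v hv _).mpr (Or.inl ⟨i, hi2, rfl⟩), H.rc v hv i hi2⟩

theorem hs_card (v : V) : (hs π rem v).card ≤ R := by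
  unfold hs
  refine card_image_le.trans ((card_filter_le _ _).trans ?_)
  rw [card_univ, Fintype.card_fin]

theorem pre_leaf (D : Dat n κ p0 e S c lv rem i0 U π) (H : Pre S c lv rem U π P ρ l) :
    ∀ v ∈ U, ∀ x ∈ P v, ρ v x ∉ hs π rem v →
      nch (S v) (xe rem v) x = 0 ∧ x ≠ (S v).c ∧ (S v).p x ∈ P v := by
  intro v hv x hx hnot
  rcases (H.mem v hv x).mp hx with ⟨i, hi, rfl⟩ | ⟨i, j, hc, rfl⟩
  · exfalso
    apply hnot
    rw [H.rc v hv i hi]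
    unfold hs
    exact mem_image_of_mem _ (mem_filter.mpr ⟨mem_univ _, hi⟩)
  · have h1 := (H.ml v hv i j hc).1
    refine ⟨?_, ?_, ?_⟩
    · unfold nch
      rw [card_eq_zero, filter_eq_empty_iff]
      rintro y - ⟨hy1, hy2⟩
      exact D.lv_ch v j _ h1 y hy1 hy2
    · rw [D.root v]
      exact fun h => D.lv_nc v j _ h1 (i0 v) h.symm
    · rw [D.lv_p v j _ h1]
      exact (H.mem v hv _).mpr (Or.inl ⟨j, hc.2.2.1, rfl⟩)

theorem pre_far (D : Dat n κ p0 e S c lv rem i0 U π) (H : Pre S c lv rem U π P ρ l) :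
    ∀ v ∈ U, ∀ x ∈ P v, ∀ y ∈ P v, ∃ t : ℤ, |t| ≤ 9 ^ (R + 1) ∧ (π ^ t) (ρ v x) = ρ v y := by
  intro v hv x hx y hy
  obtain ⟨k, hk0, hk1, hk2⟩ := pre_pow H v hv x hx
  obtain ⟨m, hm0, hm1, hm2⟩ := pre_pow H v hv y hy
  refine ⟨m - k, ?_, ?_⟩
  · have hpos : (0 : ℤ) < 9 ^ R := pow_pos (by norm_num) R
    rw [pow_succ, abs_le]
    constructor <;> linarith
  · rw [hk2, hm2, ← Equiv.Perm.mul_apply, ← zpow_add, sub_add_cancel]

end dat

end Pool.Agent.BC
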