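import Pool.Agent.Lib.MP_80c395_co_BC.PreA
import Pool.Agent.Lib.MP_80c395_co_BC.FEdeg

/-!
# MP_80c395_co, project BC: prescribed positions, part B
-/

set_option autoImplicit false

open Finset

namespace Pool.Agent.BC

open Pool.Agent.Lib.MP_80c395_co

section dat
variable {V X : Type} [Fintype V] [DecidableEq V] [Fintype X] [DecidableEq X] {R : ℕ}
  {n κ p0 e : ℕ} {S : V → RT X} {c : V → Fin R → X} {lv rem : V → Fin R → Finset X}
  {i0 : V → Fin R} {U : Finset V} {π : Equiv.Perm V} {P : V → Finset X} {ρ : V → X → V}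
  {l : V → Fin R → Fin R → X}

theorem hs_count (y : V) : (U.filter fun v => y ∈ hs π rem v).card ≤ R := by
  have hsub : (U.filter fun v => y ∈ hs π rem v) ⊆
      univ.image (fun i : Fin R => ((π ^ ((9 : ℤ) ^ (i : ℕ)))⁻¹ : Equiv.Perm V) y) := by
    intro v hv
    rw [mem_filter] at hv
    obtain ⟨-, hv⟩ := hv
    unfold hs at hv
    rw [mem_image] at hv
    obtain ⟨i, -, hi⟩ := hv
    rw [mem_image]
    refine ⟨i, mem_univ _, ?_⟩
    rw [← hi]
    unfold hp
    exact Equiv.symm_apply_apply _ _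
  calc _ ≤ (univ.image (fun i : Fin R =>
        ((π ^ ((9 : ℤ) ^ (i : ℕ)))⁻¹ : Equiv.Perm V) y)).card := card_le_card hsub
    _ ≤ (univ : Finset (Fin R)).card := card_image_le
    _ = R := by simp

theorem pre_count (D : Dat n κ p0 e S c lv rem i0 U π) (H : Pre S c lv rem U π P ρ l) :
    ∀ y, (U.filter fun v => y ∈ (P v).image (ρ v)).card ≤ R + R ^ 2 := by
  intro y
  have hsub : (U.filter fun v => y ∈ (P v).image (ρ v)) ⊆
      univ.image (fun i : Fin R => ((π ^ ((9 : ℤ) ^ (i : ℕ)))⁻¹ : Equiv.Perm V) y) ∪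
      univ.image (fun a : Fin R × Fin R =>
        ((π ^ (2 * (9 : ℤ) ^ (a.2 : ℕ) - (9 : ℤ) ^ (a.1 : ℕ)))⁻¹ : Equiv.Perm V) y) := by
    intro v hv
    rw [mem_filter, mem_image] at hv
    obtain ⟨hvU, x, hx, hxy⟩ := hv
    rw [mem_union, mem_image, mem_image]
    rcases (H.mem v hvU x).1 hx with ⟨i, hi, rfl⟩ | ⟨i, j, hij, rfl⟩
    · left
      refine ⟨i, mem_univ _, ?_⟩
      rw [← hxy, H.rc v hvU i hi]
      unfold hp
      exact Equiv.symm_apply_apply _ _
    · right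
      refine ⟨(i, j), mem_univ _, ?_⟩
      rw [← hxy, H.rl v hvU i j hij]
      unfold cp
      exact Equiv.symm_apply_apply _ _
  calc _ ≤ _ := card_le_card hsub
    _ ≤ _ := card_union_le _ _
    _ ≤ (univ : Finset (Fin R)).card + (univ : Finset (Fin R × Fin R)).card :=
        Nat.add_le_add card_image_le card_image_le
    _ = R + R ^ 2 := by simp [pow_two]

/-- the two types of edges with two prescribed ends -/
theorem preB_cases (D : Dat n κ p0 e S c lv rem i0 U π) (H : Pre S c lv rem U π P ρ l)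
    {v : V} (hv : v ∈ U) {x : X} (hx : x ∈ P v) (hne : x ≠ (S v).c) (hpx : (S v).p x ∈ P v) :
    (∃ i j : Fin R, i < j ∧ adjc (S v) (c v i) (c v j) ∧
      s(ρ v ((S v).p x), ρ v x) = s(hp π v i, hp π v j) ∧
      ((x = c v i ∧ (S v).p x = c v j) ∨ (x = c v j ∧ (S v).p x = c v i))) ∨
    (∃ i j : Fin R, chd S c rem π v i j ∧ x = l v i j ∧
      s(ρ v ((S v).p x), ρ v x) = s(hp π v j, cp π v i j)) := by
  have hpc : ∃ j, (rem v j).Nonempty ∧ (S v).p x = c v j := by
    rcases (H.mem v hv _).1 hpx with h | ⟨i, j, hij, h⟩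
    · exact h
    · exact absurd h (D.lv_ch v j _ (H.ml v hv i j hij).1 x hne)
  obtain ⟨j, hj, hpj⟩ := hpc
  rcases (H.mem v hv x).1 hx with ⟨i, hi, hxi⟩ | ⟨i, j', hij, hxl⟩
  · left
    have hij : i ≠ j := by
      rintro rfl
      have h1 := (S v).lt x hne
      rw [hpj, ← hxi] at h1
      exact lt_irrefl _ h1
    have hr1 : ρ v x = hp π v i := by rw [hxi]; exact H.rc v hv i hi
    have hr2 : ρ v ((S v).p x) = hp π v j := by rw [hpj]; exact H.rc v hv j hj
    rcases lt_or_gt_of_ne hij with hlt | hlt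
    · refine ⟨i, j, hlt, Or.inl ⟨?_, ?_⟩, ?_, Or.inl ⟨hxi, hpj⟩⟩
      · rw [← hxi]; exact hne
      · rw [← hxi]; exact hpj
      · rw [hr1, hr2, Sym2.eq_swap]
    · refine ⟨j, i, hlt, Or.inr ⟨?_, ?_⟩, ?_, Or.inr ⟨hxi, hpj⟩⟩
      · rw [← hxi]; exact hne
      · rw [← hxi]; exact hpj
      · rw [hr1, hr2]
  · right
    have h1 := D.lv_p v j' x (by rw [hxl]; exact (H.ml v hv i j' hij).1)
    have h2 : j' = j := D.cinj v (h1.symm.trans hpj)
    subst h2
    refine ⟨i, j', hij, hxl, ?_⟩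
    rw [hpj, H.rc v hv j' hj, hxl, H.rl v hv i j' hij]

theorem pre_dst (D : Dat n κ p0 e S c lv rem i0 U π) (H : Pre S c lv rem U π P ρ l) :
    ∀ v ∈ U, ∀ w ∈ U, ∀ x ∈ P v, x ≠ (S v).c → (S v).p x ∈ P v → ∀ y ∈ P w,
    y ≠ (S w).c → (S w).p y ∈ P w →
    s(ρ v ((S v).p x), ρ v x) = s(ρ w ((S w).p y), ρ w y) → v = w ∧ x = y := by
  intro v hv w hw x hx hxc hpx y hy hyc hpy heq
  rcases preB_cases D H hv hx hxc hpx with ⟨i, j, hij, hadj, he, hc⟩ | ⟨i, j, hch, hxl, he⟩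
  · rcases preB_cases D H hw hy hyc hpy with ⟨i', j', hij', hadj', he', hc'⟩ |
      ⟨i', j', hch', hyl, he'⟩
    · rw [he, he'] at heq
      obtain ⟨h1, h2, h3⟩ := hh_edge D.cyc hv hw hij hij' heq
      subst h1; subst h2; subst h3
      refine ⟨rfl, ?_⟩
      have hlx := (S v).lt x hxc
      have hly := (S v).lt y hyc
      rcases hc with ⟨ha, hb⟩ | ⟨ha, hb⟩ <;> rcases hc' with ⟨ha', hb'⟩ | ⟨ha', hb'⟩
      · rw [ha, ha']
      · exfalso
        rw [hb, ← ha'] at hlx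
        rw [hb', ← ha] at hly
        exact lt_asymm hlx hly
      · exfalso
        rw [hb, ← ha'] at hlx
        rw [hb', ← ha] at hly
        exact lt_asymm hlx hly
      · rw [ha, ha']
    · exfalso
      rw [he, he'] at heq
      obtain ⟨h1, h2, h3⟩ := hc_edge D.cyc hv hw hij hch'.1 heq
      subst h1; subst h2
      have h4 := hch'.2.2.2
      rw [← h3] at h4
      exact h4 hadj
  · rcases preB_cases D H hw hy hyc hpy with ⟨i', j', hij', hadj', he', hc'⟩ |
      ⟨i', j', hch', hyl, he'⟩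
    · exfalso
      rw [he, he'] at heq
      obtain ⟨h1, h2, h3⟩ := hc_edge D.cyc hw hv hij' hch.1 heq.symm
      subst h1; subst h2
      have h4 := hch.2.2.2
      rw [← h3] at h4
      exact h4 hadj'
    · rw [he, he'] at heq
      obtain ⟨h1, h2, h3⟩ := cc_edge D.cyc hv hw hch.1 hch'.1 heq
      subst h1; subst h2; subst h3
      exact ⟨rfl, hxl.trans hyl.symm⟩

theorem pre_FE (D : Dat n κ p0 e S c lv rem i0 U π) (H : Pre S c lv rem U π P ρ l) :
    PE S P ρ U ⊆ FE R π U := by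
  intro ed hed
  unfold PE at hed
  rw [mem_biUnion] at hed
  obtain ⟨v, hv, hed⟩ := hed
  rw [mem_image] at hed
  obtain ⟨x, hx, rfl⟩ := hed
  rw [mem_filter] at hx
  obtain ⟨hx, hxc, hpx⟩ := hx
  rcases preB_cases D H hv hx hxc hpx with ⟨i, j, hij, -, he, -⟩ | ⟨i, j, hch, -, he⟩
  · rw [he]
    have h1 : hp π v i ∈ U := inv_zpow D hv _
    have h2 := mem_FE (π := π) h1 hij
    have h3 : (π ^ ((9 : ℤ) ^ (j : ℕ) - (9 : ℤ) ^ (i : ℕ))) (hp π v i) = hp π v j := by
      unfold hp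
      rw [← Equiv.Perm.mul_apply, ← zpow_add]
      congr 2
      ring
    rwa [h3] at h2
  · rw [he]
    have h1 : hp π v j ∈ U := inv_zpow D hv _
    have h2 := mem_FE (π := π) h1 hch.1
    have h3 : (π ^ ((9 : ℤ) ^ (j : ℕ) - (9 : ℤ) ^ (i : ℕ))) (hp π v j) = cp π v i j := by
      unfold hp cp
      rw [← Equiv.Perm.mul_apply, ← zpow_add]
      congr 2
      ring
    rwa [h3] at h2

end dat

end Pool.Agent.BC
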